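import Pool.Agent.H635R2.Fam
import Pool.Agent.H635R2.Perm
import Pool.Agent.H310R3.Bridge
import Pool.Agent.Helper672.ZFA.Fin

/-!
# Symmetric extensions: natural numbers, families given by the generic filter, homogeneity
-/

set_option maxHeartbeats 1000000
set_option linter.all false
set_option synthInstance.maxSize 2000

namespace Pool.Agent.Helper672.ZFA.Q301SF

open FirstOrder FirstOrder.Language

open Pool.Agent.Helper672.ZFA.H635 (IPerm SymSys IG WFI FEq FMem tw Good feq_of_map feq_iff IsGen
  nd nd_eq mem_nd mem_nd_nd exists_mk mk_eq_nd EqFam NN nn_ext CollL nn_zf mem_NN extG SymQ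
  good_extG mem_nd_inr feq_equivQ fmem_tw toL)
open Pool.Agent.Helper672.Plain (LSet)
open Pool.Agent.H310 (FinP finP_iff finP_le finP_lt exists_BN)

universe u

section

variable {M : Type u} [L.Structure M] [hM : IsModel M]
variable {P Γ : Type u} [ITy M P] [Preorder P] [ILE M P] [ITy M Γ] [Group Γ] [IMul M Γ]
  [IInv M Γ] [MulAction Γ P] [ISMul M Γ P]
variable {Λ : Type u} [ITy M Λ] {S : SymSys M P Γ Λ}
variable {α β ε δ : Type u} [ITy M α] [ITy M β] [ITy M ε] [ITy M δ]

/-! ### Natural numbers -/

variable (M P) in
/-- The graph of the natural numbers. -/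
def nE (x : INat M) (_ : P) (y : INat M) : Prop := x < y

theorem ig_nE : IG M (nE M P) := by
  unfold IG nE
  (repeat' (first | with_reducible exact IntF.id | with_reducible exact IntF.fst' | with_reducible exact IntF.snd' | with_reducible exact IntF.const _ | with_reducible exact Int.const _ | assumption | with_reducible apply Int.and | with_reducible apply Int.or | with_reducible apply Int.not | with_reducible apply Int.imp | with_reducible apply Int.iff | with_reducible apply Int.ne | with_reducible apply Int.eq | with_reducible apply Int.mem | with_reducible apply Int.subset | with_reducible apply Int.ltN | with_reducible apply Int.leN | with_reducible_and_instances apply Int.le | with_reducible_and_instances apply Int.lt | with_reducible apply Int.all | with_reducible apply Int.ex | with_reducible apply IntF.fst | with_reducible apply IntF.snd | with_reducible apply IntF.app | with_reducible apply IntF.inl | with_reducible apply IntF.inr | with_reducible_and_instances apply IntF.mul | with_reducible_and_instances apply IntF.inv | with_reducible_and_instances apply IntF.add | with_reducible_and_instances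 apply IntF.sub | with_reducible_and_instances apply IntF.neg | with_reducible_and_instances apply IntF.smul | with_reducible apply Int.fin | with_reducible apply IntF.sep | with_reducible apply IntF.lam | with_reducible apply IntF.insert | with_reducible apply IntF.singleton | with_reducible apply IntF.union | with_reducible apply IntF.iimage | with_reducible apply IntF.ite | with_reducible apply IntF.the | with_reducible apply IntF.irec | with_reducible apply IntF.succ | with_reducible apply IntF.val | with_reducible apply IntF.mk | (with_reducible refine Int.comp ?_ ?_; assumption) | (with_reducible refine Int.comp₂ ?_ ?_ ?_; assumption) | (with_reducible refine Int.comp₃ ?_ ?_ ?_ ?_; assumption) | (with_reducible refine Int.comp₄ ?_ ?_ ?_ ?_ ?_; assumption) | (with_reducible refine IntF.comp ?_ ?_; assumption) | (with_reducible refine IntF.comp₂ ?_ ?_ ?_; assumption) | (with_reducible refine IntF.comp₃ ?_ ?_ ?_ ?_; assumption) | with_reducible apply IntF.pair))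

theorem wf_nE : WFI M (nE M P) := by
  intro s hs
  obtain ⟨n, h2, h3⟩ := INat.exists_least (p := fun n => n ∈ s) (by (repeat' (first | with_reducible exact IntF.id | with_reducible exact IntF.fst' | with_reducible exact IntF.snd' | with_reducible exact IntF.const _ | with_reducible exact Int.const _ | assumption | with_reducible apply Int.and | with_reducible apply Int.or | with_reducible apply Int.not | with_reducible apply Int.imp | with_reducible apply Int.iff | with_reducible apply Int.ne | with_reducible apply Int.eq | with_reducible apply Int.mem | with_reducible apply Int.subset | with_reducible apply Int.ltN | with_reducible apply Int.leN | with_reducible_and_instances apply Int.le | with_reducible_and_instances apply Int.lt | with_reducible apply Int.all | with_reducible apply Int.ex | with_reducible apply IntF.fst | with_reducible apply IntF.snd | with_reducible apply IntF.app | with_reducible apply IntF.inl | with_reducible apply IntF.inr | with_reducible_and_instances apply IntF.mul | with_reducible_and_instances apply IntF.inv | with_reducible_and_instances apply IntF.add |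 with_reducible_and_instances apply IntF.sub | with_reducible_and_instances apply IntF.neg | with_reducible_and_instances apply IntF.smul | with_reducible apply Int.fin | with_reducible apply IntF.sep | with_reducible apply IntF.lam | with_reducible apply IntF.insert | with_reducible apply IntF.singleton | with_reducible apply IntF.union | with_reducible apply IntF.iimage | with_reducible apply IntF.ite | with_reducible apply IntF.the | with_reducible apply IntF.irec | with_reducible apply IntF.succ | with_reducible apply IntF.val | with_reducible apply IntF.mk | (with_reducible refine Int.comp ?_ ?_; assumption) | (with_reducible refine Int.comp₂ ?_ ?_ ?_; assumption) | (with_reducible refine Int.comp₃ ?_ ?_ ?_ ?_; assumption) | (with_reducible refine Int.comp₄ ?_ ?_ ?_ ?_ ?_; assumption) | (with_reducible refine IntF.comp ?_ ?_; assumption) | (with_reducible refine IntF.comp₂ ?_ ?_ ?_; assumption) | (with_reducible refine IntF.comp₃ ?_ ?_ ?_ ?_; assumption) | with_reducible apply IntF.pair))) hs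
  exact ⟨n, h2, fun x q hx h4 => absurd (h3 x hx) (not_le.2 h4)⟩

theorem good_nE : Good S (nE M P) := by
  refine ⟨ig_nE, wf_nE, fun a => ?_⟩
  obtain ⟨l⟩ := S.nonempty
  exact ⟨l, fun π _ p => FEq.refl p a⟩

theorem feq_nE {p : P} {m n : INat M} (h : FEq M (nE M P) (nE M P) p m n) : m = n := by
  have hI := (ig_nE (M := M) (P := P)).feq ig_nE
  by_contra hmn
  have hP : Int M (fun m : INat M => ∃ (n : INat M) (p : P),
      FEq M (nE M P) (nE M P) p m n ∧ m ≠ n) := by
    refine Int.ex (Int.ex (Int.and ?_ ?_))
    · exact Int.comp₃ (p := fun p a b => FEq M (nE M P) (nE M P) p a b) hI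
        IntF.snd' (IntF.fst IntF.fst') (IntF.snd IntF.fst')
    · (repeat' (first | with_reducible exact IntF.id | with_reducible exact IntF.fst' | with_reducible exact IntF.snd' | with_reducible exact IntF.const _ | with_reducible exact Int.const _ | assumption | with_reducible apply Int.and | with_reducible apply Int.or | with_reducible apply Int.not | with_reducible apply Int.imp | with_reducible apply Int.iff | with_reducible apply Int.ne | with_reducible apply Int.eq | with_reducible apply Int.mem | with_reducible apply Int.subset | with_reducible apply Int.ltN | with_reducible apply Int.leN | with_reducible_and_instances apply Int.le | with_reducible_and_instances apply Int.lt | with_reducible apply Int.all | with_reducible apply Int.ex | with_reducible apply IntF.fst | with_reducible apply IntF.snd | with_reducible apply IntF.app | with_reducible apply IntF.inl | with_reducible apply IntF.inr | with_reducible_and_instances apply IntF.mul | with_reducible_and_instances apply IntF.inv | with_reducible_and_instances apply IntF.add | with_reducible_and_instances apply IntF.sub | with_reducible_and_instances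 apply IntF.neg | with_reducible_and_instances apply IntF.smul | with_reducible apply Int.fin | with_reducible apply IntF.sep | with_reducible apply IntF.lam | with_reducible apply IntF.insert | with_reducible apply IntF.singleton | with_reducible apply IntF.union | with_reducible apply IntF.iimage | with_reducible apply IntF.ite | with_reducible apply IntF.the | with_reducible apply IntF.irec | with_reducible apply IntF.succ | with_reducible apply IntF.val | with_reducible apply IntF.mk | (with_reducible refine Int.comp ?_ ?_; assumption) | (with_reducible refine Int.comp₂ ?_ ?_ ?_; assumption) | (with_reducible refine Int.comp₃ ?_ ?_ ?_ ?_; assumption) | (with_reducible refine Int.comp₄ ?_ ?_ ?_ ?_ ?_; assumption) | (with_reducible refine IntF.comp ?_ ?_; assumption) | (with_reducible refine IntF.comp₂ ?_ ?_ ?_; assumption) | (with_reducible refine IntF.comp₃ ?_ ?_ ?_ ?_; assumption) | with_reducible apply IntF.pair))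
  obtain ⟨m, ⟨n, p, h, hmn⟩, hmin⟩ := INat.exists_least hP ⟨m, n, p, h, hmn⟩
  obtain ⟨h1, h2⟩ := (feq_iff ig_nE ig_nE).1 h
  rcases lt_or_gt_of_ne hmn with hlt | hlt
  · obtain ⟨r, -, m', s, hm', -, h3⟩ := h2 m p hlt p le_rfl le_rfl p le_rfl
    exact absurd (hmin m' ⟨m, r, h3.symm ig_nE ig_nE, (show m' < m from hm').ne⟩)
      (not_le.2 (show m' < m from hm'))
  · obtain ⟨r, -, n', s, hn', -, h3⟩ := h1 n p hlt p le_rfl le_rfl p le_rfl
    exact absurd (hmin n ⟨n', r, h3, (show n' < n from hn').ne'⟩) (not_le.2 hlt)

variable {G : Set P} (hG : IsGen M G)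

variable (S) in
/-- The natural numbers. -/
noncomputable def nn (n : INat M) : NN S hG := nd hG good_nE n

theorem nn_inj {m n : INat M} : nn S hG m = nn S hG n ↔ m = n := by
  refine ⟨fun h => ?_, fun h => h ▸ rfl⟩
  obtain ⟨p, -, h1⟩ := (nd_eq hG _ _).1 h
  exact feq_nE h1

theorem mem_nn {w : NN S hG} {n : INat M} :
    Mem w (nn S hG n) ↔ ∃ m, m < n ∧ w = nn S hG m := by
  rw [mem_NN]
  unfold nn
  rw [mem_nd]
  constructor
  · rintro ⟨a, s, hs, h, rfl⟩
    exact ⟨a, h, rfl⟩
  · rintro ⟨m, h, rfl⟩
    obtain ⟨p, hp⟩ := hG.ne
    exact ⟨_, p, hp, h, rfl⟩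

theorem ef_nn : EqFam hG (fun (_ : Γ) n => n) (fun n => nn S hG n) :=
  ⟨INat M, _, nE M P, good_nE, fun n => n, by (repeat' (first | with_reducible exact IntF.id | with_reducible exact IntF.fst' | with_reducible exact IntF.snd' | with_reducible exact IntF.const _ | with_reducible exact Int.const _ | assumption | with_reducible apply Int.and | with_reducible apply Int.or | with_reducible apply Int.not | with_reducible apply Int.imp | with_reducible apply Int.iff | with_reducible apply Int.ne | with_reducible apply Int.eq | with_reducible apply Int.mem | with_reducible apply Int.subset | with_reducible apply Int.ltN | with_reducible apply Int.leN | with_reducible_and_instances apply Int.le | with_reducible_and_instances apply Int.lt | with_reducible apply Int.all | with_reducible apply Int.ex | with_reducible apply IntF.fst | with_reducible apply IntF.snd | with_reducible apply IntF.app | with_reducible apply IntF.inl | with_reducible apply IntF.inr | with_reducible_and_instances apply IntF.mul | with_reducible_and_instances apply IntF.inv | with_reducible_and_instances apply IntF.add | with_reducible_and_instances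 apply IntF.sub | with_reducible_and_instances apply IntF.neg | with_reducible_and_instances apply IntF.smul | with_reducible apply Int.fin | with_reducible apply IntF.sep | with_reducible apply IntF.lam | with_reducible apply IntF.insert | with_reducible apply IntF.singleton | with_reducible apply IntF.union | with_reducible apply IntF.iimage | with_reducible apply IntF.ite | with_reducible apply IntF.the | with_reducible apply IntF.irec | with_reducible apply IntF.succ | with_reducible apply IntF.val | with_reducible apply IntF.mk | (with_reducible refine Int.comp ?_ ?_; assumption) | (with_reducible refine Int.comp₂ ?_ ?_ ?_; assumption) | (with_reducible refine Int.comp₃ ?_ ?_ ?_ ?_; assumption) | (with_reducible refine Int.comp₄ ?_ ?_ ?_ ?_ ?_; assumption) | (with_reducible refine IntF.comp ?_ ?_; assumption) | (with_reducible refine IntF.comp₂ ?_ ?_ ?_; assumption) | (with_reducible refine IntF.comp₃ ?_ ?_ ?_ ?_; assumption) | with_reducible apply IntF.pair)), fun _ => rfl, fun π p c => FEq.refl p c⟩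

theorem exists_om : ∃ z : NN S hG, ∀ w, Mem w z ↔ ∃ n, w = nn S hG n := by
  obtain ⟨l⟩ := S.nonempty
  obtain ⟨z, hz⟩ := EqFam.set (ef_nn (S := S) hG) (Z := fun _ => True) (Int.const _)
    ⟨l, fun _ _ _ _ => trivial⟩
  exact ⟨z, fun w => (hz w).trans ⟨fun ⟨c, _, h⟩ => ⟨c, h⟩, fun ⟨c, h⟩ => ⟨c, trivial, h⟩⟩⟩

theorem ext' {x y : NN S hG} (h : ∀ z, Mem z x ↔ Mem z y) : x = y := nn_ext hG h

theorem isNat_nn (hC : CollL M) (n : INat M) (i : NN S hG) (hi : Ind i) :
    Mem (nn S hG n) i := by
  by_contra hc
  obtain ⟨o, ho⟩ := exists_om (S := S) hG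
  have hS : ZFA.Small {z : NN S hG | Mem z o ∧ z ∈ {z | ¬ Mem z i}} :=
    small_sep (D.not (D.memf (DF.var _) (DF.const _))) o
  obtain ⟨y, hy, hmin⟩ := (nn_zf hG hC).foundation hS.elt
    ⟨nn S hG n, hS.mem.2 ⟨(ho _).2 ⟨n, rfl⟩, hc⟩⟩
  obtain ⟨h1, h2⟩ := hS.mem.1 hy
  obtain ⟨m, rfl⟩ := (ho _).1 h1
  rcases INat.eq_zero_or_succ m with rfl | ⟨k, rfl⟩
  · obtain ⟨e, he, -, h0⟩ := hi.1
    refine h2 ?_
    have : nn S hG (0 : INat M) = e := ext' hG fun z => ⟨fun h => ?_, fun h => absurd h (h0 z)⟩
    · rw [this]
      exact he
    · obtain ⟨m, hm, -⟩ := (mem_nn hG).1 h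
      exact absurd hm INat.not_lt_zero
  · have hk : Mem (nn S hG k) i := by
      by_contra hk
      exact hmin (nn S hG k) (hS.mem.2 ⟨(ho _).2 ⟨k, rfl⟩, hk⟩)
        ((mem_nn hG).2 ⟨k, INat.lt_succ_self k, rfl⟩)
    obtain ⟨s, hs, -, h3⟩ := hi.2 _ hk
    refine h2 ?_
    have : nn S hG k.succ = s := ext' hG fun z => by
      rw [h3 z, mem_nn, mem_nn]
      constructor
      · rintro ⟨m, hm, rfl⟩
        rcases INat.lt_succ_iff'.1 hm with hm | rfl
        · exact Or.inl ⟨m, hm, rfl⟩
        · exact Or.inr rfl
      · rintro (⟨m, hm, rfl⟩ | rfl)
        · exact ⟨m, hm.trans (INat.lt_succ_self k), rfl⟩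
        · exact ⟨k, INat.lt_succ_self k, rfl⟩
    rw [this]
    exact hs

variable (S) in
/-- The natural numbers of the extension. -/
noncomputable def nnN (hC : CollL M) (n : INat M) : INat (NN S hG) :=
  ⟨nn S hG n, fun i hi => isNat_nn hG hC n i hi⟩

section nat

variable (hC : CollL M)

theorem nnN_val (n : INat M) : (nnN S hG hC n).val = nn S hG n := rfl

theorem nnN_zero : nnN S hG hC 0 = 0 := by
  refine INat.ext (ext' hG fun z => ?_)
  rw [nnN_val, mem_nn]
  constructor
  · rintro ⟨m, hm, -⟩
    exact absurd hm INat.not_lt_zero
  · exact fun h => absurd h INat.not_mem_zero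

theorem nnN_succ (n : INat M) : nnN S hG hC n.succ = (nnN S hG hC n).succ := by
  refine INat.ext (ext' hG fun z => ?_)
  rw [INat.mem_succ, nnN_val, nnN_val, mem_nn, mem_nn]
  constructor
  · rintro ⟨m, hm, rfl⟩
    rcases INat.lt_succ_iff'.1 hm with hm | rfl
    · exact Or.inl ⟨m, hm, rfl⟩
    · exact Or.inr rfl
  · rintro (⟨m, hm, rfl⟩ | rfl)
    · exact ⟨m, hm.trans (INat.lt_succ_self n), rfl⟩
    · exact ⟨n, INat.lt_succ_self n, rfl⟩

theorem nnN_surj (m : INat (NN S hG)) : ∃ n, nnN S hG hC n = m := by
  obtain ⟨o, ho⟩ := exists_om (S := S) hG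
  have h := m.prop o ⟨⟨(0 : INat (NN S hG)).val, (ho _).2 ⟨0, ?_⟩, trivial,
    fun z => INat.not_mem_zero⟩, fun z hz => ?_⟩
  · obtain ⟨n, hn⟩ := (ho _).1 h
    exact ⟨n, INat.ext hn.symm⟩
  · rw [← nnN_zero hG hC, nnN_val]
  · obtain ⟨n, rfl⟩ := (ho _).1 hz
    refine ⟨(nnN S hG hC n).succ.val, (ho _).2 ⟨n.succ, ?_⟩, trivial, fun z => INat.mem_succ⟩
    rw [← nnN_succ, nnN_val]

theorem nnN_inj {m n : INat M} : nnN S hG hC m = nnN S hG hC n ↔ m = n := by
  refine ⟨fun h => ?_, fun h => h ▸ rfl⟩
  have := congrArg INat.val h
  exact (nn_inj hG).1 this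

theorem nnN_lt {m n : INat M} : nnN S hG hC m < nnN S hG hC n ↔ m < n := by
  rw [INat.lt_def, nnN_val, nnN_val, mem_nn]
  constructor
  · rintro ⟨k, hk, h⟩
    rwa [(nn_inj hG).1 h]
  · exact fun h => ⟨m, h, rfl⟩

end nat

/-! ### Families that depend on the generic filter -/

variable {hG}

/-- Families of sets given by the generic filter. -/
theorem EqFam.setG {act : Γ → ε → ε} {f : ε → NN S hG} (hf : EqFam hG act f)
    {Y : P → ε → δ → Prop} (hY : Int M (fun q : (P × ε) × δ => Y q.1.1 q.1.2 q.2))
    {act' : Γ → δ → δ} (h : ∀ π r c b, Y r c b → Y (π • r) (act π c) (act' π b))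
    (ha : ∀ π b, act' π⁻¹ (act' π b) = b) (hs : ∀ b, ∃ l, ∀ π, S.U l π → act' π b = b) :
    ∃ F : δ → NN S hG, EqFam hG act' F ∧
      ∀ b w, Mem w (F b) ↔ ∃ c r, r ∈ G ∧ Y r c b ∧ w = f c := by
  obtain ⟨α, _, E, h0, g, hg, h1, h2⟩ := hf
  have hQ : Int M (fun q : (α × P) × δ => ∃ c, Y q.1.2 c q.2 ∧ q.1.1 = g c) := by (repeat' (first | with_reducible exact IntF.id | with_reducible exact IntF.fst' | with_reducible exact IntF.snd' | with_reducible exact IntF.const _ | with_reducible exact Int.const _ | assumption | with_reducible apply Int.and | with_reducible apply Int.or | with_reducible apply Int.not | with_reducible apply Int.imp | with_reducible apply Int.iff | with_reducible apply Int.ne | with_reducible apply Int.eq | with_reducible apply Int.mem | with_reducible apply Int.subset | with_reducible apply Int.ltN | with_reducible apply Int.leN | with_reducible_and_instances apply Int.le | with_reducible_and_instances apply Int.lt | with_reducible apply Int.all | with_reducible apply Int.ex | with_reducible apply IntF.fst | with_reducible apply IntF.snd | with_reducible apply IntF.app |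 with_reducible apply IntF.inl | with_reducible apply IntF.inr | with_reducible_and_instances apply IntF.mul | with_reducible_and_instances apply IntF.inv | with_reducible_and_instances apply IntF.add | with_reducible_and_instances apply IntF.sub | with_reducible_and_instances apply IntF.neg | with_reducible_and_instances apply IntF.smul | with_reducible apply Int.fin | with_reducible apply IntF.sep | with_reducible apply IntF.lam | with_reducible apply IntF.insert | with_reducible apply IntF.singleton | with_reducible apply IntF.union | with_reducible apply IntF.iimage | with_reducible apply IntF.ite | with_reducible apply IntF.the | with_reducible apply IntF.irec | with_reducible apply IntF.succ | with_reducible apply IntF.val | with_reducible apply IntF.mk | (with_reducible refine Int.comp ?_ ?_; assumption) | (with_reducible refine Int.comp₂ ?_ ?_ ?_; assumption) | (with_reducible refine Int.comp₃ ?_ ?_ ?_ ?_; assumption) | (with_reducible refine Int.comp₄ ?_ ?_ ?_ ?_ ?_; assumption) | (with_reducible refine IntF.comp ?_ ?_; assumption) | (with_reducible refine IntF.comp₂ ?_ ?_ ?_; assumption)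 | (with_reducible refine IntF.comp₃ ?_ ?_ ?_ ?_; assumption) | with_reducible apply IntF.pair))
  have hext : Good S (extG E (fun x r b => ∃ c, Y r c b ∧ x = g c)) := by
    refine good_extG h0 hQ fun b => ?_
    obtain ⟨l, hl⟩ := hs b
    refine ⟨l, ?_⟩
    rintro π hπ x r ⟨c, hc, rfl⟩ q hq
    have h3 := h π r c b hc
    rw [hl π hπ] at h3
    exact ⟨q, le_rfl, _, π • r, ⟨_, h3, rfl⟩, hq, h2 π q c⟩
  refine ⟨fun b => nd hG hext (Sum.inr b), ⟨_, _, _, hext, fun b => Sum.inr b, by (repeat' (first | with_reducible exact IntF.id | with_reducible exact IntF.fst' | with_reducible exact IntF.snd' | with_reducible exact IntF.const _ | with_reducible exact Int.const _ | assumption | with_reducible apply Int.and | with_reducible apply Int.or | with_reducible apply Int.not | with_reducible apply Int.imp | with_reducible apply Int.iff | with_reducible apply Int.ne | with_reducible apply Int.eq | with_reducible apply Int.mem | with_reducible apply Int.subset | with_reducible apply Int.ltN | with_reducible apply Int.leN | with_reducible_and_instances apply Int.le | with_reducible_and_instances apply Int.lt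 | with_reducible apply Int.all | with_reducible apply Int.ex | with_reducible apply IntF.fst | with_reducible apply IntF.snd | with_reducible apply IntF.app | with_reducible apply IntF.inl | with_reducible apply IntF.inr | with_reducible_and_instances apply IntF.mul | with_reducible_and_instances apply IntF.inv | with_reducible_and_instances apply IntF.add | with_reducible_and_instances apply IntF.sub | with_reducible_and_instances apply IntF.neg | with_reducible_and_instances apply IntF.smul | with_reducible apply Int.fin | with_reducible apply IntF.sep | with_reducible apply IntF.lam | with_reducible apply IntF.insert | with_reducible apply IntF.singleton | with_reducible apply IntF.union | with_reducible apply IntF.iimage | with_reducible apply IntF.ite | with_reducible apply IntF.the | with_reducible apply IntF.irec | with_reducible apply IntF.succ | with_reducible apply IntF.val | with_reducible apply IntF.mk | (with_reducible refine Int.comp ?_ ?_; assumption) | (with_reducible refine Int.comp₂ ?_ ?_ ?_; assumption) | (with_reducible refine Int.comp₃ ?_ ?_ ?_ ?_; assumption) | (with_reducible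 refine Int.comp₄ ?_ ?_ ?_ ?_ ?_; assumption) | (with_reducible refine IntF.comp ?_ ?_; assumption) | (with_reducible refine IntF.comp₂ ?_ ?_ ?_; assumption) | (with_reducible refine IntF.comp₃ ?_ ?_ ?_ ?_; assumption) | with_reducible apply IntF.pair)),
    fun b => rfl, fun π p b => ?_⟩, fun b w => ?_⟩
  · refine feq_equivQ (S := S) h0.int hQ ha ?_ π p b
    rintro π b x r ⟨c, hc, rfl⟩ q hq
    exact ⟨q, le_rfl, _, π • r, ⟨_, h π r c b hc, rfl⟩, hq, h2 π q c⟩
  · rw [mem_NN, mem_nd_inr hG h0 hext]
    constructor
    · rintro ⟨a, s, hs, ⟨c, hc, rfl⟩, rfl⟩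
      exact ⟨c, s, hs, hc, (h1 c).symm⟩
    · rintro ⟨c, r, hr, hc, rfl⟩
      exact ⟨g c, r, hr, ⟨c, hc, rfl⟩, h1 c⟩

/-- Families of sets of the ground model. -/
theorem EqFam.sets {act : Γ → ε → ε} {f : ε → NN S hG} (hf : EqFam hG act f)
    {R : δ → ε → Prop} (hR : Int M (fun q : δ × ε => R q.1 q.2))
    {act' : Γ → δ → δ} (h : ∀ π c b, R b c → R (act' π b) (act π c))
    (ha : ∀ π b, act' π⁻¹ (act' π b) = b) (hs : ∀ b, ∃ l, ∀ π, S.U l π → act' π b = b) :
    ∃ F : δ → NN S hG, EqFam hG act' F ∧ ∀ b w, Mem w (F b) ↔ ∃ c, R b c ∧ w = f c := by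
  obtain ⟨F, hF, hF'⟩ := EqFam.setG hf (Y := fun _ c b => R b c) (act' := act')
    (by (repeat' (first | with_reducible exact IntF.id | with_reducible exact IntF.fst' | with_reducible exact IntF.snd' | with_reducible exact IntF.const _ | with_reducible exact Int.const _ | assumption | with_reducible apply Int.and | with_reducible apply Int.or | with_reducible apply Int.not | with_reducible apply Int.imp | with_reducible apply Int.iff | with_reducible apply Int.ne | with_reducible apply Int.eq | with_reducible apply Int.mem | with_reducible apply Int.subset | with_reducible apply Int.ltN | with_reducible apply Int.leN | with_reducible_and_instances apply Int.le | with_reducible_and_instances apply Int.lt | with_reducible apply Int.all | with_reducible apply Int.ex | with_reducible apply IntF.fst | with_reducible apply IntF.snd | with_reducible apply IntF.app | with_reducible apply IntF.inl | with_reducible apply IntF.inr | with_reducible_and_instances apply IntF.mul | with_reducible_and_instances apply IntF.inv | with_reducible_and_instances apply IntF.add | with_reducible_and_instances apply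 IntF.sub | with_reducible_and_instances apply IntF.neg | with_reducible_and_instances apply IntF.smul | with_reducible apply Int.fin | with_reducible apply IntF.sep | with_reducible apply IntF.lam | with_reducible apply IntF.insert | with_reducible apply IntF.singleton | with_reducible apply IntF.union | with_reducible apply IntF.iimage | with_reducible apply IntF.ite | with_reducible apply IntF.the | with_reducible apply IntF.irec | with_reducible apply IntF.succ | with_reducible apply IntF.val | with_reducible apply IntF.mk | (with_reducible refine Int.comp ?_ ?_; assumption) | (with_reducible refine Int.comp₂ ?_ ?_ ?_; assumption) | (with_reducible refine Int.comp₃ ?_ ?_ ?_ ?_; assumption) | (with_reducible refine Int.comp₄ ?_ ?_ ?_ ?_ ?_; assumption) | (with_reducible refine IntF.comp ?_ ?_; assumption) | (with_reducible refine IntF.comp₂ ?_ ?_ ?_; assumption) | (with_reducible refine IntF.comp₃ ?_ ?_ ?_ ?_; assumption) | with_reducible apply IntF.pair))) (fun π _ c b hc => h π c b hc) ha hs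
  refine ⟨F, hF, fun b w => (hF' b w).trans ⟨fun ⟨c, r, _, h1, h2⟩ => ⟨c, h1, h2⟩, fun ⟨c, h1, h2⟩ => ?_⟩⟩
  obtain ⟨r, hr⟩ := hG.ne
  exact ⟨c, r, hr, h1, h2⟩

/-- Sets given by the generic filter. -/
theorem EqFam.set1G {act : Γ → ε → ε} {f : ε → NN S hG} (hf : EqFam hG act f)
    {Y : P → ε → Prop} (hY : Int M (fun q : P × ε => Y q.1 q.2))
    (h : ∃ l, ∀ π, S.U l π → ∀ r c, Y r c → Y (π • r) (act π c)) :
    ∃ z : NN S hG, ∀ w, Mem w z ↔ ∃ c r, r ∈ G ∧ Y r c ∧ w = f c := by
  obtain ⟨α, _, E, h0, g, hg, h1, h2⟩ := hf
  obtain ⟨l, hl⟩ := h
  obtain ⟨z, hz⟩ := H635.exists_set hG h0 (Q := fun x r => ∃ c, Y r c ∧ x = g c) (by (repeat' (first | with_reducible exact IntF.id | with_reducible exact IntF.fst' | with_reducible exact IntF.snd' | with_reducible exact IntF.const _ | with_reducible exact Int.const _ | assumption | with_reducible apply Int.and | with_reducible apply Int.or | with_reducible apply Int.not | with_reducible apply Int.imp | with_reducible apply Int.iff | with_reducible apply Int.ne | with_reducible apply Int.eq | with_reducible apply Int.mem | with_reducible apply Int.subset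 | with_reducible apply Int.ltN | with_reducible apply Int.leN | with_reducible_and_instances apply Int.le | with_reducible_and_instances apply Int.lt | with_reducible apply Int.all | with_reducible apply Int.ex | with_reducible apply IntF.fst | with_reducible apply IntF.snd | with_reducible apply IntF.app | with_reducible apply IntF.inl | with_reducible apply IntF.inr | with_reducible_and_instances apply IntF.mul | with_reducible_and_instances apply IntF.inv | with_reducible_and_instances apply IntF.add | with_reducible_and_instances apply IntF.sub | with_reducible_and_instances apply IntF.neg | with_reducible_and_instances apply IntF.smul | with_reducible apply Int.fin | with_reducible apply IntF.sep | with_reducible apply IntF.lam | with_reducible apply IntF.insert | with_reducible apply IntF.singleton | with_reducible apply IntF.union | with_reducible apply IntF.iimage | with_reducible apply IntF.ite | with_reducible apply IntF.the | with_reducible apply IntF.irec | with_reducible apply IntF.succ | with_reducible apply IntF.val | with_reducible apply IntF.mk | (with_reducible refine Int.comp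 ?_ ?_; assumption) | (with_reducible refine Int.comp₂ ?_ ?_ ?_; assumption) | (with_reducible refine Int.comp₃ ?_ ?_ ?_ ?_; assumption) | (with_reducible refine Int.comp₄ ?_ ?_ ?_ ?_ ?_; assumption) | (with_reducible refine IntF.comp ?_ ?_; assumption) | (with_reducible refine IntF.comp₂ ?_ ?_ ?_; assumption) | (with_reducible refine IntF.comp₃ ?_ ?_ ?_ ?_; assumption) | with_reducible apply IntF.pair))) ⟨l, by
    rintro π hπ _ r ⟨c, hc, rfl⟩ q hq
    exact ⟨q, le_rfl, g (act π c), π • r, ⟨_, hl π hπ r c hc, rfl⟩, hq, h2 π q c⟩⟩
  refine ⟨z, fun w => (hz w).trans ?_⟩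
  constructor
  · rintro ⟨_, s, hs, ⟨c, hc, rfl⟩, rfl⟩
    exact ⟨c, s, hs, hc, (h1 c).symm⟩
  · rintro ⟨c, r, hr, hc, rfl⟩
    exact ⟨g c, r, hr, ⟨c, hc, rfl⟩, h1 c⟩

/-- Homogeneity. -/
theorem support (z : NN S hG) : ∃ l : Λ, ∀ (ε : Type u) (_ : ITy M ε)
    (act : Γ → ε → ε) (f : ε → NN S hG), EqFam hG act f → ∀ c, Mem (f c) z →
      ∃ p, p ∈ G ∧ ∀ p', p' ≤ p → p' ∈ G → ∀ c', (∀ q₀, q₀ ∈ G → q₀ ≤ p' → ∃ π, S.U l π ∧
        act π c = c' ∧ ∃ r, r ≤ q₀ ∧ r ≤ π • p') → Mem (f c') z := by
  obtain ⟨x, rfl⟩ := exists_mk hG z
  obtain ⟨n, hn⟩ := x.good.sym x.root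
  refine ⟨n, fun ε _ a f hf c h => ?_⟩
  obtain ⟨α, _, F, hF, g₀, hg₀, h1, h2⟩ := hf
  rw [mem_NN, h1, mk_eq_nd, mem_nd_nd] at h
  obtain ⟨p, hp, h3⟩ := h
  refine ⟨p, hp, fun p' hp' hp'G c' hc' => ?_⟩
  rw [mem_NN, h1, mk_eq_nd, mem_nd_nd]
  by_contra hc
  have hI := hF.int.fmem x.int
  have hD : Int M (fun q : P => FMem M F x.E q (g₀ c') x.root ∨
      ∀ r, r ≤ q → ¬ FMem M F x.E r (g₀ c') x.root) := by
    refine Int.or ?_ (Int.all (Int.imp ?_ (Int.not ?_)))
    · exact Int.comp₃ (p := fun p a b => FMem M F x.E p a b) hI IntF.id (IntF.const _)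
        (IntF.const _)
    · exact Int.le IntF.snd' IntF.fst'
    · exact Int.comp₃ (p := fun p a b => FMem M F x.E p a b) hI IntF.snd' (IntF.const _)
        (IntF.const _)
  obtain ⟨q, hq, h4⟩ := hG.dense (fun q => FMem M F x.E q (g₀ c') x.root ∨
      ∀ r, r ≤ q → ¬ FMem M F x.E r (g₀ c') x.root) hD
    fun q => by
      by_cases h : ∃ r, r ≤ q ∧ FMem M F x.E r (g₀ c') x.root
      · obtain ⟨r, hr, h3⟩ := h
        exact ⟨r, hr, Or.inl h3⟩
      · exact ⟨q, le_rfl, Or.inr fun r hr h3 => h ⟨r, hr, h3⟩⟩
  rcases h4 with h4 | h4
  · exact hc ⟨q, hq, h4⟩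
  obtain ⟨q₀, hq₀, h5, h6⟩ := hG.dir p' q hp'G hq
  obtain ⟨π, hπ, hπc, r, hr, hr'⟩ := hc' q₀ hq₀ h5
  refine h4 r (hr.trans h6) ?_
  have h7 := (fmem_tw S π (h3.mono hp')).mono hr'
  have h8 : FEq M (tw π F) F r (g₀ c) (g₀ (a π c)) := h2 π r c
  rw [hπc] at h8
  exact FMem.congr_left hF.int (hF.int.tw π) x.int (h8.symm (hF.int.tw π) hF.int)
    (FMem.congr_right (hF.int.tw π) (x.int.tw π) x.int h7 (hn π hπ r))

end

end Pool.Agent.Helper672.ZFA.Q301SF
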