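import Pool.Agent.Q301.SF.Cd

/-!
# The basic Cohen model
-/

set_option maxHeartbeats 1000000
set_option linter.all false
set_option synthInstance.maxSize 2000

namespace Pool.Agent.Helper672.ZFA.Q301SF

open FirstOrder FirstOrder.Language
open Pool.Agent.Helper672.ZFA.H635 (IPerm SymSys IG WFI FEq FMem tw Good feq_of_map feq_iff IsGen
  nd nd_eq mem_nd mem_nd_nd exists_mk mk_eq_nd EqFam NN nn_ext CollL nn_zf mem_NN extG SymQ
  good_extG mem_nd_inr feq_equivQ fmem_tw toL)
open Pool.Agent.Helper672.ZFA.H310M (PGr FS fsu fs1 mem_fs1)
open Pool.Agent.Helper672.Plain (LSet)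

universe u

section gen

variable {M : Type u} [L.Structure M] [hM : IsModel M] {X : Type u} [ITy M X]

/-- The copy of the beginning of a row. -/
theorem exists_copy (p : Cd M X) {i j : X} {n : INat M} (hj : ¬ j ∈ rows p)
    (hd : ∀ k, k < n → (((i, k) : Cl M X) ∈ p.1.1 ∨ ((i, k) : Cl M X) ∈ p.1.2)) :
    ∃ q, q ≤ p ∧ (∀ k, k < n → (((i, k) : Cl M X) ∈ q.1.1 ∧ ((j, k) : Cl M X) ∈ q.1.1) ∨
      (((i, k) : Cl M X) ∈ q.1.2 ∧ ((j, k) : Cl M X) ∈ q.1.2)) ∧
      ∀ k, ((j, k) : Cl M X) ∈ q.1.1 ∨ ((j, k) : Cl M X) ∈ q.1.2 → k < n := by
  have hc : IntF M (fun c : Cl M X => ((j, c.2) : Cl M X)) := by (repeat' (first | with_reducible exact IntF.id | with_reducible exact IntF.fst' | with_reducible exact IntF.snd' | with_reducible exact IntF.const _ | with_reducible exact Int.const _ | assumption | with_reducible apply Int.and | with_reducible apply Int.or | with_reducible apply Int.not | with_reducible apply Int.imp | with_reducible apply Int.iff | with_reducible apply Int.ne | with_reducible apply Int.eq | with_reducible apply Int.mem | with_reducible apply Int.subset | with_reducible apply Int.ltN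 | with_reducible apply Int.leN | with_reducible_and_instances apply Int.le | with_reducible_and_instances apply Int.lt | with_reducible apply Int.all | with_reducible apply Int.ex | with_reducible apply IntF.fst | with_reducible apply IntF.snd | with_reducible apply IntF.app | with_reducible apply IntF.inl | with_reducible apply IntF.inr | with_reducible_and_instances apply IntF.mul | with_reducible_and_instances apply IntF.inv | with_reducible_and_instances apply IntF.add | with_reducible_and_instances apply IntF.sub | with_reducible_and_instances apply IntF.neg | with_reducible_and_instances apply IntF.smul | with_reducible apply Int.fin | with_reducible apply IntF.sep | with_reducible apply IntF.lam | with_reducible apply IntF.insert | with_reducible apply IntF.singleton | with_reducible apply IntF.union | with_reducible apply IntF.iimage | with_reducible apply IntF.ite | with_reducible apply IntF.the | with_reducible apply IntF.irec | with_reducible apply IntF.succ | with_reducible apply IntF.val | with_reducible apply IntF.mk | (with_reducible refine Int.comp ?_ ?_; assumption) | (with_reducible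 refine Int.comp₂ ?_ ?_ ?_; assumption) | (with_reducible refine Int.comp₃ ?_ ?_ ?_ ?_; assumption) | (with_reducible refine Int.comp₄ ?_ ?_ ?_ ?_ ?_; assumption) | (with_reducible refine IntF.comp ?_ ?_; assumption) | (with_reducible refine IntF.comp₂ ?_ ?_ ?_; assumption) | (with_reducible refine IntF.comp₃ ?_ ?_ ?_ ?_; assumption) | with_reducible apply IntF.pair))
  have h1 : ∀ s : IPow M (Cl M X), Int M (fun c : Cl M X => c ∈ s ∧ c.1 = i ∧ c.2 < n) := by
    intro s
    (repeat' (first | with_reducible exact IntF.id | with_reducible exact IntF.fst' | with_reducible exact IntF.snd' | with_reducible exact IntF.const _ | with_reducible exact Int.const _ | assumption | with_reducible apply Int.and | with_reducible apply Int.or | with_reducible apply Int.not | with_reducible apply Int.imp | with_reducible apply Int.iff | with_reducible apply Int.ne | with_reducible apply Int.eq | with_reducible apply Int.mem | with_reducible apply Int.subset | with_reducible apply Int.ltN | with_reducible apply Int.leN | with_reducible_and_instances apply Int.le | with_reducible_and_instances apply Int.lt |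 with_reducible apply Int.all | with_reducible apply Int.ex | with_reducible apply IntF.fst | with_reducible apply IntF.snd | with_reducible apply IntF.app | with_reducible apply IntF.inl | with_reducible apply IntF.inr | with_reducible_and_instances apply IntF.mul | with_reducible_and_instances apply IntF.inv | with_reducible_and_instances apply IntF.add | with_reducible_and_instances apply IntF.sub | with_reducible_and_instances apply IntF.neg | with_reducible_and_instances apply IntF.smul | with_reducible apply Int.fin | with_reducible apply IntF.sep | with_reducible apply IntF.lam | with_reducible apply IntF.insert | with_reducible apply IntF.singleton | with_reducible apply IntF.union | with_reducible apply IntF.iimage | with_reducible apply IntF.ite | with_reducible apply IntF.the | with_reducible apply IntF.irec | with_reducible apply IntF.succ | with_reducible apply IntF.val | with_reducible apply IntF.mk | (with_reducible refine Int.comp ?_ ?_; assumption) | (with_reducible refine Int.comp₂ ?_ ?_ ?_; assumption) | (with_reducible refine Int.comp₃ ?_ ?_ ?_ ?_; assumption) | (with_reducible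 refine Int.comp₄ ?_ ?_ ?_ ?_ ?_; assumption) | (with_reducible refine IntF.comp ?_ ?_; assumption) | (with_reducible refine IntF.comp₂ ?_ ?_ ?_; assumption) | (with_reducible refine IntF.comp₃ ?_ ?_ ?_ ?_; assumption) | with_reducible apply IntF.pair))
  have hF : ∀ s : IPow M (Cl M X), IFin s → IFin (iimage (fun c : Cl M X => ((j, c.2) : Cl M X))
      (sep M fun c : Cl M X => c ∈ s ∧ c.1 = i ∧ c.2 < n)) := fun s hs =>
    (hs.subset fun c hc => ((mem_sep (h1 s)).1 hc).1).image hc
  have hmem : ∀ (s : IPow M (Cl M X)) (c : Cl M X), c ∈ iimage (fun c : Cl M X => ((j, c.2) : Cl M X))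
      (sep M fun c : Cl M X => c ∈ s ∧ c.1 = i ∧ c.2 < n) ↔ c.1 = j ∧ ((i, c.2) : Cl M X) ∈ s ∧ c.2 < n := by
    intro s c
    rw [mem_iimage hc]
    constructor
    · rintro ⟨⟨d, k⟩, hd, rfl⟩
      obtain ⟨h2, rfl, h3⟩ := (mem_sep (h1 s)).1 hd
      exact ⟨rfl, h2, h3⟩
    · rintro ⟨h2, h3, h4⟩
      exact ⟨_, (mem_sep (h1 s)).2 ⟨h3, rfl, h4⟩, Prod.ext h2.symm rfl⟩
  refine ⟨⟨(p.1.1 ∪ iimage (fun c : Cl M X => ((j, c.2) : Cl M X))
      (sep M fun c : Cl M X => c ∈ p.1.1 ∧ c.1 = i ∧ c.2 < n),
    p.1.2 ∪ iimage (fun c : Cl M X => ((j, c.2) : Cl M X))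
      (sep M fun c : Cl M X => c ∈ p.1.2 ∧ c.1 = i ∧ c.2 < n)), ?_, p.2.2.1.union (hF _ p.2.2.1),
      p.2.2.2.union (hF _ p.2.2.2)⟩, ⟨fun c hc => mem_union.2 (Or.inl hc),
      fun c hc => mem_union.2 (Or.inl hc)⟩, ?_, ?_⟩
  · rintro ⟨x, k⟩ hc hc'
    rcases mem_union.1 hc with e1 | e1 <;> rcases mem_union.1 hc' with e2 | e2
    · exact p.2.1 _ e1 e2
    · obtain ⟨h2, h3, h4⟩ := (hmem _ _).1 e2
      have h2 : x = j := h2
      rw [h2] at e1
      exact hj (mem_rows₁ e1)
    · obtain ⟨h2, h3, h4⟩ := (hmem _ _).1 e1
      have h2 : x = j := h2
      rw [h2] at e2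
      exact hj (mem_rows₂ e2)
    · exact p.2.1 _ ((hmem _ _).1 e1).2.1 ((hmem _ _).1 e2).2.1
  · intro k hk
    rcases hd k hk with h | h
    · exact Or.inl ⟨mem_union.2 (Or.inl h), mem_union.2 (Or.inr ((hmem _ _).2 ⟨rfl, h, hk⟩))⟩
    · exact Or.inr ⟨mem_union.2 (Or.inl h), mem_union.2 (Or.inr ((hmem _ _).2 ⟨rfl, h, hk⟩))⟩
  · rintro k (h | h)
    · rcases mem_union.1 h with h | h
      · exact absurd (mem_rows₁ h) hj
      · exact ((hmem _ _).1 h).2.2
    · rcases mem_union.1 h with h | h
      · exact absurd (mem_rows₂ h) hj
      · exact ((hmem _ _).1 h).2.2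

theorem exists_fresh (p : Cd M X) (n : INat M) : ∃ k, n ≤ k ∧ ∀ x, ¬ ((x, k) : Cl M X) ∈ p.1.1 ∧
    ¬ ((x, k) : Cl M X) ∈ p.1.2 := by
  obtain ⟨m, hm⟩ := exists_colbound p
  refine ⟨max n m, le_max_left _ _, fun x => ⟨fun h => ?_, fun h => ?_⟩⟩
  · exact absurd (hm x _ (Or.inl h)) (not_lt.2 (le_max_right _ _))
  · exact absurd (hm x _ (Or.inr h)) (not_lt.2 (le_max_right _ _))

variable {Z : PGr M X} {Λ : Type u} [ITy M Λ] {F : Fil Z Λ}
variable {G : Set (Cd M X)} (hG : IsGen M G)

theorem bb_inf1 (i : X) (n : INat M) : ∃ k, n ≤ k ∧ Mem (nn (SC F) hG k) (bb F hG i) := by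
  obtain ⟨p, hp, k, h1, h2⟩ := hG.dense (fun p => ∃ k, n ≤ k ∧ ((i, k) : Cl M X) ∈ p.1.1)
    (by (repeat' (first | with_reducible exact IntF.id | with_reducible exact IntF.fst' | with_reducible exact IntF.snd' | with_reducible exact IntF.const _ | with_reducible exact Int.const _ | assumption | with_reducible apply Int.and | with_reducible apply Int.or | with_reducible apply Int.not | with_reducible apply Int.imp | with_reducible apply Int.iff | with_reducible apply Int.ne | with_reducible apply Int.eq | with_reducible apply Int.mem | with_reducible apply Int.subset | with_reducible apply Int.ltN | with_reducible apply Int.leN | with_reducible_and_instances apply Int.le | with_reducible_and_instances apply Int.lt | with_reducible apply Int.all | with_reducible apply Int.ex | with_reducible apply IntF.fst | with_reducible apply IntF.snd | with_reducible apply IntF.app | with_reducible apply IntF.inl | with_reducible apply IntF.inr | with_reducible_and_instances apply IntF.mul | with_reducible_and_instances apply IntF.inv | with_reducible_and_instances apply IntF.add | with_reducible_and_instances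 apply IntF.sub | with_reducible_and_instances apply IntF.neg | with_reducible_and_instances apply IntF.smul | with_reducible apply Int.fin | with_reducible apply IntF.sep | with_reducible apply IntF.lam | with_reducible apply IntF.insert | with_reducible apply IntF.singleton | with_reducible apply IntF.union | with_reducible apply IntF.iimage | with_reducible apply IntF.ite | with_reducible apply IntF.the | with_reducible apply IntF.irec | with_reducible apply IntF.succ | with_reducible apply IntF.val | with_reducible apply IntF.mk | (with_reducible refine Int.comp ?_ ?_; assumption) | (with_reducible refine Int.comp₂ ?_ ?_ ?_; assumption) | (with_reducible refine Int.comp₃ ?_ ?_ ?_ ?_; assumption) | (with_reducible refine Int.comp₄ ?_ ?_ ?_ ?_ ?_; assumption) | (with_reducible refine IntF.comp ?_ ?_; assumption) | (with_reducible refine IntF.comp₂ ?_ ?_ ?_; assumption) | (with_reducible refine IntF.comp₃ ?_ ?_ ?_ ?_; assumption) | with_reducible apply IntF.pair))) fun p => by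
      obtain ⟨k, hk, h⟩ := exists_fresh p n
      obtain ⟨q, h1, h2, -⟩ := exists_pos p (h i).2
      exact ⟨q, h1, k, hk, h2⟩
  exact ⟨k, h1, (mem_bb hG).2 ⟨p, hp, h2⟩⟩

theorem bb_inf0 (i : X) (n : INat M) : ∃ k, n ≤ k ∧ ¬ Mem (nn (SC F) hG k) (bb F hG i) := by
  obtain ⟨p, hp, k, h1, h2⟩ := hG.dense (fun p => ∃ k, n ≤ k ∧ ((i, k) : Cl M X) ∈ p.1.2)
    (by (repeat' (first | with_reducible exact IntF.id | with_reducible exact IntF.fst' | with_reducible exact IntF.snd' | with_reducible exact IntF.const _ | with_reducible exact Int.const _ | assumption | with_reducible apply Int.and | with_reducible apply Int.or | with_reducible apply Int.not | with_reducible apply Int.imp | with_reducible apply Int.iff | with_reducible apply Int.ne | with_reducible apply Int.eq | with_reducible apply Int.mem | with_reducible apply Int.subset | with_reducible apply Int.ltN | with_reducible apply Int.leN | with_reducible_and_instances apply Int.le | with_reducible_and_instances apply Int.lt | with_reducible apply Int.all | with_reducible apply Int.ex | with_reducible apply IntF.fst | with_reducible apply IntF.snd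 | with_reducible apply IntF.app | with_reducible apply IntF.inl | with_reducible apply IntF.inr | with_reducible_and_instances apply IntF.mul | with_reducible_and_instances apply IntF.inv | with_reducible_and_instances apply IntF.add | with_reducible_and_instances apply IntF.sub | with_reducible_and_instances apply IntF.neg | with_reducible_and_instances apply IntF.smul | with_reducible apply Int.fin | with_reducible apply IntF.sep | with_reducible apply IntF.lam | with_reducible apply IntF.insert | with_reducible apply IntF.singleton | with_reducible apply IntF.union | with_reducible apply IntF.iimage | with_reducible apply IntF.ite | with_reducible apply IntF.the | with_reducible apply IntF.irec | with_reducible apply IntF.succ | with_reducible apply IntF.val | with_reducible apply IntF.mk | (with_reducible refine Int.comp ?_ ?_; assumption) | (with_reducible refine Int.comp₂ ?_ ?_ ?_; assumption) | (with_reducible refine Int.comp₃ ?_ ?_ ?_ ?_; assumption) | (with_reducible refine Int.comp₄ ?_ ?_ ?_ ?_ ?_; assumption) | (with_reducible refine IntF.comp ?_ ?_; assumption) | (with_reducible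 refine IntF.comp₂ ?_ ?_ ?_; assumption) | (with_reducible refine IntF.comp₃ ?_ ?_ ?_ ?_; assumption) | with_reducible apply IntF.pair))) fun p => by
      obtain ⟨k, hk, h⟩ := exists_fresh p n
      obtain ⟨q, h1, h2, -⟩ := exists_neg p (h i).1
      exact ⟨q, h1, k, hk, h2⟩
  exact ⟨k, h1, (not_mem_bb hG).2 ⟨p, hp, h2⟩⟩

theorem bb_inj {i j : X} : bb F hG i = bb F hG j ↔ i = j := by
  refine ⟨fun h => ?_, fun h => h ▸ rfl⟩
  by_contra hij
  obtain ⟨p, hp, k, h1, h2⟩ := hG.dense (fun p => ∃ k, ((i, k) : Cl M X) ∈ p.1.1 ∧
    ((j, k) : Cl M X) ∈ p.1.2) (by (repeat' (first | with_reducible exact IntF.id | with_reducible exact IntF.fst' | with_reducible exact IntF.snd' | with_reducible exact IntF.const _ | with_reducible exact Int.const _ | assumption | with_reducible apply Int.and | with_reducible apply Int.or | with_reducible apply Int.not | with_reducible apply Int.imp | with_reducible apply Int.iff | with_reducible apply Int.ne | with_reducible apply Int.eq | with_reducible apply Int.mem | with_reducible apply Int.subset | with_reducible apply Int.ltN | with_reducible apply Int.leN | with_reducible_and_instances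 apply Int.le | with_reducible_and_instances apply Int.lt | with_reducible apply Int.all | with_reducible apply Int.ex | with_reducible apply IntF.fst | with_reducible apply IntF.snd | with_reducible apply IntF.app | with_reducible apply IntF.inl | with_reducible apply IntF.inr | with_reducible_and_instances apply IntF.mul | with_reducible_and_instances apply IntF.inv | with_reducible_and_instances apply IntF.add | with_reducible_and_instances apply IntF.sub | with_reducible_and_instances apply IntF.neg | with_reducible_and_instances apply IntF.smul | with_reducible apply Int.fin | with_reducible apply IntF.sep | with_reducible apply IntF.lam | with_reducible apply IntF.insert | with_reducible apply IntF.singleton | with_reducible apply IntF.union | with_reducible apply IntF.iimage | with_reducible apply IntF.ite | with_reducible apply IntF.the | with_reducible apply IntF.irec | with_reducible apply IntF.succ | with_reducible apply IntF.val | with_reducible apply IntF.mk | (with_reducible refine Int.comp ?_ ?_; assumption) | (with_reducible refine Int.comp₂ ?_ ?_ ?_; assumption) | (with_reducible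 refine Int.comp₃ ?_ ?_ ?_ ?_; assumption) | (with_reducible refine Int.comp₄ ?_ ?_ ?_ ?_ ?_; assumption) | (with_reducible refine IntF.comp ?_ ?_; assumption) | (with_reducible refine IntF.comp₂ ?_ ?_ ?_; assumption) | (with_reducible refine IntF.comp₃ ?_ ?_ ?_ ?_; assumption) | with_reducible apply IntF.pair))) fun p => by
      obtain ⟨k, hk, h⟩ := exists_fresh p 0
      obtain ⟨q, h1, h2, h3, h4⟩ := exists_pos p (h i).2
      obtain ⟨q', h5, h6, -⟩ := exists_neg q (c := (j, k)) fun h7 => by
        rcases h3 _ h7 with h8 | h8
        · exact (h j).1 h8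
        · exact hij (congrArg Prod.fst h8).symm
      exact ⟨q', h5.trans h1, k, h5.1 _ h2, h6⟩
  refine (not_mem_bb (F := F) hG).2 ⟨p, hp, h2⟩ ?_
  rw [← h]
  exact (mem_bb hG).2 ⟨p, hp, h1⟩

theorem bb_copy (hX : ∀ E : IPow M X, IFin E → ∃ x, ¬ x ∈ E) (i : X) (n : INat M) (E : IPow M X)
    (hE : IFin E) : (∃ j, ¬ j ∈ E ∧ (∀ k, k < n → (Mem (nn (SC F) hG k) (bb F hG j) ↔
      Mem (nn (SC F) hG k) (bb F hG i))) ∧ Mem (nn (SC F) hG n) (bb F hG j)) ∧
    (∃ j, ¬ j ∈ E ∧ (∀ k, k < n → (Mem (nn (SC F) hG k) (bb F hG j) ↔
      Mem (nn (SC F) hG k) (bb F hG i))) ∧ ¬ Mem (nn (SC F) hG n) (bb F hG j)) := by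
  have key : ∀ (p : Cd M X) (j : X), p ∈ G → (∀ k, k < n → (((i, k) : Cl M X) ∈ p.1.1 ∧
      ((j, k) : Cl M X) ∈ p.1.1) ∨ (((i, k) : Cl M X) ∈ p.1.2 ∧ ((j, k) : Cl M X) ∈ p.1.2)) →
      ∀ k, k < n → (Mem (nn (SC F) hG k) (bb F hG j) ↔ Mem (nn (SC F) hG k) (bb F hG i)) := by
    intro p j hp h k hk
    rcases h k hk with ⟨h1, h2⟩ | ⟨h1, h2⟩
    · exact iff_of_true ((mem_bb hG).2 ⟨p, hp, h2⟩) ((mem_bb hG).2 ⟨p, hp, h1⟩)
    · exact iff_of_false ((not_mem_bb hG).2 ⟨p, hp, h2⟩) ((not_mem_bb hG).2 ⟨p, hp, h1⟩)
  have step : ∀ p : Cd M X, ∃ q, q ≤ p ∧ ∃ j, ¬ j ∈ E ∧ (∀ k, k < n → (((i, k) : Cl M X) ∈ q.1.1 ∧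
      ((j, k) : Cl M X) ∈ q.1.1) ∨ (((i, k) : Cl M X) ∈ q.1.2 ∧ ((j, k) : Cl M X) ∈ q.1.2)) ∧
      ¬ ((j, n) : Cl M X) ∈ q.1.1 ∧ ¬ ((j, n) : Cl M X) ∈ q.1.2 := by
    intro p
    obtain ⟨p₁, h1, h2⟩ := exists_decs i n p
    obtain ⟨j, hj⟩ := hX (E ∪ rows p₁) (hE.union (fin_rows p₁))
    obtain ⟨q, h3, h4, h5⟩ := exists_copy p₁ (i := i) (j := j) (n := n)
      (fun h => hj (mem_union.2 (Or.inr h))) h2
    exact ⟨q, h3.trans h1, j, fun h => hj (mem_union.2 (Or.inl h)), h4,
      fun h => lt_irrefl _ (h5 n (Or.inl h)), fun h => lt_irrefl _ (h5 n (Or.inr h))⟩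
  constructor
  · obtain ⟨p, hp, j, h1, h2, h3⟩ := hG.dense (fun p => ∃ j, ¬ j ∈ E ∧ (∀ k, k < n →
      (((i, k) : Cl M X) ∈ p.1.1 ∧ ((j, k) : Cl M X) ∈ p.1.1) ∨ (((i, k) : Cl M X) ∈ p.1.2 ∧
      ((j, k) : Cl M X) ∈ p.1.2)) ∧ ((j, n) : Cl M X) ∈ p.1.1) (by (repeat' (first | with_reducible exact IntF.id | with_reducible exact IntF.fst' | with_reducible exact IntF.snd' | with_reducible exact IntF.const _ | with_reducible exact Int.const _ | assumption | with_reducible apply Int.and | with_reducible apply Int.or | with_reducible apply Int.not | with_reducible apply Int.imp | with_reducible apply Int.iff | with_reducible apply Int.ne | with_reducible apply Int.eq | with_reducible apply Int.mem | with_reducible apply Int.subset | with_reducible apply Int.ltN | with_reducible apply Int.leN | with_reducible_and_instances apply Int.le | with_reducible_and_instances apply Int.lt | with_reducible apply Int.all | with_reducible apply Int.ex | with_reducible apply IntF.fst | with_reducible apply IntF.snd | with_reducible apply IntF.app | with_reducible apply IntF.inl | with_reducible apply IntF.inr |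 with_reducible_and_instances apply IntF.mul | with_reducible_and_instances apply IntF.inv | with_reducible_and_instances apply IntF.add | with_reducible_and_instances apply IntF.sub | with_reducible_and_instances apply IntF.neg | with_reducible_and_instances apply IntF.smul | with_reducible apply Int.fin | with_reducible apply IntF.sep | with_reducible apply IntF.lam | with_reducible apply IntF.insert | with_reducible apply IntF.singleton | with_reducible apply IntF.union | with_reducible apply IntF.iimage | with_reducible apply IntF.ite | with_reducible apply IntF.the | with_reducible apply IntF.irec | with_reducible apply IntF.succ | with_reducible apply IntF.val | with_reducible apply IntF.mk | (with_reducible refine Int.comp ?_ ?_; assumption) | (with_reducible refine Int.comp₂ ?_ ?_ ?_; assumption) | (with_reducible refine Int.comp₃ ?_ ?_ ?_ ?_; assumption) | (with_reducible refine Int.comp₄ ?_ ?_ ?_ ?_ ?_; assumption) | (with_reducible refine IntF.comp ?_ ?_; assumption) | (with_reducible refine IntF.comp₂ ?_ ?_ ?_; assumption) | (with_reducible refine IntF.comp₃ ?_ ?_ ?_ ?_; assumption)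 | with_reducible apply IntF.pair))) fun p => by
        obtain ⟨q, h1, j, h2, h3, h4, h5⟩ := step p
        obtain ⟨q', h6, h7, -⟩ := exists_pos q h5
        refine ⟨q', h6.trans h1, j, h2, fun k hk => ?_, h7⟩
        rcases h3 k hk with h | h
        · exact Or.inl ⟨h6.1 _ h.1, h6.1 _ h.2⟩
        · exact Or.inr ⟨h6.2 _ h.1, h6.2 _ h.2⟩
    exact ⟨j, h1, key p j hp h2, (mem_bb hG).2 ⟨p, hp, h3⟩⟩
  · obtain ⟨p, hp, j, h1, h2, h3⟩ := hG.dense (fun p => ∃ j, ¬ j ∈ E ∧ (∀ k, k < n →
      (((i, k) : Cl M X) ∈ p.1.1 ∧ ((j, k) : Cl M X) ∈ p.1.1) ∨ (((i, k) : Cl M X) ∈ p.1.2 ∧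
      ((j, k) : Cl M X) ∈ p.1.2)) ∧ ((j, n) : Cl M X) ∈ p.1.2) (by (repeat' (first | with_reducible exact IntF.id | with_reducible exact IntF.fst' | with_reducible exact IntF.snd' | with_reducible exact IntF.const _ | with_reducible exact Int.const _ | assumption | with_reducible apply Int.and | with_reducible apply Int.or | with_reducible apply Int.not | with_reducible apply Int.imp | with_reducible apply Int.iff | with_reducible apply Int.ne | with_reducible apply Int.eq | with_reducible apply Int.mem | with_reducible apply Int.subset | with_reducible apply Int.ltN | with_reducible apply Int.leN | with_reducible_and_instances apply Int.le | with_reducible_and_instances apply Int.lt | with_reducible apply Int.all | with_reducible apply Int.ex | with_reducible apply IntF.fst | with_reducible apply IntF.snd | with_reducible apply IntF.app | with_reducible apply IntF.inl | with_reducible apply IntF.inr | with_reducible_and_instances apply IntF.mul | with_reducible_and_instances apply IntF.inv | with_reducible_and_instances apply IntF.add | with_reducible_and_instances apply IntF.sub | with_reducible_and_instances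 apply IntF.neg | with_reducible_and_instances apply IntF.smul | with_reducible apply Int.fin | with_reducible apply IntF.sep | with_reducible apply IntF.lam | with_reducible apply IntF.insert | with_reducible apply IntF.singleton | with_reducible apply IntF.union | with_reducible apply IntF.iimage | with_reducible apply IntF.ite | with_reducible apply IntF.the | with_reducible apply IntF.irec | with_reducible apply IntF.succ | with_reducible apply IntF.val | with_reducible apply IntF.mk | (with_reducible refine Int.comp ?_ ?_; assumption) | (with_reducible refine Int.comp₂ ?_ ?_ ?_; assumption) | (with_reducible refine Int.comp₃ ?_ ?_ ?_ ?_; assumption) | (with_reducible refine Int.comp₄ ?_ ?_ ?_ ?_ ?_; assumption) | (with_reducible refine IntF.comp ?_ ?_; assumption) | (with_reducible refine IntF.comp₂ ?_ ?_ ?_; assumption) | (with_reducible refine IntF.comp₃ ?_ ?_ ?_ ?_; assumption) | with_reducible apply IntF.pair))) fun p => by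
        obtain ⟨q, h1, j, h2, h3, h4, h5⟩ := step p
        obtain ⟨q', h6, h7, -⟩ := exists_neg q h4
        refine ⟨q', h6.trans h1, j, h2, fun k hk => ?_, h7⟩
        rcases h3 k hk with h | h
        · exact Or.inl ⟨h6.1 _ h.1, h6.1 _ h.2⟩
        · exact Or.inr ⟨h6.2 _ h.1, h6.2 _ h.2⟩
    exact ⟨j, h1, key p j hp h2, (not_mem_bb hG).2 ⟨p, hp, h3⟩⟩

end gen

/-! ### All permutations, finite supports -/

section c1

variable (M : Type u) [L.Structure M] [hM : IsModel M] (X : Type u) [ITy M X]

/-- All permutations. -/
noncomputable def ZT : PGr M X where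
  H := ⊤
  int := by
    have h : (fun g : IPerm M X => g ∈ (⊤ : Subgroup (IPerm M X))) = fun _ => True := by
      funext g
      exact eq_true (Subgroup.mem_top g)
    rw [h]
    exact Int.const _

variable {M X}

theorem mem_ZT (g : IPerm M X) : g ∈ (ZT M X).H := Subgroup.mem_top g

variable (M X) in
/-- Finite supports. -/
noncomputable def FT : Fil (ZT M X) (FS M X) where
  U E π := ∀ x, x ∈ E.1 → π.1.1 x = x
  int_U := by (repeat' (first | with_reducible exact IntF.id | with_reducible exact IntF.fst' | with_reducible exact IntF.snd' | with_reducible exact IntF.const _ | with_reducible exact Int.const _ | assumption | with_reducible apply Int.and | with_reducible apply Int.or | with_reducible apply Int.not | with_reducible apply Int.imp | with_reducible apply Int.iff | with_reducible apply Int.ne | with_reducible apply Int.eq | with_reducible apply Int.mem | with_reducible apply Int.subset | with_reducible apply Int.ltN | with_reducible apply Int.leN | with_reducible_and_instances apply Int.le | with_reducible_and_instances apply Int.lt | with_reducible apply Int.all | with_reducible apply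 Int.ex | with_reducible apply IntF.fst | with_reducible apply IntF.snd | with_reducible apply IntF.app | with_reducible apply IntF.inl | with_reducible apply IntF.inr | with_reducible_and_instances apply IntF.mul | with_reducible_and_instances apply IntF.inv | with_reducible_and_instances apply IntF.add | with_reducible_and_instances apply IntF.sub | with_reducible_and_instances apply IntF.neg | with_reducible_and_instances apply IntF.smul | with_reducible apply Int.fin | with_reducible apply IntF.sep | with_reducible apply IntF.lam | with_reducible apply IntF.insert | with_reducible apply IntF.singleton | with_reducible apply IntF.union | with_reducible apply IntF.iimage | with_reducible apply IntF.ite | with_reducible apply IntF.the | with_reducible apply IntF.irec | with_reducible apply IntF.succ | with_reducible apply IntF.val | with_reducible apply IntF.mk | (with_reducible refine Int.comp ?_ ?_; assumption) | (with_reducible refine Int.comp₂ ?_ ?_ ?_; assumption) | (with_reducible refine Int.comp₃ ?_ ?_ ?_ ?_; assumption) | (with_reducible refine Int.comp₄ ?_ ?_ ?_ ?_ ?_; assumption)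 | (with_reducible refine IntF.comp ?_ ?_; assumption) | (with_reducible refine IntF.comp₂ ?_ ?_ ?_; assumption) | (with_reducible refine IntF.comp₃ ?_ ?_ ?_ ?_; assumption) | with_reducible apply IntF.pair))
  nonempty := ⟨⟨∅, IFin.empty⟩⟩
  one _ x _ := IPerm.one_apply x
  mul _ a b ha hb x hx := by rw [IPerm.mul_apply, hb x hx, ha x hx]
  inv _ a ha x hx := by
    rw [IPerm.inv_apply]
    have h : a.1.2 (a.1.1 x) = x := a.2.2 x
    rwa [ha x hx] at h
  dir l l' := ⟨fsu l l', fun a ha => ⟨fun c hc => ha c (mem_union.2 (Or.inl hc)),
    fun c hc => ha c (mem_union.2 (Or.inr hc))⟩⟩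
  conj π _ l := by
    have hπ : IntF M (fun x => π.1.1 x) := by (repeat' (first | with_reducible exact IntF.id | with_reducible exact IntF.fst' | with_reducible exact IntF.snd' | with_reducible exact IntF.const _ | with_reducible exact Int.const _ | assumption | with_reducible apply Int.and | with_reducible apply Int.or | with_reducible apply Int.not | with_reducible apply Int.imp | with_reducible apply Int.iff | with_reducible apply Int.ne | with_reducible apply Int.eq | with_reducible apply Int.mem | with_reducible apply Int.subset | with_reducible apply Int.ltN | with_reducible apply Int.leN | with_reducible_and_instances apply Int.le | with_reducible_and_instances apply Int.lt | with_reducible apply Int.all | with_reducible apply Int.ex | with_reducible apply IntF.fst | with_reducible apply IntF.snd | with_reducible apply IntF.app | with_reducible apply IntF.inl | with_reducible apply IntF.inr | with_reducible_and_instances apply IntF.mul | with_reducible_and_instances apply IntF.inv | with_reducible_and_instances apply IntF.add | with_reducible_and_instances apply IntF.sub | with_reducible_and_instances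 apply IntF.neg | with_reducible_and_instances apply IntF.smul | with_reducible apply Int.fin | with_reducible apply IntF.sep | with_reducible apply IntF.lam | with_reducible apply IntF.insert | with_reducible apply IntF.singleton | with_reducible apply IntF.union | with_reducible apply IntF.iimage | with_reducible apply IntF.ite | with_reducible apply IntF.the | with_reducible apply IntF.irec | with_reducible apply IntF.succ | with_reducible apply IntF.val | with_reducible apply IntF.mk | (with_reducible refine Int.comp ?_ ?_; assumption) | (with_reducible refine Int.comp₂ ?_ ?_ ?_; assumption) | (with_reducible refine Int.comp₃ ?_ ?_ ?_ ?_; assumption) | (with_reducible refine Int.comp₄ ?_ ?_ ?_ ?_ ?_; assumption) | (with_reducible refine IntF.comp ?_ ?_; assumption) | (with_reducible refine IntF.comp₂ ?_ ?_ ?_; assumption) | (with_reducible refine IntF.comp₃ ?_ ?_ ?_ ?_; assumption) | with_reducible apply IntF.pair))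
    refine ⟨⟨iimage (fun x => π.1.1 x) l.1, l.2.image hπ⟩, fun a _ ha x hx => ?_⟩
    rw [IPerm.mul_apply, IPerm.mul_apply, ha _ ((mem_iimage hπ).2 ⟨x, hx, rfl⟩), IPerm.inv_apply]
    exact π.2.2 x
  pt x := ⟨fs1 x, fun a _ ha => ha x (mem_fs1.2 rfl)⟩

open Classical in
/-- A transposition. -/
theorem exists_swap (i j : X) : ∃ g : IPerm M X, g.1.1 i = j ∧ g.1.1 j = i ∧
    g.1.2 i = j ∧ g.1.2 j = i ∧ (∀ x, x ≠ i → x ≠ j → g.1.1 x = x) ∧
    ∀ x, x ≠ i → x ≠ j → g.1.2 x = x := by
  have hf : IntF M (fun x : X => if x = i then j else if x = j then i else x) := by (repeat' (first | with_reducible exact IntF.id | with_reducible exact IntF.fst' | with_reducible exact IntF.snd' | with_reducible exact IntF.const _ | with_reducible exact Int.const _ | assumption | with_reducible apply Int.and | with_reducible apply Int.or | with_reducible apply Int.not | with_reducible apply Int.imp | with_reducible apply Int.iff | with_reducible apply Int.ne | with_reducible apply Int.eq | with_reducible apply Int.mem | with_reducible apply Int.subset | with_reducible apply Int.ltN | with_reducible apply Int.leN |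 with_reducible_and_instances apply Int.le | with_reducible_and_instances apply Int.lt | with_reducible apply Int.all | with_reducible apply Int.ex | with_reducible apply IntF.fst | with_reducible apply IntF.snd | with_reducible apply IntF.app | with_reducible apply IntF.inl | with_reducible apply IntF.inr | with_reducible_and_instances apply IntF.mul | with_reducible_and_instances apply IntF.inv | with_reducible_and_instances apply IntF.add | with_reducible_and_instances apply IntF.sub | with_reducible_and_instances apply IntF.neg | with_reducible_and_instances apply IntF.smul | with_reducible apply Int.fin | with_reducible apply IntF.sep | with_reducible apply IntF.lam | with_reducible apply IntF.insert | with_reducible apply IntF.singleton | with_reducible apply IntF.union | with_reducible apply IntF.iimage | with_reducible apply IntF.ite | with_reducible apply IntF.the | with_reducible apply IntF.irec | with_reducible apply IntF.succ | with_reducible apply IntF.val | with_reducible apply IntF.mk | (with_reducible refine Int.comp ?_ ?_; assumption) | (with_reducible refine Int.comp₂ ?_ ?_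 ?_; assumption) | (with_reducible refine Int.comp₃ ?_ ?_ ?_ ?_; assumption) | (with_reducible refine Int.comp₄ ?_ ?_ ?_ ?_ ?_; assumption) | (with_reducible refine IntF.comp ?_ ?_; assumption) | (with_reducible refine IntF.comp₂ ?_ ?_ ?_; assumption) | (with_reducible refine IntF.comp₃ ?_ ?_ ?_ ?_; assumption) | with_reducible apply IntF.pair))
  have h : ∀ x : X, (if (if x = i then j else if x = j then i else x) = i then j else
      if (if x = i then j else if x = j then i else x) = j then i else
        (if x = i then j else if x = j then i else x)) = x := by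
    intro x
    by_cases h1 : x = i
    · subst h1
      by_cases h2 : j = x
      · simp [h2]
      · simp [h2]
    · by_cases h2 : x = j
      · subst h2
        simp [h1]
      · simp [h1, h2]
  refine ⟨IPerm.ofInv _ hf h, ?_, ?_, ?_, ?_, ?_, ?_⟩
  · exact if_pos rfl
  · change (if j = i then j else if j = j then i else j) = i
    by_cases h1 : j = i
    · simp [h1]
    · simp [h1]
  · exact if_pos rfl
  · change (if j = i then j else if j = j then i else j) = i
    by_cases h1 : j = i
    · simp [h1]
    · simp [h1]
  · intro x h1 h2
    change (if x = i then j else if x = j then i else x) = x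
    simp [h1, h2]
  · intro x h1 h2
    change (if x = i then j else if x = j then i else x) = x
    simp [h1, h2]

variable {G : Set (Cd M X)} (hG : IsGen M G)

/-- Homogeneity. -/
theorem bb_hom {κ : Type u} [ITy M κ] {f : X × κ → NN (SC (FT M X)) hG}
    (hf : EqFam hG (fun (π : Gz (ZT M X)) (q : X × κ) => (ra π q.1, q.2)) f)
    (z : NN (SC (FT M X)) hG) : ∃ E : IPow M X, IFin E ∧ ∀ i, ¬ i ∈ E → ∀ m, Mem (f (i, m)) z →
      ∃ (n : INat M) (E' : IPow M X), IFin E' ∧ ∀ j, ¬ j ∈ E' → (∀ k, k < n →
        (Mem (nn (SC (FT M X)) hG k) (bb (FT M X) hG j) ↔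
          Mem (nn (SC (FT M X)) hG k) (bb (FT M X) hG i))) → Mem (f (j, m)) z := by
  obtain ⟨l, hl⟩ := support (S := SC (FT M X)) z
  refine ⟨l.1, l.2, fun i hi m h => ?_⟩
  obtain ⟨p, hp, h1⟩ := hl _ _ _ _ hf (i, m) h
  obtain ⟨n, hn⟩ := exists_colbound p
  refine ⟨n, l.1 ∪ (rows p ∪ {i}), l.2.union ((fin_rows p).union (IFin.singleton i)),
    fun j hj hk => ?_⟩
  have hj1 : ¬ j ∈ l.1 := fun h => hj (mem_union.2 (Or.inl h))
  have hj2 : ¬ j ∈ rows p := fun h => hj (mem_union.2 (Or.inr (mem_union.2 (Or.inl h))))
  have hj3 : j ≠ i := fun h => hj (mem_union.2 (Or.inr (mem_union.2 (Or.inr (mem_singleton.2 h)))))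
  refine h1 p le_rfl hp (j, m) fun q₀ hq₀ hq₀p => ?_
  obtain ⟨g, g1, g2, g3, g4, g5, g6⟩ := exists_swap (M := M) i j
  refine ⟨⟨g, mem_ZT g⟩, fun x hx => g5 x (fun h => hi (h ▸ hx)) (fun h => hj1 (h ▸ hx)),
    Prod.ext g1 rfl, ⟨⟨(q₀.1.1 ∪ ((⟨g, mem_ZT g⟩ : Gz (ZT M X)) • p).1.1,
      q₀.1.2 ∪ ((⟨g, mem_ZT g⟩ : Gz (ZT M X)) • p).1.2), ?_,
      q₀.2.2.1.union ((⟨g, mem_ZT g⟩ : Gz (ZT M X)) • p).2.2.1,
      q₀.2.2.2.union ((⟨g, mem_ZT g⟩ : Gz (ZT M X)) • p).2.2.2⟩,
      ⟨fun c hc => mem_union.2 (Or.inl hc), fun c hc => mem_union.2 (Or.inl hc)⟩,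
      ⟨fun c hc => mem_union.2 (Or.inr hc), fun c hc => mem_union.2 (Or.inr hc)⟩⟩⟩
  rintro ⟨x, k⟩ hc hc'
  rcases mem_union.1 hc with hc | hc <;> rcases mem_union.1 hc' with hc' | hc'
  · exact q₀.2.1 _ hc hc'
  · have h2 : ((g.1.2 x, k) : Cl M X) ∈ p.1.2 := mem_smul₂.1 hc'
    by_cases hxi : x = i
    · subst hxi
      rw [g3] at h2
      exact hj2 (mem_rows₂ h2)
    by_cases hxj : x = j
    · subst hxj
      rw [g4] at h2
      have h3 := (not_mem_bb (F := FT M X) hG).2 ⟨p, hp, h2⟩
      rw [← hk k (hn _ _ (Or.inr h2))] at h3
      exact h3 ((mem_bb hG).2 ⟨q₀, hq₀, hc⟩)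
    · rw [g6 x hxi hxj] at h2
      exact q₀.2.1 _ hc (hq₀p.2 _ h2)
  · have h2 : ((g.1.2 x, k) : Cl M X) ∈ p.1.1 := mem_smul₁.1 hc
    by_cases hxi : x = i
    · subst hxi
      rw [g3] at h2
      exact hj2 (mem_rows₁ h2)
    by_cases hxj : x = j
    · subst hxj
      rw [g4] at h2
      have h3 := (mem_bb (F := FT M X) hG).2 ⟨p, hp, h2⟩
      rw [← hk k (hn _ _ (Or.inl h2))] at h3
      exact (not_mem_bb hG).2 ⟨q₀, hq₀, hc'⟩ h3
    · rw [g6 x hxi hxj] at h2
      exact q₀.2.1 _ (hq₀p.1 _ h2) hc'
  · exact p.2.1 _ (mem_smul₁.1 hc) (mem_smul₂.1 hc')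

end c1

end Pool.Agent.Helper672.ZFA.Q301SF
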