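import Pool.Agent.Q301.SF.C1

/-!
# The basic Cohen model: the set of the generic reals in the extension
-/

set_option maxHeartbeats 1000000
set_option linter.all false
set_option synthInstance.maxSize 2000

namespace Pool.Agent.Helper672.ZFA.Q301SF

open FirstOrder FirstOrder.Language
open Pool.Agent.Helper672.ZFA.H635 (IPerm SymSys IG WFI FEq FMem tw Good feq_of_map feq_iff IsGen
  nd nd_eq mem_nd mem_nd_nd exists_mk mk_eq_nd EqFam NN nn_ext CollL nn_zf mem_NN extG SymQ
  good_extG mem_nd_inr feq_equivQ fmem_tw toL)
open Pool.Agent.Helper672.ZFA.H310M (PGr FS fsu fs1 mem_fs1)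
open Pool.Agent.Helper672.Plain (LSet)

universe u u₁

/-- A set of Cohen reals: `b (n, a)` says that `n` is in the set `a` of natural numbers. -/
structure CD (N : Type u) [L.Structure N] [IsModel N] {δ : Type u₁} [ITy N δ]
    (b : INat N × δ → Prop) : Prop where
  int : Int N b
  ext : ∀ x y, (∀ k, b (k, x) ↔ b (k, y)) → x = y
  ne : Nonempty δ
  inf1 : ∀ x n, ∃ k, n ≤ k ∧ b (k, x)
  inf0 : ∀ x n, ∃ k, n ≤ k ∧ ¬ b (k, x)
  cp1 : ∀ E : IPow N δ, IFin E → ∀ x n, ∃ y, ¬ y ∈ E ∧ (∀ k, k < n → (b (k, y) ↔ b (k, x))) ∧ b (n, y)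
  cp0 : ∀ E : IPow N δ, IFin E → ∀ x n, ∃ y, ¬ y ∈ E ∧ (∀ k, k < n → (b (k, y) ↔ b (k, x))) ∧
    ¬ b (n, y)
  hom : ∀ J : δ × (INat N × INat N) → Prop, Int N J → ∃ E : IPow N δ, IFin E ∧ ∀ x, ¬ x ∈ E →
    ∀ m, J (x, m) → ∃ (n : INat N) (E' : IPow N δ), IFin E' ∧ ∀ y, ¬ y ∈ E' →
      (∀ k, k < n → (b (k, y) ↔ b (k, x))) → J (y, m)

/-- Copies that avoid a finite set. -/
theorem exists_cp {N : Type u} [L.Structure N] [IsModel N] {δ : Type u₁} [ITy N δ]
    {b : INat N × δ → Prop} (hb : Int N b) (ext : ∀ x y, (∀ k, b (k, x) ↔ b (k, y)) → x = y)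
    (h : ∀ c x n, (∃ y, y ≠ c ∧ (∀ k, k < n → (b (k, y) ↔ b (k, x))) ∧ b (n, y)) ∧
      (∃ y, y ≠ c ∧ (∀ k, k < n → (b (k, y) ↔ b (k, x))) ∧ ¬ b (n, y))) (E : IPow N δ)
    (hE : IFin E) : ∀ x n, (∃ y, ¬ y ∈ E ∧ (∀ k, k < n → (b (k, y) ↔ b (k, x))) ∧ b (n, y)) ∧
      (∃ y, ¬ y ∈ E ∧ (∀ k, k < n → (b (k, y) ↔ b (k, x))) ∧ ¬ b (n, y)) := by
  refine IFin.ind (p := fun E : IPow N δ => ∀ x n,
    (∃ y, ¬ y ∈ E ∧ (∀ k, k < n → (b (k, y) ↔ b (k, x))) ∧ b (n, y)) ∧
      (∃ y, ¬ y ∈ E ∧ (∀ k, k < n → (b (k, y) ↔ b (k, x))) ∧ ¬ b (n, y))) (by (repeat' (first | with_reducible exact IntF.id | with_reducible exact IntF.fst' | with_reducible exact IntF.snd' | with_reducible exact IntF.const _ | with_reducible exact Int.const _ | assumption | with_reducible apply Int.and | with_reducible apply Int.or | with_reducible apply Int.not | with_reducible apply Int.imp | with_reducible apply Int.iff | with_reducible apply Int.ne | with_reducible apply Int.eq | with_reducible apply Int.mem | with_reducible apply Int.subset | with_reducible apply Int.ltN | with_reducible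 apply Int.leN | with_reducible_and_instances apply Int.le | with_reducible_and_instances apply Int.lt | with_reducible apply Int.all | with_reducible apply Int.ex | with_reducible apply IntF.fst | with_reducible apply IntF.snd | with_reducible apply IntF.app | with_reducible apply IntF.inl | with_reducible apply IntF.inr | with_reducible_and_instances apply IntF.mul | with_reducible_and_instances apply IntF.inv | with_reducible_and_instances apply IntF.add | with_reducible_and_instances apply IntF.sub | with_reducible_and_instances apply IntF.neg | with_reducible_and_instances apply IntF.smul | with_reducible apply Int.fin | with_reducible apply IntF.sep | with_reducible apply IntF.lam | with_reducible apply IntF.insert | with_reducible apply IntF.singleton | with_reducible apply IntF.union | with_reducible apply IntF.iimage | with_reducible apply IntF.ite | with_reducible apply IntF.the | with_reducible apply IntF.irec | with_reducible apply IntF.succ | with_reducible apply IntF.val | with_reducible apply IntF.mk | (with_reducible refine Int.comp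 ?_ ?_; assumption) | (with_reducible refine Int.comp₂ ?_ ?_ ?_; assumption) | (with_reducible refine Int.comp₃ ?_ ?_ ?_ ?_; assumption) | (with_reducible refine Int.comp₄ ?_ ?_ ?_ ?_ ?_; assumption) | (with_reducible refine IntF.comp ?_ ?_; assumption) | (with_reducible refine IntF.comp₂ ?_ ?_ ?_; assumption) | (with_reducible refine IntF.comp₃ ?_ ?_ ?_ ?_; assumption) | with_reducible apply IntF.pair))) ?_ ?_ E hE
  · intro x n
    obtain ⟨⟨y, -, h1⟩, y', -, h2⟩ := h x x n
    exact ⟨⟨y, by simp, h1⟩, y', by simp, h2⟩
  · intro E c hc _ ih x n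
    have step : ∀ y, y ≠ c → (∀ k, k < n → (b (k, y) ↔ b (k, x))) →
        ∃ y', ¬ y' ∈ insert c E ∧ (∀ k, k < n → (b (k, y') ↔ b (k, x))) ∧ (b (n, y') ↔ b (n, y)) := by
      intro y hy h1
      obtain ⟨m, hm⟩ : ∃ m, ¬ (b (m, y) ↔ b (m, c)) := by
        by_contra hc'
        push Not at hc'
        exact hy (ext _ _ hc')
      obtain ⟨⟨y', h2, h3, -⟩, -⟩ := ih y (max m n).succ
      refine ⟨y', fun h4 => ?_, fun k hk => ?_, ?_⟩
      · rcases mem_insert.1 h4 with rfl | h4
        · exact hm (h3 m (INat.lt_succ_iff.2 (le_max_left _ _))).symm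
        · exact h2 h4
      · exact (h3 k (hk.trans (INat.lt_succ_iff.2 (le_max_right _ _)))).trans (h1 k hk)
      · exact h3 n (INat.lt_succ_iff.2 (le_max_right _ _))
    obtain ⟨⟨y, h1, h2, h3⟩, y', h4, h5, h6⟩ := h c x n
    obtain ⟨w, k1, k2, k3⟩ := step y h1 h2
    obtain ⟨w', k4, k5, k6⟩ := step y' h4 h5
    exact ⟨⟨w, k1, k2, k3.2 h3⟩, w', k4, k5, fun h => h6 (k6.1 h)⟩

section

variable {M : Type u} [L.Structure M] [hM : IsModel M] {X : Type u} [ITy M X]
variable {G : Set (Cd M X)} (hG : IsGen M G) (hC : CollL M)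

theorem exists_BB : ∃ z : NN (SC (FT M X)) hG, ∀ w, Mem w z ↔ ∃ x, w = bb (FT M X) hG x := by
  obtain ⟨l⟩ := (SC (FT M X)).nonempty
  obtain ⟨z, hz⟩ := EqFam.set (ef_bb (F := FT M X) hG) (Z := fun _ => True) (Int.const _)
    ⟨l, fun _ _ _ _ => trivial⟩
  exact ⟨z, fun w => (hz w).trans ⟨fun ⟨c, _, h⟩ => ⟨c, h⟩, fun ⟨c, h⟩ => ⟨c, trivial, h⟩⟩⟩

include hC in
theorem exists_cd (hX : ∀ E : IPow M X, IFin E → ∃ x, ¬ x ∈ E) :
    ∃ (z : NN (SC (FT M X)) hG) (b : INat (NN (SC (FT M X)) hG) × El z → Prop), CD _ b := by
  obtain ⟨z, hz⟩ := exists_BB (M := M) (X := X) hG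
  have hA : ∀ x, Mem (bb (FT M X) hG x) z := fun x => (hz _).2 ⟨x, rfl⟩
  obtain ⟨eB, heB⟩ : ∃ eB : X → El z, ∀ x, (eB x).1 = bb (FT M X) hG x :=
    ⟨fun x => ⟨_, hA x⟩, fun _ => rfl⟩
  have hsurj : ∀ a : El z, ∃ x, eB x = a := fun a => by
    obtain ⟨x, hx⟩ := (hz _).1 a.2
    exact ⟨x, Subtype.ext ((heB x).trans hx.symm)⟩
  have hI : Int (NN (SC (FT M X)) hG) (fun q : INat (NN (SC (FT M X)) hG) × El z =>
      Mem q.1.val q.2.1) :=
    Int.of_D₂ (S := fun v => Mem (v 0) (v 1)) (D.memf (DF.var _) (DF.var _)) fun _ _ => Iff.rfl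
  have hb : ∀ k x, (fun q : INat (NN (SC (FT M X)) hG) × El z => Mem q.1.val q.2.1)
      (nnN _ hG hC k, eB x) ↔ Mem (nn (SC (FT M X)) hG k) (bb (FT M X) hG x) := by
    intro k x
    change Mem _ (eB x).1 ↔ _
    rw [heB]
    exact Iff.rfl
  have hext : ∀ x y : El z, (∀ k : INat (NN (SC (FT M X)) hG), Mem k.val x.1 ↔ Mem k.val y.1) →
      x = y := by
    intro x y h
    obtain ⟨x, rfl⟩ := hsurj x
    obtain ⟨y, rfl⟩ := hsurj y
    refine Subtype.ext (ext' hG fun w => ?_)
    rw [heB, heB]
    constructor
    · intro hw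
      obtain ⟨k, rfl⟩ := mem_bb' hG hw
      exact (hb k y).1 ((h (nnN _ hG hC k)).1 ((hb k x).2 hw))
    · intro hw
      obtain ⟨k, rfl⟩ := mem_bb' hG hw
      exact (hb k x).1 ((h (nnN _ hG hC k)).2 ((hb k y).2 hw))
  have hlt : ∀ (n : INat M) (Q : INat (NN (SC (FT M X)) hG) → Prop),
      (∀ k, k < nnN _ hG hC n → Q k) ↔ ∀ k, k < n → Q (nnN _ hG hC k) := by
    intro n Q
    refine ⟨fun h k hk => h _ ((nnN_lt hG hC).2 hk), fun h k hk => ?_⟩
    obtain ⟨k, rfl⟩ := nnN_surj hG hC k
    exact h k ((nnN_lt hG hC).1 hk)
  have hcp := exists_cp hI hext (fun c x n => by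
    obtain ⟨c, rfl⟩ := hsurj c
    obtain ⟨x, rfl⟩ := hsurj x
    obtain ⟨n, rfl⟩ := nnN_surj hG hC n
    obtain ⟨⟨y, h1, h2, h3⟩, y', h4, h5, h6⟩ := bb_copy (F := FT M X) hG hX x n {c}
      (IFin.singleton c)
    constructor
    · refine ⟨eB y, fun h => h1 (mem_singleton.2 ?_), (hlt _ _).2 fun k hk => ?_, (hb n y).2 h3⟩
      · have := congrArg Subtype.val h
        rw [heB, heB] at this
        exact (bb_inj hG).1 this
      · exact (hb k y).trans ((h2 k hk).trans (hb k x).symm)
    · refine ⟨eB y', fun h => h4 (mem_singleton.2 ?_), (hlt _ _).2 fun k hk => ?_,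
        fun h => h6 ((hb n y').1 h)⟩
      · have := congrArg Subtype.val h
        rw [heB, heB] at this
        exact (bb_inj hG).1 this
      · exact (hb k y').trans ((h5 k hk).trans (hb k x).symm))
  have hfin : ∀ E : IPow M X, IFin E → ∃ s : IPow (NN (SC (FT M X)) hG) (El z), IFin s ∧
      ∀ x, eB x ∈ s ↔ x ∈ E := by
    intro E hE
    obtain ⟨s, h1, h2, -⟩ := exists_fin (S := SC (FT M X)) hG hC (ef_bb hG) (fun π b => rai_ra π b)
      (fun a b h => (bb_inj hG).1 h) hA hE ⟨⟨E, hE⟩, fun π hπ c hc => hπ c hc⟩
    refine ⟨s, h1, fun x => ?_⟩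
    rw [← h2 x]
    have : eB x = ⟨bb (FT M X) hG x, hA x⟩ := Subtype.ext (heB x)
    rw [this]
    exact Iff.rfl
  refine ⟨z, fun q => Mem q.1.val q.2.1, hI, hext, ?_, ?_, ?_, ?_, ?_, ?_⟩
  · obtain ⟨x, -⟩ := hX ∅ IFin.empty
    exact ⟨eB x⟩
  · intro x n
    obtain ⟨x, rfl⟩ := hsurj x
    obtain ⟨n, rfl⟩ := nnN_surj hG hC n
    obtain ⟨k, h1, h2⟩ := bb_inf1 (F := FT M X) hG x n
    refine ⟨nnN _ hG hC k, not_lt.1 fun h => ?_, (hb k x).2 h2⟩
    exact absurd ((nnN_lt hG hC).1 h) (not_lt.2 h1)
  · intro x n
    obtain ⟨x, rfl⟩ := hsurj x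
    obtain ⟨n, rfl⟩ := nnN_surj hG hC n
    obtain ⟨k, h1, h2⟩ := bb_inf0 (F := FT M X) hG x n
    refine ⟨nnN _ hG hC k, not_lt.1 fun h => ?_, fun h => h2 ((hb k x).1 h)⟩
    exact absurd ((nnN_lt hG hC).1 h) (not_lt.2 h1)
  · intro E hE x n
    exact (hcp E hE x n).1
  · intro E hE x n
    exact (hcp E hE x n).2
  · intro J hJ
    obtain ⟨w, hw⟩ := hJ
    have hf : EqFam hG (fun (π : Gz (ZT M X)) (q : X × (INat M × INat M)) => (ra π q.1, q.2))
        (fun q => op (bb (FT M X) hG q.1) (op (nn _ hG q.2.1) (nn _ hG q.2.2))) := by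
      refine EqFam.op (fun π b => Prod.ext (rai_ra π _) rfl) ?_
        (EqFam.op (fun π b => Prod.ext (rai_ra π _) rfl) ?_ ?_)
      · exact EqFam.comp (ef_bb hG) (φ := fun q : X × (INat M × INat M) => q.1) (by (repeat' (first | with_reducible exact IntF.id | with_reducible exact IntF.fst' | with_reducible exact IntF.snd' | with_reducible exact IntF.const _ | with_reducible exact Int.const _ | assumption | with_reducible apply Int.and | with_reducible apply Int.or | with_reducible apply Int.not | with_reducible apply Int.imp | with_reducible apply Int.iff | with_reducible apply Int.ne | with_reducible apply Int.eq | with_reducible apply Int.mem | with_reducible apply Int.subset | with_reducible apply Int.ltN | with_reducible apply Int.leN | with_reducible_and_instances apply Int.le | with_reducible_and_instances apply Int.lt | with_reducible apply Int.all | with_reducible apply Int.ex | with_reducible apply IntF.fst | with_reducible apply IntF.snd | with_reducible apply IntF.app | with_reducible apply IntF.inl | with_reducible apply IntF.inr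 | with_reducible_and_instances apply IntF.mul | with_reducible_and_instances apply IntF.inv | with_reducible_and_instances apply IntF.add | with_reducible_and_instances apply IntF.sub | with_reducible_and_instances apply IntF.neg | with_reducible_and_instances apply IntF.smul | with_reducible apply Int.fin | with_reducible apply IntF.sep | with_reducible apply IntF.lam | with_reducible apply IntF.insert | with_reducible apply IntF.singleton | with_reducible apply IntF.union | with_reducible apply IntF.iimage | with_reducible apply IntF.ite | with_reducible apply IntF.the | with_reducible apply IntF.irec | with_reducible apply IntF.succ | with_reducible apply IntF.val | with_reducible apply IntF.mk | (with_reducible refine Int.comp ?_ ?_; assumption) | (with_reducible refine Int.comp₂ ?_ ?_ ?_; assumption) | (with_reducible refine Int.comp₃ ?_ ?_ ?_ ?_; assumption) | (with_reducible refine Int.comp₄ ?_ ?_ ?_ ?_ ?_; assumption) | (with_reducible refine IntF.comp ?_ ?_; assumption) | (with_reducible refine IntF.comp₂ ?_ ?_ ?_; assumption) | (with_reducible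 refine IntF.comp₃ ?_ ?_ ?_ ?_; assumption) | with_reducible apply IntF.pair)))
          fun _ _ => rfl
      · exact EqFam.comp (ef_nn hG) (φ := fun q : X × (INat M × INat M) => q.2.1) (by (repeat' (first | with_reducible exact IntF.id | with_reducible exact IntF.fst' | with_reducible exact IntF.snd' | with_reducible exact IntF.const _ | with_reducible exact Int.const _ | assumption | with_reducible apply Int.and | with_reducible apply Int.or | with_reducible apply Int.not | with_reducible apply Int.imp | with_reducible apply Int.iff | with_reducible apply Int.ne | with_reducible apply Int.eq | with_reducible apply Int.mem | with_reducible apply Int.subset | with_reducible apply Int.ltN | with_reducible apply Int.leN | with_reducible_and_instances apply Int.le | with_reducible_and_instances apply Int.lt | with_reducible apply Int.all | with_reducible apply Int.ex | with_reducible apply IntF.fst | with_reducible apply IntF.snd | with_reducible apply IntF.app | with_reducible apply IntF.inl | with_reducible apply IntF.inr | with_reducible_and_instances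 apply IntF.mul | with_reducible_and_instances apply IntF.inv | with_reducible_and_instances apply IntF.add | with_reducible_and_instances apply IntF.sub | with_reducible_and_instances apply IntF.neg | with_reducible_and_instances apply IntF.smul | with_reducible apply Int.fin | with_reducible apply IntF.sep | with_reducible apply IntF.lam | with_reducible apply IntF.insert | with_reducible apply IntF.singleton | with_reducible apply IntF.union | with_reducible apply IntF.iimage | with_reducible apply IntF.ite | with_reducible apply IntF.the | with_reducible apply IntF.irec | with_reducible apply IntF.succ | with_reducible apply IntF.val | with_reducible apply IntF.mk | (with_reducible refine Int.comp ?_ ?_; assumption) | (with_reducible refine Int.comp₂ ?_ ?_ ?_; assumption) | (with_reducible refine Int.comp₃ ?_ ?_ ?_ ?_; assumption) | (with_reducible refine Int.comp₄ ?_ ?_ ?_ ?_ ?_; assumption) | (with_reducible refine IntF.comp ?_ ?_; assumption) | (with_reducible refine IntF.comp₂ ?_ ?_ ?_; assumption) | (with_reducible refine IntF.comp₃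 ?_ ?_ ?_ ?_; assumption) | with_reducible apply IntF.pair)))
          fun _ _ => rfl
      · exact EqFam.comp (ef_nn hG) (φ := fun q : X × (INat M × INat M) => q.2.2) (by (repeat' (first | with_reducible exact IntF.id | with_reducible exact IntF.fst' | with_reducible exact IntF.snd' | with_reducible exact IntF.const _ | with_reducible exact Int.const _ | assumption | with_reducible apply Int.and | with_reducible apply Int.or | with_reducible apply Int.not | with_reducible apply Int.imp | with_reducible apply Int.iff | with_reducible apply Int.ne | with_reducible apply Int.eq | with_reducible apply Int.mem | with_reducible apply Int.subset | with_reducible apply Int.ltN | with_reducible apply Int.leN | with_reducible_and_instances apply Int.le | with_reducible_and_instances apply Int.lt | with_reducible apply Int.all | with_reducible apply Int.ex | with_reducible apply IntF.fst | with_reducible apply IntF.snd | with_reducible apply IntF.app | with_reducible apply IntF.inl | with_reducible apply IntF.inr | with_reducible_and_instances apply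 IntF.mul | with_reducible_and_instances apply IntF.inv | with_reducible_and_instances apply IntF.add | with_reducible_and_instances apply IntF.sub | with_reducible_and_instances apply IntF.neg | with_reducible_and_instances apply IntF.smul | with_reducible apply Int.fin | with_reducible apply IntF.sep | with_reducible apply IntF.lam | with_reducible apply IntF.insert | with_reducible apply IntF.singleton | with_reducible apply IntF.union | with_reducible apply IntF.iimage | with_reducible apply IntF.ite | with_reducible apply IntF.the | with_reducible apply IntF.irec | with_reducible apply IntF.succ | with_reducible apply IntF.val | with_reducible apply IntF.mk | (with_reducible refine Int.comp ?_ ?_; assumption) | (with_reducible refine Int.comp₂ ?_ ?_ ?_; assumption) | (with_reducible refine Int.comp₃ ?_ ?_ ?_ ?_; assumption) | (with_reducible refine Int.comp₄ ?_ ?_ ?_ ?_ ?_; assumption) | (with_reducible refine IntF.comp ?_ ?_; assumption) | (with_reducible refine IntF.comp₂ ?_ ?_ ?_; assumption) | (with_reducible refine IntF.comp₃ ?_ ?_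 ?_ ?_; assumption) | with_reducible apply IntF.pair)))
          fun _ _ => rfl
    obtain ⟨E, hE, h1⟩ := bb_hom hG hf w
    obtain ⟨s, h2, h3⟩ := hfin E hE
    have hJ' : ∀ x (m m' : INat M), J (eB x, (nnN _ hG hC m, nnN _ hG hC m')) ↔
        Mem (op (bb (FT M X) hG x) (op (nn _ hG m) (nn _ hG m'))) w := by
      intro x m m'
      rw [← heB]
      exact (hw (eB x, (nnN _ hG hC m, nnN _ hG hC m'))).symm
    refine ⟨s, h2, fun x hx m hJx => ?_⟩
    obtain ⟨x, rfl⟩ := hsurj x
    obtain ⟨m, m'⟩ := m
    obtain ⟨m, rfl⟩ := nnN_surj hG hC m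
    obtain ⟨m', rfl⟩ := nnN_surj hG hC m'
    obtain ⟨n, E', hE', h4⟩ := h1 x (fun h => hx ((h3 x).2 h)) (m, m') ((hJ' x m m').1 hJx)
    obtain ⟨s', h5, h6⟩ := hfin E' hE'
    refine ⟨nnN _ hG hC n, s', h5, fun y hy hk => ?_⟩
    obtain ⟨y, rfl⟩ := hsurj y
    refine (hJ' y m m').2 (h4 y (fun h => hy ((h6 y).2 h)) fun k hk' => ?_)
    exact (hb k y).symm.trans (((hlt _ _).1 hk k hk').trans (hb k x))

end

end Pool.Agent.Helper672.ZFA.Q301SF
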