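import Pool.Agent.Q301.BM.HDefs

/-!
# The irrational numbers and `k`-spaces in a model of set theory: definitions

In a structure `M` for the language of set theory, `Mem z a` says that `z` is an element of `a` in
the sense of `M`, and `El a` is the type of the elements of `a`. The field of the real numbers of
`M` is given by an element `r` of `M` with `IsReals r`. `IsUsualTop` is from
`Pool.Agent.Q301.BM.HDefs`, `IsSubspace` from `Pool.Agent.Q301.TM.Defs`, `IsCompact` and
`IsClosed` from `Pool.Agent.H310R3.TopDefs`.
-/

namespace Pool.Agent.Q301.SF

open FirstOrder FirstOrder.Language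
open Pool.Agent.Helper672.Plain (LSet Mem El)
open Pool.Agent.H310Top (IsClosed IsCompact)
open Pool.Agent.Q301.TM (IsSubspace)

universe u

variable {M : Type u} [LSet.Structure M]

/-- The real number `x` is a natural number (of the model): it is in every set of the model that
contains `0` and is closed under `y ↦ y + 1`. -/
def IsNatural {r : M} [Field (El r)] (x : El r) : Prop :=
  ∀ s : M, Mem (0 : El r).1 s → (∀ y : El r, Mem y.1 s → Mem (y + 1).1 s) → Mem x.1 s

/-- The real number `x` is rational (in the model): `x * c = a - b` for natural numbers `a`, `b`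
and `c` with `c ≠ 0`. -/
def IsRational {r : M} [Field (El r)] (x : El r) : Prop :=
  ∃ a b c : El r, IsNatural a ∧ IsNatural b ∧ IsNatural c ∧ c ≠ 0 ∧ x * c = a - b

/-- `p` is the set of the irrational numbers. -/
def IsIrrationals (p r : M) [Field (El r)] : Prop :=
  ∀ z, Mem z p ↔ ∃ x : El r, x.1 = z ∧ ¬ IsRational x

/-- The space `x` with the topology `t` is a `k`-space: a subset `a` of `x` is closed if
`a ∩ k` is closed in `k` for every compact subspace `k` of `x` (with the subspace
topology `s`). -/
def IsKSpace (t x : M) : Prop :=
  ∀ a, (∀ z, Mem z a → Mem z x) →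
    (∀ k s, (∀ z, Mem z k → Mem z x) → IsSubspace s k t → IsCompact s k →
      ∀ c, (∀ z, Mem z c ↔ Mem z a ∧ Mem z k) → IsClosed s k c) →
    IsClosed t x a

end Pool.Agent.Q301.SF
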