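import Pool.Agent.Q301.SF.Base
import Pool.Agent.H310R3.PM5

/-!
# Symmetric extensions: finite sets
-/

set_option maxHeartbeats 1000000
set_option linter.all false
set_option synthInstance.maxSize 2000

namespace Pool.Agent.Helper672.ZFA.Q301SF

open FirstOrder FirstOrder.Language
open Pool.Agent.Helper672.ZFA.H635 (IPerm SymSys IG WFI FEq FMem tw Good feq_of_map feq_iff IsGen
  nd nd_eq mem_nd mem_nd_nd exists_mk mk_eq_nd EqFam NN nn_ext CollL nn_zf mem_NN extG SymQ
  good_extG mem_nd_inr feq_equivQ fmem_tw toL)
open Pool.Agent.Helper672.Plain (LSet)
open Pool.Agent.H310 (FinP finP_iff finP_le finP_lt exists_BN)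

universe u

section

variable {M : Type u} [L.Structure M] [hM : IsModel M]
variable {P Γ : Type u} [ITy M P] [Preorder P] [ILE M P] [ITy M Γ] [Group Γ] [IMul M Γ]
  [IInv M Γ] [MulAction Γ P] [ISMul M Γ P]
variable {Λ : Type u} [ITy M Λ] {S : SymSys M P Γ Λ}
variable {α β ε δ : Type u} [ITy M α] [ITy M β] [ITy M ε] [ITy M δ]
variable {G : Set P} (hG : IsGen M G) (hC : CollL M)

include hC in
/-- The finite sets in the extension. -/
theorem exists_fin {act : Γ → ε → ε} {f : ε → NN S hG} (hf : EqFam hG act f)
    (ha : ∀ π b, act π⁻¹ (act π b) = b) (hi : ∀ a b, f a = f b → a = b) {A : NN S hG}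
    (hA : ∀ c, Mem (f c) A) {E : IPow M ε} (hE : IFin E)
    (hs : ∃ l, ∀ π, S.U l π → ∀ c, c ∈ E → act π c = c) :
    ∃ s : IPow (NN S hG) (El A), IFin s ∧ (∀ c, (⟨f c, hA c⟩ : El A) ∈ s ↔ c ∈ E) ∧
      ∀ a : El A, a ∈ s → ∃ c, c ∈ E ∧ a.1 = f c := by
  obtain ⟨l, hl⟩ := hs
  obtain ⟨e, n, h1, h2, h3⟩ := exists_BN hE
  have hg : EqFam hG (fun (π : Γ) (q : INat M × ε) => (q.1, act π q.2))
      (fun q => op (nn S hG q.1) (f q.2)) := by
    refine EqFam.op (fun π b => ?_) ?_ ?_
    · exact Prod.ext rfl (ha _ _)
    · exact EqFam.comp (ef_nn hG) (φ := fun q : INat M × ε => q.1) (by (repeat' (first | with_reducible exact IntF.id | with_reducible exact IntF.fst' | with_reducible exact IntF.snd' | with_reducible exact IntF.const _ | with_reducible exact Int.const _ | assumption | with_reducible apply Int.and | with_reducible apply Int.or | with_reducible apply Int.not | with_reducible apply Int.imp | with_reducible apply Int.iff | with_reducible apply Int.ne | with_reducible apply Int.eq | with_reducible apply Int.mem | with_reducible apply Int.subset | with_reducible apply Int.ltN | with_reducible apply Int.leN | with_reducible_and_instances apply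 Int.le | with_reducible_and_instances apply Int.lt | with_reducible apply Int.all | with_reducible apply Int.ex | with_reducible apply IntF.fst | with_reducible apply IntF.snd | with_reducible apply IntF.app | with_reducible apply IntF.inl | with_reducible apply IntF.inr | with_reducible_and_instances apply IntF.mul | with_reducible_and_instances apply IntF.inv | with_reducible_and_instances apply IntF.add | with_reducible_and_instances apply IntF.sub | with_reducible_and_instances apply IntF.neg | with_reducible_and_instances apply IntF.smul | with_reducible apply Int.fin | with_reducible apply IntF.sep | with_reducible apply IntF.lam | with_reducible apply IntF.insert | with_reducible apply IntF.singleton | with_reducible apply IntF.union | with_reducible apply IntF.iimage | with_reducible apply IntF.ite | with_reducible apply IntF.the | with_reducible apply IntF.irec | with_reducible apply IntF.succ | with_reducible apply IntF.val | with_reducible apply IntF.mk | (with_reducible refine Int.comp ?_ ?_; assumption) | (with_reducible refine Int.comp₂ ?_ ?_ ?_; assumption) | (with_reducible refine Int.comp₃ ?_ ?_ ?_ ?_; assumption) | (with_reducible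 refine Int.comp₄ ?_ ?_ ?_ ?_ ?_; assumption) | (with_reducible refine IntF.comp ?_ ?_; assumption) | (with_reducible refine IntF.comp₂ ?_ ?_ ?_; assumption) | (with_reducible refine IntF.comp₃ ?_ ?_ ?_ ?_; assumption) | with_reducible apply IntF.pair))) fun _ _ => rfl
    · exact EqFam.comp hf (φ := fun q : INat M × ε => q.2) (by (repeat' (first | with_reducible exact IntF.id | with_reducible exact IntF.fst' | with_reducible exact IntF.snd' | with_reducible exact IntF.const _ | with_reducible exact Int.const _ | assumption | with_reducible apply Int.and | with_reducible apply Int.or | with_reducible apply Int.not | with_reducible apply Int.imp | with_reducible apply Int.iff | with_reducible apply Int.ne | with_reducible apply Int.eq | with_reducible apply Int.mem | with_reducible apply Int.subset | with_reducible apply Int.ltN | with_reducible apply Int.leN | with_reducible_and_instances apply Int.le | with_reducible_and_instances apply Int.lt | with_reducible apply Int.all | with_reducible apply Int.ex | with_reducible apply IntF.fst | with_reducible apply IntF.snd | with_reducible apply IntF.app | with_reducible apply IntF.inl | with_reducible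 apply IntF.inr | with_reducible_and_instances apply IntF.mul | with_reducible_and_instances apply IntF.inv | with_reducible_and_instances apply IntF.add | with_reducible_and_instances apply IntF.sub | with_reducible_and_instances apply IntF.neg | with_reducible_and_instances apply IntF.smul | with_reducible apply Int.fin | with_reducible apply IntF.sep | with_reducible apply IntF.lam | with_reducible apply IntF.insert | with_reducible apply IntF.singleton | with_reducible apply IntF.union | with_reducible apply IntF.iimage | with_reducible apply IntF.ite | with_reducible apply IntF.the | with_reducible apply IntF.irec | with_reducible apply IntF.succ | with_reducible apply IntF.val | with_reducible apply IntF.mk | (with_reducible refine Int.comp ?_ ?_; assumption) | (with_reducible refine Int.comp₂ ?_ ?_ ?_; assumption) | (with_reducible refine Int.comp₃ ?_ ?_ ?_ ?_; assumption) | (with_reducible refine Int.comp₄ ?_ ?_ ?_ ?_ ?_; assumption) | (with_reducible refine IntF.comp ?_ ?_; assumption) | (with_reducible refine IntF.comp₂ ?_ ?_ ?_; assumption) | (with_reducible refine IntF.comp₃ ?_ ?_ ?_ ?_; assumption) | with_reducible apply IntF.pair)))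 fun _ _ => rfl
  obtain ⟨z, hz⟩ := EqFam.set hg (Z := fun q => q.2 ∈ E ∧ e q.2 = q.1) (by (repeat' (first | with_reducible exact IntF.id | with_reducible exact IntF.fst' | with_reducible exact IntF.snd' | with_reducible exact IntF.const _ | with_reducible exact Int.const _ | assumption | with_reducible apply Int.and | with_reducible apply Int.or | with_reducible apply Int.not | with_reducible apply Int.imp | with_reducible apply Int.iff | with_reducible apply Int.ne | with_reducible apply Int.eq | with_reducible apply Int.mem | with_reducible apply Int.subset | with_reducible apply Int.ltN | with_reducible apply Int.leN | with_reducible_and_instances apply Int.le | with_reducible_and_instances apply Int.lt | with_reducible apply Int.all | with_reducible apply Int.ex | with_reducible apply IntF.fst | with_reducible apply IntF.snd | with_reducible apply IntF.app | with_reducible apply IntF.inl | with_reducible apply IntF.inr | with_reducible_and_instances apply IntF.mul | with_reducible_and_instances apply IntF.inv | with_reducible_and_instances apply IntF.add | with_reducible_and_instances apply IntF.sub | with_reducible_and_instances apply IntF.neg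 | with_reducible_and_instances apply IntF.smul | with_reducible apply Int.fin | with_reducible apply IntF.sep | with_reducible apply IntF.lam | with_reducible apply IntF.insert | with_reducible apply IntF.singleton | with_reducible apply IntF.union | with_reducible apply IntF.iimage | with_reducible apply IntF.ite | with_reducible apply IntF.the | with_reducible apply IntF.irec | with_reducible apply IntF.succ | with_reducible apply IntF.val | with_reducible apply IntF.mk | (with_reducible refine Int.comp ?_ ?_; assumption) | (with_reducible refine Int.comp₂ ?_ ?_ ?_; assumption) | (with_reducible refine Int.comp₃ ?_ ?_ ?_ ?_; assumption) | (with_reducible refine Int.comp₄ ?_ ?_ ?_ ?_ ?_; assumption) | (with_reducible refine IntF.comp ?_ ?_; assumption) | (with_reducible refine IntF.comp₂ ?_ ?_ ?_; assumption) | (with_reducible refine IntF.comp₃ ?_ ?_ ?_ ?_; assumption) | with_reducible apply IntF.pair)))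
    ⟨l, fun π hπ c hc => by
      change act π c.2 ∈ E ∧ e (act π c.2) = c.1
      rw [hl π hπ _ hc.1]
      exact hc⟩
  obtain ⟨w, hw⟩ := EqFam.set hf (Z := fun x => x ∈ E) (by (repeat' (first | with_reducible exact IntF.id | with_reducible exact IntF.fst' | with_reducible exact IntF.snd' | with_reducible exact IntF.const _ | with_reducible exact Int.const _ | assumption | with_reducible apply Int.and | with_reducible apply Int.or | with_reducible apply Int.not | with_reducible apply Int.imp | with_reducible apply Int.iff | with_reducible apply Int.ne | with_reducible apply Int.eq | with_reducible apply Int.mem | with_reducible apply Int.subset | with_reducible apply Int.ltN | with_reducible apply Int.leN | with_reducible_and_instances apply Int.le | with_reducible_and_instances apply Int.lt | with_reducible apply Int.all | with_reducible apply Int.ex | with_reducible apply IntF.fst | with_reducible apply IntF.snd | with_reducible apply IntF.app | with_reducible apply IntF.inl | with_reducible apply IntF.inr | with_reducible_and_instances apply IntF.mul | with_reducible_and_instances apply IntF.inv | with_reducible_and_instances apply IntF.add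 | with_reducible_and_instances apply IntF.sub | with_reducible_and_instances apply IntF.neg | with_reducible_and_instances apply IntF.smul | with_reducible apply Int.fin | with_reducible apply IntF.sep | with_reducible apply IntF.lam | with_reducible apply IntF.insert | with_reducible apply IntF.singleton | with_reducible apply IntF.union | with_reducible apply IntF.iimage | with_reducible apply IntF.ite | with_reducible apply IntF.the | with_reducible apply IntF.irec | with_reducible apply IntF.succ | with_reducible apply IntF.val | with_reducible apply IntF.mk | (with_reducible refine Int.comp ?_ ?_; assumption) | (with_reducible refine Int.comp₂ ?_ ?_ ?_; assumption) | (with_reducible refine Int.comp₃ ?_ ?_ ?_ ?_; assumption) | (with_reducible refine Int.comp₄ ?_ ?_ ?_ ?_ ?_; assumption) | (with_reducible refine IntF.comp ?_ ?_; assumption) | (with_reducible refine IntF.comp₂ ?_ ?_ ?_; assumption) | (with_reducible refine IntF.comp₃ ?_ ?_ ?_ ?_; assumption) | with_reducible apply IntF.pair)))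
    ⟨l, fun π hπ c hc => by
      rw [hl π hπ _ hc]
      exact hc⟩
  have hz' : ∀ m x, Mem (op (nn S hG m) (f x)) z ↔ x ∈ E ∧ e x = m := by
    intro m x
    refine (hz _).trans ⟨?_, fun h => ⟨(m, x), h, rfl⟩⟩
    rintro ⟨⟨m', x'⟩, h, h2⟩
    obtain ⟨h3, h4⟩ := op_inj h2
    obtain rfl := (nn_inj hG).1 h3
    obtain rfl := hi _ _ h4
    exact h
  have hw' : ∀ x, Mem (f x) w ↔ x ∈ E := by
    intro x
    refine (hw _).trans ⟨?_, fun h => ⟨x, h, rfl⟩⟩
    rintro ⟨x', h, h2⟩
    obtain rfl := hi _ _ h2
    exact h
  have hI : Int (NN S hG) (fun q : El A × INat (NN S hG) =>
      Mem (op q.2.val q.1.1) z) :=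
    Int.of_D₂ (S := fun v => Mem (op (v 1) (v 0)) z)
      (D.memf (DF.op (DF.var _) (DF.var _)) (DF.const _)) fun _ _ => Iff.rfl
  have hp : Int (NN S hG) (fun a : El A => Mem a.1 w) :=
    Int.of_D (S := fun v => Mem (v 0) w) (D.memf (DF.var _) (DF.const _)) fun _ => Iff.rfl
  have hF : IntF (NN S hG) (fun a : El A =>
      the (fun k : INat (NN S hG) => Mem (op k.val a.1) z) 0) := by
    refine IntF.the hI (IntF.const _)
  have key : ∀ x, x ∈ E → the (fun k : INat (NN S hG) =>
      Mem (op k.val (f x)) z) 0 = nnN S hG hC (e x) := by
    intro x hx
    refine the_eq ⟨nnN S hG hC (e x), (hz' _ _).2 ⟨hx, rfl⟩, fun k hk => ?_⟩ ((hz' _ _).2 ⟨hx, rfl⟩)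
    obtain ⟨k, rfl⟩ := nnN_surj hG hC k
    rw [((hz' _ _).1 hk).2]
  have h5 : FinP (NN S hG) (fun a : El A => Mem a.1 w) := by
    refine FinP.of_inj hp hF ?_ (finP_lt (nnN S hG hC n)) ?_
    · intro a a' ha ha' h
      obtain ⟨x, hx, hax⟩ := (hw _).1 ha
      obtain ⟨x', hx', hax'⟩ := (hw _).1 ha'
      rw [hax, hax', key x hx, key x' hx'] at h
      have h6 := h2 _ _ hx hx' ((nnN_inj hG hC).1 h)
      subst h6
      exact Subtype.ext (hax.trans hax'.symm)
    · intro a ha
      obtain ⟨x, hx, hax⟩ := (hw _).1 ha
      rw [hax, key x hx]
      exact (nnN_lt hG hC).2 (h1 x hx)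
  refine ⟨sep _ (fun a : El A => Mem a.1 w), (finP_iff hp).1 h5, fun x => ?_, fun a ha => ?_⟩
  · exact (mem_sep hp).trans (hw' x)
  · exact (hw _).1 ((mem_sep hp).1 ha)

end

end Pool.Agent.Helper672.ZFA.Q301SF
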