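import Pool.Agent.Q301.SF.Irr
import Pool.Agent.H635R2.Ext

/-!
# The basic Cohen model exists
-/

set_option maxHeartbeats 1000000
set_option linter.all false
set_option synthInstance.maxSize 2000

namespace Pool.Agent.Q301.SF

open FirstOrder FirstOrder.Language
open Pool.Agent.Helper672.ZFA
open Pool.Agent.Helper672.Plain (LSet)
open Pool.Agent.Helper672.ZFA.H635 (toL plainN_ordPair plainN_graph plainN_opGraph IsGen NN nn_zf
  CollL coll_of_zf exists_countable_sub exists_reals isModel_of_zermelo nn_zermelo IPerm)
open Pool.Agent.H635Amen (IsReals ZF)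
open Pool.Agent.Q301.BM (IsUsualTop exists_usual)
open Pool.Agent.Q301.TM (IsSubspace)
open Pool.Agent.H310 (instPEl)
open Pool.Agent.Helper672.ZFA.Q301SF (CD exists_cd Cd SC FT)

universe u

/-- The model has a set of Cohen reals. -/
def HasCD (N : Type u) [LSet.Structure N] : Prop :=
  ∃ hN : Helper672.Plain.Zermelo N, letI := toL N; letI : IsModel N := isModel_of_zermelo hN
    ∃ (z : N) (b : INat N × El z → Prop), CD N b

theorem exists_out {M : Type u} [L.Structure M] [IsModel M] (E : IPow M (INat M)) (hE : IFin E) :
    ∃ x, ¬ x ∈ E := by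
  obtain ⟨n, hn⟩ := IFin.exists_bound (r := fun m n : INat M => m ≤ n) (by (repeat' (first | with_reducible exact IntF.id | with_reducible exact IntF.fst' | with_reducible exact IntF.snd' | with_reducible exact IntF.const _ | with_reducible exact Int.const _ | assumption | with_reducible apply Int.and | with_reducible apply Int.or | with_reducible apply Int.not | with_reducible apply Int.imp | with_reducible apply Int.iff | with_reducible apply Int.ne | with_reducible apply Int.eq | with_reducible apply Int.mem | with_reducible apply Int.subset | with_reducible apply Int.ltN | with_reducible apply Int.leN | with_reducible_and_instances apply Int.le | with_reducible_and_instances apply Int.lt | with_reducible apply Int.all | with_reducible apply Int.ex | with_reducible apply IntF.fst | with_reducible apply IntF.snd | with_reducible apply IntF.app | with_reducible apply IntF.inl | with_reducible apply IntF.inr | with_reducible_and_instances apply IntF.mul | with_reducible_and_instances apply IntF.inv | with_reducible_and_instances apply IntF.add | with_reducible_and_instances apply IntF.sub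 | with_reducible_and_instances apply IntF.neg | with_reducible_and_instances apply IntF.smul | with_reducible apply Int.fin | with_reducible apply IntF.sep | with_reducible apply IntF.lam | with_reducible apply IntF.insert | with_reducible apply IntF.singleton | with_reducible apply IntF.union | with_reducible apply IntF.iimage | with_reducible apply IntF.ite | with_reducible apply IntF.the | with_reducible apply IntF.irec | with_reducible apply IntF.succ | with_reducible apply IntF.val | with_reducible apply IntF.mk | (with_reducible refine Int.comp ?_ ?_; assumption) | (with_reducible refine Int.comp₂ ?_ ?_ ?_; assumption) | (with_reducible refine Int.comp₃ ?_ ?_ ?_ ?_; assumption) | (with_reducible refine Int.comp₄ ?_ ?_ ?_ ?_ ?_; assumption) | (with_reducible refine IntF.comp ?_ ?_; assumption) | (with_reducible refine IntF.comp₂ ?_ ?_ ?_; assumption) | (with_reducible refine IntF.comp₃ ?_ ?_ ?_ ?_; assumption) | with_reducible apply IntF.pair)))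
    (fun b c => ⟨max b c, fun a ha => ha.elim (fun h => h.trans (le_max_left _ _))
      fun h => h.trans (le_max_right _ _)⟩) ⟨0⟩ hE fun a _ => ⟨a, le_rfl⟩
  exact ⟨n.succ, fun h => absurd (INat.lt_succ_self n) (not_lt.2 (hn _ h))⟩

theorem exists_c1' {M : Type u} [L.Structure M] [IsModel M] [Countable M] (hC : CollL M) :
    ∃ (N : Type u) (_ : LSet.Structure N), ZF N ∧ HasCD N := by
  have p₀ : Cd M (INat M) := ⟨(∅, ∅), fun c h => absurd h (by simp), IFin.empty, IFin.empty⟩
  obtain ⟨G, hG⟩ := H635.exists_gen (M := M) p₀
  refine ⟨NN (SC (FT M (INat M))) hG, inferInstance, nn_zf hG hC, nn_zermelo hG, ?_⟩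
  letI := toL (NN (SC (FT M (INat M))) hG)
  letI : IsModel (NN (SC (FT M (INat M))) hG) := isModel_of_zermelo (nn_zermelo hG)
  obtain ⟨z, b, hb⟩ := exists_cd hG hC exists_out
  exact ⟨z, b, hb⟩

section

attribute [local instance] toL instPEl

theorem exists_c1_c (M : Type u) [LSet.Structure M] [Countable M] (h : ZF M) :
    ∃ (N : Type u) (_ : LSet.Structure N), ZF N ∧ HasCD N := by
  have hM : IsModel M := isModel_of_zermelo h.toZermelo
  exact exists_c1' (coll_of_zf h)

end

theorem exists_c1 (h : ∃ (M : Type u) (_ : LSet.Structure M), ZF M) :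
    ∃ (N : Type u) (_ : LSet.Structure N), ZF N ∧ HasCD N := by
  obtain ⟨M, i, hM⟩ := h
  obtain ⟨M₀, h1, h2⟩ := exists_countable_sub M hM
  exact exists_c1_c M₀ h2

/-- The irrational numbers need not be a `k`-space. -/
theorem p478558 (h : ∃ (M : Type u) (_ : LSet.Structure M), ZF M) :
    ∃ (N : Type u) (_ : LSet.Structure N), ZF N ∧
      ∃ (r : N) (_ : Field (Helper672.Plain.El r)) (_ : LinearOrder (Helper672.Plain.El r)) (_ : IsStrictOrderedRing (Helper672.Plain.El r)),
        IsReals r ∧ ∃ tE p t : N, IsUsualTop tE r ∧ IsIrrationals p r ∧ IsSubspace t p tE ∧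
          ¬ IsKSpace t p := by
  obtain ⟨N, iN, hN, hZ, D⟩ := exists_c1 h
  obtain ⟨r, i1, i2, i3, hr⟩ := exists_reals hZ
  refine ⟨N, iN, hN, r, i1, i2, i3, hr, ?_⟩
  letI := toL N
  letI : IsModel N := isModel_of_zermelo hZ
  obtain ⟨z, b, hb⟩ := D
  obtain ⟨ψ, hψ⟩ := exists_cr hr hb
  exact not_kspace hr hψ

end Pool.Agent.Q301.SF
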