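import Pool.Agent.Q301.SF.Real
import Pool.Agent.Q301.SF.Defs
import Pool.Agent.Q301.BM.Hw
import Pool.Agent.Q301.TM.TopG

/-!
# Cohen reals: the irrational numbers are not a `k`-space
-/

set_option maxHeartbeats 1000000
set_option linter.all false
set_option synthInstance.maxSize 2000

namespace Pool.Agent.Q301.SF

open FirstOrder FirstOrder.Language
open Pool.Agent.Helper672.ZFA
open Pool.Agent.Helper672.Plain (LSet)
open Pool.Agent.Helper672.ZFA.H635 (toL plainN_ordPair plainN_graph plainN_opGraph)
open Pool.Agent.H635Amen (IsReals)
open Pool.Agent.H310Cards (IsOmega IsFinite IsFun App IsInj IsNat)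
open Pool.Agent.H310Top (IsTopology IsClosed IsCompact IsHausdorff)
open Pool.Agent.H310 (FinP finP_iff finP_le finP_lt exists_BN mem_nat nat_iff appN finite_of_finP
  mem_cp extN exists_code instPEl pr int_pr pr_inj)
open Pool.Agent.Q301.TM
open Pool.Agent.Q301.BM (IsUsualTop exists_usual)

universe u u₁

attribute [local instance] toL instPEl

section

variable {N : Type u} [LSet.Structure N] [hM : IsModel N] {δ : Type u₁} [ITy N δ]
variable {r : N} [Field (Helper672.Plain.El r)] [LinearOrder (Helper672.Plain.El r)] [IsStrictOrderedRing (Helper672.Plain.El r)]

/-- Rational numbers. -/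
theorem exists_rat (hr : IsReals r) : ∃ i : INat N → Helper672.Plain.El r, IntF N i ∧
    (∀ x : Helper672.Plain.El r, IsRational x ↔ ∃ a b c, i c ≠ 0 ∧ x * i c = i a - i b) ∧
    ∀ a b : Helper672.Plain.El r, 0 ≤ a → a < b → ∃ x, a < x ∧ x < b ∧ IsRational x := by
  obtain ⟨i, hi, h0, hs, harch⟩ := exists_iota hr
  have hlt := int_lt hr
  have hmul := int_mul hr
  have hn : ∀ n, IsNatural (i n) := by
    intro n s h1 h2
    refine INat.ind (p := fun n => Helper672.Plain.Mem (i n).1 s) (by (repeat' (first | with_reducible apply memPE | with_reducible apply memPE' | with_reducible apply memPE'' | with_reducible apply memCode | with_reducible apply memCodeP | with_reducible apply memCode₂ | with_reducible apply eqPE | with_reducible apply eqPE' | with_reducible exact IntF.id | with_reducible exact IntF.fst' | with_reducible exact IntF.snd' | with_reducible exact IntF.const _ | with_reducible exact Int.const _ | assumption | with_reducible apply Int.and | with_reducible apply Int.or | with_reducible apply Int.not | with_reducible apply Int.imp | with_reducible apply Int.iff | with_reducible apply Int.ne | with_reducible apply Int.eq | with_reducible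 apply Int.mem | with_reducible apply Int.subset | with_reducible apply Int.ltN | with_reducible apply Int.leN | with_reducible_and_instances apply Int.le | with_reducible_and_instances apply Int.lt | with_reducible apply Int.all | with_reducible apply Int.ex | with_reducible apply IntF.fst | with_reducible apply IntF.snd | with_reducible apply IntF.app | with_reducible apply IntF.inl | with_reducible apply IntF.inr | with_reducible_and_instances apply IntF.mul | with_reducible_and_instances apply IntF.inv | with_reducible_and_instances apply IntF.add | with_reducible_and_instances apply IntF.sub | with_reducible_and_instances apply IntF.neg | with_reducible_and_instances apply IntF.smul | with_reducible apply Int.fin | with_reducible apply IntF.sep | with_reducible apply IntF.lam | with_reducible apply IntF.insert | with_reducible apply IntF.singleton | with_reducible apply IntF.union | with_reducible apply IntF.iimage | with_reducible apply IntF.ite | with_reducible apply IntF.the | with_reducible apply IntF.irec | with_reducible apply IntF.succ | with_reducible apply IntF.val | with_reducible apply IntF.mk | (with_reducible refine Int.comp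 ?_ ?_; assumption) | (with_reducible refine Int.comp₂ ?_ ?_ ?_; assumption) | (with_reducible refine Int.comp₃ ?_ ?_ ?_ ?_; assumption) | (with_reducible refine Int.comp₄ ?_ ?_ ?_ ?_ ?_; assumption) | (with_reducible refine IntF.comp ?_ ?_; assumption) | (with_reducible refine IntF.comp₂ ?_ ?_ ?_; assumption) | (with_reducible refine IntF.comp₃ ?_ ?_ ?_ ?_; assumption) | with_reducible apply IntF.pair))) ?_ ?_ n
    · rw [h0]
      exact h1
    · intro n ih
      rw [hs]
      exact h2 _ ih
  have hn' : ∀ x : Helper672.Plain.El r, IsNatural x → ∃ n, i n = x := by
    intro x hx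
    have hI : Int N (fun x : Helper672.Plain.El r => ∃ n, i n = x) := by (repeat' (first | with_reducible exact IntF.id | with_reducible exact IntF.fst' | with_reducible exact IntF.snd' | with_reducible exact IntF.const _ | with_reducible exact Int.const _ | assumption | with_reducible apply Int.and | with_reducible apply Int.or | with_reducible apply Int.not | with_reducible apply Int.imp | with_reducible apply Int.iff | with_reducible apply Int.ne | with_reducible apply Int.eq | with_reducible apply Int.mem | with_reducible apply Int.subset | with_reducible apply Int.ltN | with_reducible apply Int.leN | with_reducible_and_instances apply Int.le | with_reducible_and_instances apply Int.lt | with_reducible apply Int.all | with_reducible apply Int.ex | with_reducible apply IntF.fst | with_reducible apply IntF.snd | with_reducible apply IntF.app | with_reducible apply IntF.inl | with_reducible apply IntF.inr | with_reducible_and_instances apply IntF.mul | with_reducible_and_instances apply IntF.inv | with_reducible_and_instances apply IntF.add | with_reducible_and_instances apply IntF.sub | with_reducible_and_instances apply IntF.neg | with_reducible_and_instances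 apply IntF.smul | with_reducible apply Int.fin | with_reducible apply IntF.sep | with_reducible apply IntF.lam | with_reducible apply IntF.insert | with_reducible apply IntF.singleton | with_reducible apply IntF.union | with_reducible apply IntF.iimage | with_reducible apply IntF.ite | with_reducible apply IntF.the | with_reducible apply IntF.irec | with_reducible apply IntF.succ | with_reducible apply IntF.val | with_reducible apply IntF.mk | (with_reducible refine Int.comp ?_ ?_; assumption) | (with_reducible refine Int.comp₂ ?_ ?_ ?_; assumption) | (with_reducible refine Int.comp₃ ?_ ?_ ?_ ?_; assumption) | (with_reducible refine Int.comp₄ ?_ ?_ ?_ ?_ ?_; assumption) | (with_reducible refine IntF.comp ?_ ?_; assumption) | (with_reducible refine IntF.comp₂ ?_ ?_ ?_; assumption) | (with_reducible refine IntF.comp₃ ?_ ?_ ?_ ?_; assumption) | with_reducible apply IntF.pair))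
    obtain ⟨S, hS⟩ := exists_set hI
    obtain ⟨_, n, h3⟩ := (hS _).1 (hx S ((hS _).2 ⟨(0 : Helper672.Plain.El r).2, 0, h0⟩) fun y hy => by
      obtain ⟨_, n, h3⟩ := (hS _).1 hy
      exact (hS _).2 ⟨(y + 1).2, n.succ, by rw [hs, h3]; rfl⟩)
    exact ⟨n, h3⟩
  have hrat : ∀ x : Helper672.Plain.El r, IsRational x ↔ ∃ a b c, i c ≠ 0 ∧ x * i c = i a - i b := by
    intro x
    constructor
    · rintro ⟨a, b, c, h1, h2, h3, h4, h5⟩
      obtain ⟨a, rfl⟩ := hn' a h1
      obtain ⟨b, rfl⟩ := hn' b h2
      obtain ⟨c, rfl⟩ := hn' c h3
      exact ⟨a, b, c, h4, h5⟩
    · rintro ⟨a, b, c, h1, h2⟩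
      exact ⟨_, _, _, hn a, hn b, hn c, h1, h2⟩
  refine ⟨i, hi, hrat, fun a b ha hab => ?_⟩
  obtain ⟨n, h1⟩ := harch (b - a) (sub_pos.2 hab) 1
  have hpos : 0 < i n := by
    by_contra hc
    have h2 := mul_nonpos_of_nonpos_of_nonneg (not_lt.1 hc) (sub_pos.2 hab).le
    linarith
  obtain ⟨m, hm, hmin⟩ := INat.exists_least (p := fun m => a * i n < i m) (by (repeat' (first | with_reducible exact IntF.id | with_reducible exact IntF.fst' | with_reducible exact IntF.snd' | with_reducible exact IntF.const _ | with_reducible exact Int.const _ | assumption | with_reducible apply Int.and | with_reducible apply Int.or | with_reducible apply Int.not | with_reducible apply Int.imp | with_reducible apply Int.iff | with_reducible apply Int.ne | with_reducible apply Int.eq | with_reducible apply Int.mem | with_reducible apply Int.subset | with_reducible apply Int.ltN | with_reducible apply Int.leN | with_reducible_and_instances apply Int.le | with_reducible_and_instances apply Int.lt | with_reducible apply Int.all | with_reducible apply Int.ex | with_reducible apply IntF.fst | with_reducible apply IntF.snd | with_reducible apply IntF.app | with_reducible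 apply IntF.inl | with_reducible apply IntF.inr | with_reducible_and_instances apply IntF.mul | with_reducible_and_instances apply IntF.inv | with_reducible_and_instances apply IntF.add | with_reducible_and_instances apply IntF.sub | with_reducible_and_instances apply IntF.neg | with_reducible_and_instances apply IntF.smul | with_reducible apply Int.fin | with_reducible apply IntF.sep | with_reducible apply IntF.lam | with_reducible apply IntF.insert | with_reducible apply IntF.singleton | with_reducible apply IntF.union | with_reducible apply IntF.iimage | with_reducible apply IntF.ite | with_reducible apply IntF.the | with_reducible apply IntF.irec | with_reducible apply IntF.succ | with_reducible apply IntF.val | with_reducible apply IntF.mk | (with_reducible refine Int.comp ?_ ?_; assumption) | (with_reducible refine Int.comp₂ ?_ ?_ ?_; assumption) | (with_reducible refine Int.comp₃ ?_ ?_ ?_ ?_; assumption) | (with_reducible refine Int.comp₄ ?_ ?_ ?_ ?_ ?_; assumption) | (with_reducible refine IntF.comp ?_ ?_; assumption) | (with_reducible refine IntF.comp₂ ?_ ?_ ?_; assumption) | (with_reducible refine IntF.comp₃ ?_ ?_ ?_ ?_; assumption)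 | with_reducible apply IntF.pair))) (by
    obtain ⟨m, hm⟩ := harch 1 one_pos (a * i n)
    exact ⟨m, by rwa [mul_one] at hm⟩)
  have h2 : i m ≤ a * i n + 1 := by
    rcases INat.eq_zero_or_succ m with rfl | ⟨m', rfl⟩
    · rw [h0]
      have := mul_nonneg ha hpos.le
      linarith
    · have h3 : ¬ a * i n < i m' := fun h3 => absurd (INat.lt_succ_self m') (not_lt.2 (hmin m' h3))
      rw [hs]
      linarith [not_lt.1 h3]
  refine ⟨i m / i n, (lt_div_iff₀ hpos).2 hm, (div_lt_iff₀ hpos).2 ?_,
    (hrat _).2 ⟨m, 0, n, hpos.ne', ?_⟩⟩
  · have h3 : i n * (b - a) = b * i n - a * i n := by ring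
    rw [h3] at h1
    linarith
  · rw [h0, sub_zero, div_mul_cancel₀ _ hpos.ne']

/-- The complement of a finite set is open. -/
theorem fin_far (hr : IsReals r) (F : IPow N (Helper672.Plain.El r)) (hF : IFin F) : ∀ x, ¬ x ∈ F →
    ∃ ε : Helper672.Plain.El r, 0 < ε ∧ ∀ y, y ∈ F → ε ≤ |y - x| := by
  have hle := int_le hr
  have hlt := int_lt hr
  obtain ⟨d, hdI, hd⟩ : ∃ d : Helper672.Plain.El r → Helper672.Plain.El r → Helper672.Plain.El r, IntF N (fun q : Helper672.Plain.El r × Helper672.Plain.El r => d q.1 q.2) ∧
      ∀ a b, d a b = |a - b| := ⟨fun a b => |a - b|, int_dist hr, fun _ _ => rfl⟩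
  simp only [← hd]
  refine IFin.ind (p := fun F : IPow N (Helper672.Plain.El r) => ∀ x, ¬ x ∈ F → ∃ ε : Helper672.Plain.El r, 0 < ε ∧
    ∀ y, y ∈ F → ε ≤ d y x) (by (repeat' (first | with_reducible exact IntF.id | with_reducible exact IntF.fst' | with_reducible exact IntF.snd' | with_reducible exact IntF.const _ | with_reducible exact Int.const _ | assumption | with_reducible apply Int.and | with_reducible apply Int.or | with_reducible apply Int.not | with_reducible apply Int.imp | with_reducible apply Int.iff | with_reducible apply Int.ne | with_reducible apply Int.eq | with_reducible apply Int.mem | with_reducible apply Int.subset | with_reducible apply Int.ltN | with_reducible apply Int.leN | with_reducible_and_instances apply Int.le | with_reducible_and_instances apply Int.lt | with_reducible apply Int.all | with_reducible apply Int.ex | with_reducible apply IntF.fst | with_reducible apply IntF.snd | with_reducible apply IntF.app | with_reducible apply IntF.inl | with_reducible apply IntF.inr | with_reducible_and_instances apply IntF.mul | with_reducible_and_instances apply IntF.inv | with_reducible_and_instances apply IntF.add | with_reducible_and_instances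 apply IntF.sub | with_reducible_and_instances apply IntF.neg | with_reducible_and_instances apply IntF.smul | with_reducible apply Int.fin | with_reducible apply IntF.sep | with_reducible apply IntF.lam | with_reducible apply IntF.insert | with_reducible apply IntF.singleton | with_reducible apply IntF.union | with_reducible apply IntF.iimage | with_reducible apply IntF.ite | with_reducible apply IntF.the | with_reducible apply IntF.irec | with_reducible apply IntF.succ | with_reducible apply IntF.val | with_reducible apply IntF.mk | (with_reducible refine Int.comp ?_ ?_; assumption) | (with_reducible refine Int.comp₂ ?_ ?_ ?_; assumption) | (with_reducible refine Int.comp₃ ?_ ?_ ?_ ?_; assumption) | (with_reducible refine Int.comp₄ ?_ ?_ ?_ ?_ ?_; assumption) | (with_reducible refine IntF.comp ?_ ?_; assumption) | (with_reducible refine IntF.comp₂ ?_ ?_ ?_; assumption) | (with_reducible refine IntF.comp₃ ?_ ?_ ?_ ?_; assumption) | with_reducible apply IntF.pair))) ?_ ?_ F hF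
  · intro x _
    exact ⟨1, one_pos, fun y hy => absurd hy (by simp)⟩
  · intro s c _ _ ih x hx
    obtain ⟨ε, h1, h2⟩ := ih x fun h => hx (mem_insert.2 (Or.inr h))
    have h3 : 0 < d c x := by
      rw [hd]
      exact abs_pos.2 (sub_ne_zero.2 fun h => hx (mem_insert.2 (Or.inl h.symm)))
    refine ⟨min ε (d c x), lt_min h1 h3, fun y hy => ?_⟩
    rcases mem_insert.1 hy with rfl | hy
    · exact min_le_right _ _
    · exact (min_le_left _ _).trans (h2 y hy)

variable {ψ : δ → Helper672.Plain.El r} (hr : IsReals r) (hψ : CR ψ)

include hr hψ in
/-- All but finitely many Cohen reals are irrational. -/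
theorem fin_rat : ∃ E : IPow N δ, IFin E ∧ ∀ y, ¬ y ∈ E → ¬ IsRational (ψ y) := by
  obtain ⟨i, hi, hrat, -⟩ := exists_rat hr
  have hψI := hψ.int
  have hmul := int_mul hr
  have hsub := int_sub' hr
  have hp := int_pr (M := N)
  obtain ⟨E, hE, h1⟩ := hψ.hom (fun q => ∃ a b, q.2.1 = pr a b ∧ i q.2.2 ≠ 0 ∧
    ψ q.1 * i q.2.2 = i a - i b) (by (repeat' (first | with_reducible exact IntF.id | with_reducible exact IntF.fst' | with_reducible exact IntF.snd' | with_reducible exact IntF.const _ | with_reducible exact Int.const _ | assumption | with_reducible apply Int.and | with_reducible apply Int.or | with_reducible apply Int.not | with_reducible apply Int.imp | with_reducible apply Int.iff | with_reducible apply Int.ne | with_reducible apply Int.eq | with_reducible apply Int.mem | with_reducible apply Int.subset | with_reducible apply Int.ltN | with_reducible apply Int.leN | with_reducible_and_instances apply Int.le | with_reducible_and_instances apply Int.lt | with_reducible apply Int.all | with_reducible apply Int.ex | with_reducible apply IntF.fst | with_reducible apply IntF.snd | with_reducible apply IntF.app | with_reducible apply IntF.inl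 | with_reducible apply IntF.inr | with_reducible_and_instances apply IntF.mul | with_reducible_and_instances apply IntF.inv | with_reducible_and_instances apply IntF.add | with_reducible_and_instances apply IntF.sub | with_reducible_and_instances apply IntF.neg | with_reducible_and_instances apply IntF.smul | with_reducible apply Int.fin | with_reducible apply IntF.sep | with_reducible apply IntF.lam | with_reducible apply IntF.insert | with_reducible apply IntF.singleton | with_reducible apply IntF.union | with_reducible apply IntF.iimage | with_reducible apply IntF.ite | with_reducible apply IntF.the | with_reducible apply IntF.irec | with_reducible apply IntF.succ | with_reducible apply IntF.val | with_reducible apply IntF.mk | (with_reducible refine Int.comp ?_ ?_; assumption) | (with_reducible refine Int.comp₂ ?_ ?_ ?_; assumption) | (with_reducible refine Int.comp₃ ?_ ?_ ?_ ?_; assumption) | (with_reducible refine Int.comp₄ ?_ ?_ ?_ ?_ ?_; assumption) | (with_reducible refine IntF.comp ?_ ?_; assumption) | (with_reducible refine IntF.comp₂ ?_ ?_ ?_; assumption) | (with_reducible refine IntF.comp₃ ?_ ?_ ?_ ?_; assumption) | with_reducible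 apply IntF.pair)))
  refine ⟨E, hE, fun x hx hxr => ?_⟩
  obtain ⟨a, b, c, h2, h3⟩ := (hrat _).1 hxr
  obtain ⟨ε, E', hε, hE', h4⟩ := h1 x hx (pr a b, c) ⟨a, b, rfl, h2, h3⟩
  obtain ⟨y, h5, h6, h7⟩ := hψ.dense E' hE' (ψ x) (min 1 (ψ x + ε)) (hψ.pos x).le
    (min_le_left _ _) (lt_min (hψ.lt1 x) (by linarith))
  obtain ⟨a', b', h8, -, h9⟩ := h4 y h5 (by
    rw [abs_lt]
    have := h7.trans_le (min_le_right _ _)
    constructor <;> linarith)
  obtain ⟨rfl, rfl⟩ := pr_inj h8
  have h10 : ψ y * i c = ψ x * i c := h9.trans h3.symm
  exact absurd (mul_right_cancel₀ h2 h10) h6.ne'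

/-- Subspaces of subspaces. -/
theorem sub_sub {t p tE s k : N} (h : IsSubspace t p tE) (h' : IsSubspace s k t)
    (hk : ∀ z, Helper672.Plain.Mem z k → Helper672.Plain.Mem z p) : ∀ u, Helper672.Plain.Mem u s ↔ ∃ v, Helper672.Plain.Mem v tE ∧ ∀ z, Helper672.Plain.Mem z u ↔ Helper672.Plain.Mem z v ∧ Helper672.Plain.Mem z k := by
  intro u
  rw [h' u]
  constructor
  · rintro ⟨v, h1, h2⟩
    obtain ⟨w, h3, h4⟩ := (h v).1 h1
    refine ⟨w, h3, fun z => ?_⟩
    rw [h2, h4]
    exact ⟨fun h => ⟨h.1.1, h.2⟩, fun h => ⟨⟨h.1, hk z h.2⟩, h.2⟩⟩
  · rintro ⟨w, h3, h4⟩
    obtain ⟨v, hv⟩ := exists_set (N := N) (a := p) (p := fun z => Helper672.Plain.Mem z.1 w) (memI' _ _)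
    refine ⟨v, (h v).2 ⟨w, h3, fun z => ?_⟩, fun z => ?_⟩
    · rw [hv]
      exact ⟨fun ⟨h, h'⟩ => ⟨h', h⟩, fun h => ⟨h.2, h.1⟩⟩
    · rw [h4, hv]
      exact ⟨fun h => ⟨⟨hk z h.2, h.1⟩, h.2⟩, fun h => ⟨h.1.2, h.2⟩⟩

include hr hψ in
/-- Compact sets of irrational numbers contain only finitely many Cohen reals. -/
theorem fin_compact {tE p t k s : N} (hE : IsUsualTop tE r) (hp : IsIrrationals p r)
    (ht : IsSubspace t p tE) (hk : ∀ z, Helper672.Plain.Mem z k → Helper672.Plain.Mem z p) (hs : IsSubspace s k t)
    (hc : IsCompact s k) : ∃ E : IPow N δ, IFin E ∧ ∀ y, Helper672.Plain.Mem (ψ y).1 k → y ∈ E := by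
  obtain ⟨i, hi, hrat, hdense⟩ := exists_rat hr
  have hψI := hψ.int
  have hlt := int_lt hr
  have hle := int_le hr
  have hmul := int_mul hr
  obtain ⟨d, hdI, hd⟩ : ∃ d : Helper672.Plain.El r → Helper672.Plain.El r → Helper672.Plain.El r, IntF N (fun q : Helper672.Plain.El r × Helper672.Plain.El r => d q.1 q.2) ∧
      ∀ a b, d a b = |a - b| := ⟨fun a b => |a - b|, int_dist hr, fun _ _ => rfl⟩
  obtain ⟨E, hEf, h1⟩ := hψ.hom (fun q => Helper672.Plain.Mem (ψ q.1).1 k) (by (repeat' (first | with_reducible apply memPE | with_reducible apply memPE' | with_reducible apply memPE'' | with_reducible apply memCode | with_reducible apply memCodeP | with_reducible apply memCode₂ | with_reducible apply eqPE | with_reducible apply eqPE' | with_reducible exact IntF.id | with_reducible exact IntF.fst' | with_reducible exact IntF.snd' | with_reducible exact IntF.const _ | with_reducible exact Int.const _ | assumption | with_reducible apply Int.and | with_reducible apply Int.or | with_reducible apply Int.not | with_reducible apply Int.imp | with_reducible apply Int.iff | with_reducible apply Int.ne | with_reducible apply Int.eq | with_reducible apply Int.mem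 | with_reducible apply Int.subset | with_reducible apply Int.ltN | with_reducible apply Int.leN | with_reducible_and_instances apply Int.le | with_reducible_and_instances apply Int.lt | with_reducible apply Int.all | with_reducible apply Int.ex | with_reducible apply IntF.fst | with_reducible apply IntF.snd | with_reducible apply IntF.app | with_reducible apply IntF.inl | with_reducible apply IntF.inr | with_reducible_and_instances apply IntF.mul | with_reducible_and_instances apply IntF.inv | with_reducible_and_instances apply IntF.add | with_reducible_and_instances apply IntF.sub | with_reducible_and_instances apply IntF.neg | with_reducible_and_instances apply IntF.smul | with_reducible apply Int.fin | with_reducible apply IntF.sep | with_reducible apply IntF.lam | with_reducible apply IntF.insert | with_reducible apply IntF.singleton | with_reducible apply IntF.union | with_reducible apply IntF.iimage | with_reducible apply IntF.ite | with_reducible apply IntF.the | with_reducible apply IntF.irec | with_reducible apply IntF.succ | with_reducible apply IntF.val | with_reducible apply IntF.mk | (with_reducible refine Int.comp ?_ ?_; assumption)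 | (with_reducible refine Int.comp₂ ?_ ?_ ?_; assumption) | (with_reducible refine Int.comp₃ ?_ ?_ ?_ ?_; assumption) | (with_reducible refine Int.comp₄ ?_ ?_ ?_ ?_ ?_; assumption) | (with_reducible refine IntF.comp ?_ ?_; assumption) | (with_reducible refine IntF.comp₂ ?_ ?_ ?_; assumption) | (with_reducible refine IntF.comp₃ ?_ ?_ ?_ ?_; assumption) | with_reducible apply IntF.pair)))
  refine ⟨E, hEf, fun x hx => ?_⟩
  by_contra hxE
  obtain ⟨ε, E', hε, hE', h4⟩ := h1 x hxE (0, 0) hx
  obtain ⟨ρ, h5, h6, h7⟩ := hdense (ψ x) (min 1 (ψ x + ε)) (hψ.pos x).le
    (lt_min (hψ.lt1 x) (by linarith))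
  have hρ : ¬ Helper672.Plain.Mem ρ.1 k := fun h => by
    obtain ⟨y, h8, h9⟩ := (hp _).1 (hk _ h)
    exact h9 (Subtype.ext h8 ▸ h7)
  -- the cover
  have hU : ∀ (η : Helper672.Plain.El r) (z : Helper672.Plain.El r), z ∈ sep N (fun z : Helper672.Plain.El r => Helper672.Plain.Mem z.1 k ∧ η < d z ρ) ↔
      Helper672.Plain.Mem z.1 k ∧ η < d z ρ := fun η z => mem_sep (by (repeat' (first | with_reducible apply memPE | with_reducible apply memPE' | with_reducible apply memPE'' | with_reducible apply memCode | with_reducible apply memCodeP | with_reducible apply memCode₂ | with_reducible apply eqPE | with_reducible apply eqPE' | with_reducible exact IntF.id | with_reducible exact IntF.fst' | with_reducible exact IntF.snd' | with_reducible exact IntF.const _ | with_reducible exact Int.const _ | assumption | with_reducible apply Int.and | with_reducible apply Int.or | with_reducible apply Int.not | with_reducible apply Int.imp | with_reducible apply Int.iff | with_reducible apply Int.ne | with_reducible apply Int.eq | with_reducible apply Int.mem | with_reducible apply Int.subset | with_reducible apply Int.ltN | with_reducible apply Int.leN | with_reducible_and_instances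 apply Int.le | with_reducible_and_instances apply Int.lt | with_reducible apply Int.all | with_reducible apply Int.ex | with_reducible apply IntF.fst | with_reducible apply IntF.snd | with_reducible apply IntF.app | with_reducible apply IntF.inl | with_reducible apply IntF.inr | with_reducible_and_instances apply IntF.mul | with_reducible_and_instances apply IntF.inv | with_reducible_and_instances apply IntF.add | with_reducible_and_instances apply IntF.sub | with_reducible_and_instances apply IntF.neg | with_reducible_and_instances apply IntF.smul | with_reducible apply Int.fin | with_reducible apply IntF.sep | with_reducible apply IntF.lam | with_reducible apply IntF.insert | with_reducible apply IntF.singleton | with_reducible apply IntF.union | with_reducible apply IntF.iimage | with_reducible apply IntF.ite | with_reducible apply IntF.the | with_reducible apply IntF.irec | with_reducible apply IntF.succ | with_reducible apply IntF.val | with_reducible apply IntF.mk | (with_reducible refine Int.comp ?_ ?_; assumption) | (with_reducible refine Int.comp₂ ?_ ?_ ?_; assumption) | (with_reducible refine Int.comp₃ ?_ ?_ ?_ ?_; assumption) |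 (with_reducible refine Int.comp₄ ?_ ?_ ?_ ?_ ?_; assumption) | (with_reducible refine IntF.comp ?_ ?_; assumption) | (with_reducible refine IntF.comp₂ ?_ ?_ ?_; assumption) | (with_reducible refine IntF.comp₃ ?_ ?_ ?_ ?_; assumption) | with_reducible apply IntF.pair)))
  have hV : ∀ (η z : Helper672.Plain.El r), z ∈ sep N (fun z : Helper672.Plain.El r => η < d z ρ) ↔ η < d z ρ := fun η z =>
    mem_sep (by (repeat' (first | with_reducible apply memPE | with_reducible apply memPE' | with_reducible apply memPE'' | with_reducible apply memCode | with_reducible apply memCodeP | with_reducible apply memCode₂ | with_reducible apply eqPE | with_reducible apply eqPE' | with_reducible exact IntF.id | with_reducible exact IntF.fst' | with_reducible exact IntF.snd' | with_reducible exact IntF.const _ | with_reducible exact Int.const _ | assumption | with_reducible apply Int.and | with_reducible apply Int.or | with_reducible apply Int.not | with_reducible apply Int.imp | with_reducible apply Int.iff | with_reducible apply Int.ne | with_reducible apply Int.eq | with_reducible apply Int.mem | with_reducible apply Int.subset | with_reducible apply Int.ltN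 | with_reducible apply Int.leN | with_reducible_and_instances apply Int.le | with_reducible_and_instances apply Int.lt | with_reducible apply Int.all | with_reducible apply Int.ex | with_reducible apply IntF.fst | with_reducible apply IntF.snd | with_reducible apply IntF.app | with_reducible apply IntF.inl | with_reducible apply IntF.inr | with_reducible_and_instances apply IntF.mul | with_reducible_and_instances apply IntF.inv | with_reducible_and_instances apply IntF.add | with_reducible_and_instances apply IntF.sub | with_reducible_and_instances apply IntF.neg | with_reducible_and_instances apply IntF.smul | with_reducible apply Int.fin | with_reducible apply IntF.sep | with_reducible apply IntF.lam | with_reducible apply IntF.insert | with_reducible apply IntF.singleton | with_reducible apply IntF.union | with_reducible apply IntF.iimage | with_reducible apply IntF.ite | with_reducible apply IntF.the | with_reducible apply IntF.irec | with_reducible apply IntF.succ | with_reducible apply IntF.val | with_reducible apply IntF.mk | (with_reducible refine Int.comp ?_ ?_; assumption) | (with_reducible refine Int.comp₂ ?_ ?_ ?_; assumption)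 | (with_reducible refine Int.comp₃ ?_ ?_ ?_ ?_; assumption) | (with_reducible refine Int.comp₄ ?_ ?_ ?_ ?_ ?_; assumption) | (with_reducible refine IntF.comp ?_ ?_; assumption) | (with_reducible refine IntF.comp₂ ?_ ?_ ?_; assumption) | (with_reducible refine IntF.comp₃ ?_ ?_ ?_ ?_; assumption) | with_reducible apply IntF.pair)))
  have hUi : IntF N (fun η : Helper672.Plain.El r => sep N (fun z : Helper672.Plain.El r => Helper672.Plain.Mem z.1 k ∧ η < d z ρ)) := by
    refine IntF.sep ?_
    (repeat' (first | with_reducible apply memPE | with_reducible apply memPE' | with_reducible apply memPE'' | with_reducible apply memCode | with_reducible apply memCodeP | with_reducible apply memCode₂ | with_reducible apply eqPE | with_reducible apply eqPE' | with_reducible exact IntF.id | with_reducible exact IntF.fst' | with_reducible exact IntF.snd' | with_reducible exact IntF.const _ | with_reducible exact Int.const _ | assumption | with_reducible apply Int.and | with_reducible apply Int.or | with_reducible apply Int.not | with_reducible apply Int.imp | with_reducible apply Int.iff | with_reducible apply Int.ne | with_reducible apply Int.eq | with_reducible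 apply Int.mem | with_reducible apply Int.subset | with_reducible apply Int.ltN | with_reducible apply Int.leN | with_reducible_and_instances apply Int.le | with_reducible_and_instances apply Int.lt | with_reducible apply Int.all | with_reducible apply Int.ex | with_reducible apply IntF.fst | with_reducible apply IntF.snd | with_reducible apply IntF.app | with_reducible apply IntF.inl | with_reducible apply IntF.inr | with_reducible_and_instances apply IntF.mul | with_reducible_and_instances apply IntF.inv | with_reducible_and_instances apply IntF.add | with_reducible_and_instances apply IntF.sub | with_reducible_and_instances apply IntF.neg | with_reducible_and_instances apply IntF.smul | with_reducible apply Int.fin | with_reducible apply IntF.sep | with_reducible apply IntF.lam | with_reducible apply IntF.insert | with_reducible apply IntF.singleton | with_reducible apply IntF.union | with_reducible apply IntF.iimage | with_reducible apply IntF.ite | with_reducible apply IntF.the | with_reducible apply IntF.irec | with_reducible apply IntF.succ | with_reducible apply IntF.val | with_reducible apply IntF.mk | (with_reducible refine Int.comp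 ?_ ?_; assumption) | (with_reducible refine Int.comp₂ ?_ ?_ ?_; assumption) | (with_reducible refine Int.comp₃ ?_ ?_ ?_ ?_; assumption) | (with_reducible refine Int.comp₄ ?_ ?_ ?_ ?_ ?_; assumption) | (with_reducible refine IntF.comp ?_ ?_; assumption) | (with_reducible refine IntF.comp₂ ?_ ?_ ?_; assumption) | (with_reducible refine IntF.comp₃ ?_ ?_ ?_ ?_; assumption) | with_reducible apply IntF.pair))
  have hkr : ∀ z, Helper672.Plain.Mem z k → Helper672.Plain.Mem z r := fun z hz => by
    obtain ⟨y, h8, -⟩ := (hp _).1 (hk _ hz)
    exact h8 ▸ y.2
  have hC : Int N (fun U : IPow N (Helper672.Plain.El r) => ∃ η : Helper672.Plain.El r, 0 < η ∧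
      U = sep N (fun z : Helper672.Plain.El r => Helper672.Plain.Mem z.1 k ∧ η < d z ρ)) := by (repeat' (first | with_reducible apply memPE | with_reducible apply memPE' | with_reducible apply memPE'' | with_reducible apply memCode | with_reducible apply memCodeP | with_reducible apply memCode₂ | with_reducible apply eqPE | with_reducible apply eqPE' | with_reducible exact IntF.id | with_reducible exact IntF.fst' | with_reducible exact IntF.snd' | with_reducible exact IntF.const _ | with_reducible exact Int.const _ | assumption | with_reducible apply Int.and | with_reducible apply Int.or | with_reducible apply Int.not | with_reducible apply Int.imp | with_reducible apply Int.iff | with_reducible apply Int.ne | with_reducible apply Int.eq | with_reducible apply Int.mem | with_reducible apply Int.subset | with_reducible apply Int.ltN | with_reducible apply Int.leN | with_reducible_and_instances apply Int.le | with_reducible_and_instances apply Int.lt | with_reducible apply Int.all | with_reducible apply Int.ex | with_reducible apply IntF.fst | with_reducible apply IntF.snd | with_reducible apply IntF.app | with_reducible apply IntF.inl | with_reducible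 apply IntF.inr | with_reducible_and_instances apply IntF.mul | with_reducible_and_instances apply IntF.inv | with_reducible_and_instances apply IntF.add | with_reducible_and_instances apply IntF.sub | with_reducible_and_instances apply IntF.neg | with_reducible_and_instances apply IntF.smul | with_reducible apply Int.fin | with_reducible apply IntF.sep | with_reducible apply IntF.lam | with_reducible apply IntF.insert | with_reducible apply IntF.singleton | with_reducible apply IntF.union | with_reducible apply IntF.iimage | with_reducible apply IntF.ite | with_reducible apply IntF.the | with_reducible apply IntF.irec | with_reducible apply IntF.succ | with_reducible apply IntF.val | with_reducible apply IntF.mk | (with_reducible refine Int.comp ?_ ?_; assumption) | (with_reducible refine Int.comp₂ ?_ ?_ ?_; assumption) | (with_reducible refine Int.comp₃ ?_ ?_ ?_ ?_; assumption) | (with_reducible refine Int.comp₄ ?_ ?_ ?_ ?_ ?_; assumption) | (with_reducible refine IntF.comp ?_ ?_; assumption) | (with_reducible refine IntF.comp₂ ?_ ?_ ?_; assumption) | (with_reducible refine IntF.comp₃ ?_ ?_ ?_ ?_; assumption) | with_reducible apply IntF.pair))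
  obtain ⟨c', hc'f, hc'c, hc'⟩ := hc (code (sep N fun U : IPow N (Helper672.Plain.El r) => ∃ η : Helper672.Plain.El r, 0 < η ∧
      U = sep N (fun z : Helper672.Plain.El r => Helper672.Plain.Mem z.1 k ∧ η < d z ρ))) (fun u hu => by
      obtain ⟨U, hU', rfl⟩ := mem_cp.1 hu
      obtain ⟨η, hη, rfl⟩ := (mem_sep hC).1 hU'
      refine (sub_sub ht hs hk _).2 ⟨code (sep N fun z : Helper672.Plain.El r => η < d z ρ), (hE _).2
        ⟨fun z hz => (mem_cpE.1 hz).1, fun q hq => ?_⟩, fun z => ?_⟩
      · have h8 := (hV η q).1 (mem_cpE'.1 hq)
        refine ⟨d q ρ - η, sub_pos.2 h8, fun q' hq' => mem_cpE'.2 ((hV η q').2 ?_)⟩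
        rw [hd] at hq' h8 ⊢
        have h9 := abs_sub_abs_le_abs_sub (q - ρ) (q' - ρ)
        rw [sub_sub_sub_cancel_right, abs_sub_comm q q'] at h9
        linarith
      · constructor
        · intro hz
          obtain ⟨h8, h9⟩ := mem_cpE.1 hz
          obtain ⟨h10, h11⟩ := (hU η _).1 h9
          exact ⟨mem_cpE.2 ⟨h8, (hV η _).2 h11⟩, h10⟩
        · rintro ⟨h8, h9⟩
          obtain ⟨h10, h11⟩ := mem_cpE.1 h8
          exact mem_cpE.2 ⟨h10, (hU η _).2 ⟨h9, (hV η _).1 h11⟩⟩)
    (fun z hz => by
      obtain ⟨w, rfl⟩ : ∃ w : Helper672.Plain.El r, w.1 = z := ⟨⟨z, hkr z hz⟩, rfl⟩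
      have h8 : 0 < d w ρ := by
        rw [hd]
        exact abs_pos.2 (sub_ne_zero.2 fun h => hρ (h ▸ hz))
      refine ⟨code (sep N (fun z : Helper672.Plain.El r => Helper672.Plain.Mem z.1 k ∧ d w ρ / 2 < d z ρ)), mem_cp.2 ⟨_,
        (mem_sep hC).2 ⟨d w ρ / 2, half_pos h8, rfl⟩, rfl⟩, mem_cpE'.2 ((hU _ _).2
          ⟨hz, half_lt_self h8⟩)⟩)
  have hB : ∃ B : Helper672.Plain.El r, ∀ u : Helper672.Plain.El c', u ∈ sep N (fun u : Helper672.Plain.El c' => Helper672.Plain.Mem u.1 c') → ∀ z : Helper672.Plain.El r,
      Helper672.Plain.Mem z.1 u.1 → 1 ≤ B * d z ρ := by
    refine IFin.exists_bound (r := fun (u : Helper672.Plain.El c') (B : Helper672.Plain.El r) => ∀ z : Helper672.Plain.El r, Helper672.Plain.Mem z.1 u.1 →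
      1 ≤ B * d z ρ) (by (repeat' (first | with_reducible apply memPE | with_reducible apply memPE' | with_reducible apply memPE'' | with_reducible apply memCode | with_reducible apply memCodeP | with_reducible apply memCode₂ | with_reducible apply eqPE | with_reducible apply eqPE' | with_reducible exact IntF.id | with_reducible exact IntF.fst' | with_reducible exact IntF.snd' | with_reducible exact IntF.const _ | with_reducible exact Int.const _ | assumption | with_reducible apply Int.and | with_reducible apply Int.or | with_reducible apply Int.not | with_reducible apply Int.imp | with_reducible apply Int.iff | with_reducible apply Int.ne | with_reducible apply Int.eq | with_reducible apply Int.mem | with_reducible apply Int.subset | with_reducible apply Int.ltN | with_reducible apply Int.leN | with_reducible_and_instances apply Int.le | with_reducible_and_instances apply Int.lt | with_reducible apply Int.all | with_reducible apply Int.ex | with_reducible apply IntF.fst | with_reducible apply IntF.snd | with_reducible apply IntF.app | with_reducible apply IntF.inl | with_reducible apply IntF.inr | with_reducible_and_instances apply IntF.mul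 | with_reducible_and_instances apply IntF.inv | with_reducible_and_instances apply IntF.add | with_reducible_and_instances apply IntF.sub | with_reducible_and_instances apply IntF.neg | with_reducible_and_instances apply IntF.smul | with_reducible apply Int.fin | with_reducible apply IntF.sep | with_reducible apply IntF.lam | with_reducible apply IntF.insert | with_reducible apply IntF.singleton | with_reducible apply IntF.union | with_reducible apply IntF.iimage | with_reducible apply IntF.ite | with_reducible apply IntF.the | with_reducible apply IntF.irec | with_reducible apply IntF.succ | with_reducible apply IntF.val | with_reducible apply IntF.mk | (with_reducible refine Int.comp ?_ ?_; assumption) | (with_reducible refine Int.comp₂ ?_ ?_ ?_; assumption) | (with_reducible refine Int.comp₃ ?_ ?_ ?_ ?_; assumption) | (with_reducible refine Int.comp₄ ?_ ?_ ?_ ?_ ?_; assumption) | (with_reducible refine IntF.comp ?_ ?_; assumption) | (with_reducible refine IntF.comp₂ ?_ ?_ ?_; assumption) | (with_reducible refine IntF.comp₃ ?_ ?_ ?_ ?_; assumption) | with_reducible apply IntF.pair))) (fun B B' => ⟨|B| + |B'|, fun u hu z hz => ?_⟩) ⟨0⟩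
      (ifin_of_finite hc'f c') fun u hu => ?_
    · have h8 : 0 ≤ d z ρ := by
        rw [hd]
        exact abs_nonneg _
      rcases hu with hu | hu
      · exact (hu z hz).trans (mul_le_mul_of_nonneg_right ((le_abs_self B).trans
          (le_add_of_nonneg_right (abs_nonneg _))) h8)
      · exact (hu z hz).trans (mul_le_mul_of_nonneg_right ((le_abs_self B').trans
          (le_add_of_nonneg_left (abs_nonneg _))) h8)
    · obtain ⟨U, hU', h8⟩ := mem_cp.1 (hc'c _ u.2)
      obtain ⟨η, hη, rfl⟩ := (mem_sep hC).1 hU'
      refine ⟨η⁻¹, fun z hz => ?_⟩
      rw [← h8] at hz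
      have h9 := ((hU _ _).1 (mem_cpE'.1 hz)).2
      rw [inv_mul_eq_div, one_le_div hη]
      exact h9.le
  obtain ⟨B, hB⟩ := hB
  have hB' : ∀ z : Helper672.Plain.El r, Helper672.Plain.Mem z.1 k → 1 ≤ B * |z - ρ| := by
    intro z hz
    obtain ⟨u, hu, hzu⟩ := hc' _ hz
    rw [← hd]
    exact hB ⟨u, hu⟩ ((mem_sep (memI' _ _)).2 hu) z hzu
  have hBpos : 0 < B := by
    by_contra hB0
    have h8 := hB' _ hx
    have h9 := mul_nonpos_of_nonpos_of_nonneg (not_lt.1 hB0) (abs_nonneg (ψ x - ρ))
    linarith
  obtain ⟨y, h8, h9, h10⟩ := hψ.dense E' hE' ρ (min (min 1 (ψ x + ε)) (ρ + B⁻¹))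
    ((hψ.pos x).trans h5).le ((min_le_left _ _).trans (min_le_left _ _))
    (lt_min h6 (lt_add_of_pos_right _ (inv_pos.2 hBpos)))
  have h11 := h4 y h8 (by
    have h12 := h10.trans_le ((min_le_left _ _).trans (min_le_right _ _))
    rw [abs_lt]
    constructor <;> linarith)
  have h12 := hB' _ h11
  have h13 := h10.trans_le (min_le_right _ _)
  rw [abs_of_pos (sub_pos.2 h9)] at h12
  have h14 : B * (ψ y - ρ) < B * B⁻¹ := mul_lt_mul_of_pos_left (by linarith) hBpos
  rw [mul_inv_cancel₀ hBpos.ne'] at h14
  linarith

include hr hψ in
/-- The irrational numbers are not a `k`-space. -/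
theorem not_kspace : ∃ tE p t : N, IsUsualTop tE r ∧ IsIrrationals p r ∧ IsSubspace t p tE ∧
    ¬ IsKSpace t p := by
  obtain ⟨i, hi, hrat, hdense⟩ := exists_rat hr
  have hψI := hψ.int
  have hmul := int_mul hr
  have hsub := int_sub' hr
  obtain ⟨tE, hE⟩ := exists_usual (r := r) hr
  have hRI : Int N (fun x : Helper672.Plain.El r => ¬ ∃ a b c, i c ≠ 0 ∧ x * i c = i a - i b) := by (repeat' (first | with_reducible exact IntF.id | with_reducible exact IntF.fst' | with_reducible exact IntF.snd' | with_reducible exact IntF.const _ | with_reducible exact Int.const _ | assumption | with_reducible apply Int.and | with_reducible apply Int.or | with_reducible apply Int.not | with_reducible apply Int.imp | with_reducible apply Int.iff | with_reducible apply Int.ne | with_reducible apply Int.eq | with_reducible apply Int.mem | with_reducible apply Int.subset | with_reducible apply Int.ltN | with_reducible apply Int.leN | with_reducible_and_instances apply Int.le | with_reducible_and_instances apply Int.lt | with_reducible apply Int.all | with_reducible apply Int.ex | with_reducible apply IntF.fst | with_reducible apply IntF.snd | with_reducible apply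 IntF.app | with_reducible apply IntF.inl | with_reducible apply IntF.inr | with_reducible_and_instances apply IntF.mul | with_reducible_and_instances apply IntF.inv | with_reducible_and_instances apply IntF.add | with_reducible_and_instances apply IntF.sub | with_reducible_and_instances apply IntF.neg | with_reducible_and_instances apply IntF.smul | with_reducible apply Int.fin | with_reducible apply IntF.sep | with_reducible apply IntF.lam | with_reducible apply IntF.insert | with_reducible apply IntF.singleton | with_reducible apply IntF.union | with_reducible apply IntF.iimage | with_reducible apply IntF.ite | with_reducible apply IntF.the | with_reducible apply IntF.irec | with_reducible apply IntF.succ | with_reducible apply IntF.val | with_reducible apply IntF.mk | (with_reducible refine Int.comp ?_ ?_; assumption) | (with_reducible refine Int.comp₂ ?_ ?_ ?_; assumption) | (with_reducible refine Int.comp₃ ?_ ?_ ?_ ?_; assumption) | (with_reducible refine Int.comp₄ ?_ ?_ ?_ ?_ ?_; assumption) | (with_reducible refine IntF.comp ?_ ?_; assumption) | (with_reducible refine IntF.comp₂ ?_ ?_ ?_; assumption) | (with_reducible refine IntF.comp₃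 ?_ ?_ ?_ ?_; assumption) | with_reducible apply IntF.pair))
  obtain ⟨p, hp⟩ := exists_set hRI
  have hp' : IsIrrationals p r := fun z => by
    rw [hp]
    constructor
    · rintro ⟨h1, h2⟩
      exact ⟨⟨z, h1⟩, rfl, fun h3 => h2 ((hrat _).1 h3)⟩
    · rintro ⟨x, rfl, h2⟩
      exact ⟨x.2, fun h3 => h2 ((hrat _).2 h3)⟩
  have hTI : Int N (fun U : IPow N (Helper672.Plain.El r) => ∃ v : Helper672.Plain.El tE, ∀ z : Helper672.Plain.El r, z ∈ U ↔ Helper672.Plain.Mem z.1 v.1 ∧
      Helper672.Plain.Mem z.1 p) := by (repeat' (first | with_reducible apply memPE | with_reducible apply memPE' | with_reducible apply memPE'' | with_reducible apply memCode | with_reducible apply memCodeP | with_reducible apply memCode₂ | with_reducible apply eqPE | with_reducible apply eqPE' | with_reducible exact IntF.id | with_reducible exact IntF.fst' | with_reducible exact IntF.snd' | with_reducible exact IntF.const _ | with_reducible exact Int.const _ | assumption | with_reducible apply Int.and | with_reducible apply Int.or | with_reducible apply Int.not | with_reducible apply Int.imp | with_reducible apply Int.iff | with_reducible apply Int.ne | with_reducible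 apply Int.eq | with_reducible apply Int.mem | with_reducible apply Int.subset | with_reducible apply Int.ltN | with_reducible apply Int.leN | with_reducible_and_instances apply Int.le | with_reducible_and_instances apply Int.lt | with_reducible apply Int.all | with_reducible apply Int.ex | with_reducible apply IntF.fst | with_reducible apply IntF.snd | with_reducible apply IntF.app | with_reducible apply IntF.inl | with_reducible apply IntF.inr | with_reducible_and_instances apply IntF.mul | with_reducible_and_instances apply IntF.inv | with_reducible_and_instances apply IntF.add | with_reducible_and_instances apply IntF.sub | with_reducible_and_instances apply IntF.neg | with_reducible_and_instances apply IntF.smul | with_reducible apply Int.fin | with_reducible apply IntF.sep | with_reducible apply IntF.lam | with_reducible apply IntF.insert | with_reducible apply IntF.singleton | with_reducible apply IntF.union | with_reducible apply IntF.iimage | with_reducible apply IntF.ite | with_reducible apply IntF.the | with_reducible apply IntF.irec | with_reducible apply IntF.succ | with_reducible apply IntF.val | with_reducible apply IntF.mk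 | (with_reducible refine Int.comp ?_ ?_; assumption) | (with_reducible refine Int.comp₂ ?_ ?_ ?_; assumption) | (with_reducible refine Int.comp₃ ?_ ?_ ?_ ?_; assumption) | (with_reducible refine Int.comp₄ ?_ ?_ ?_ ?_ ?_; assumption) | (with_reducible refine IntF.comp ?_ ?_; assumption) | (with_reducible refine IntF.comp₂ ?_ ?_ ?_; assumption) | (with_reducible refine IntF.comp₃ ?_ ?_ ?_ ?_; assumption) | with_reducible apply IntF.pair))
  have hpr : ∀ z, Helper672.Plain.Mem z p → Helper672.Plain.Mem z r := fun z hz => by
    obtain ⟨x, rfl, -⟩ := (hp' z).1 hz
    exact x.2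
  have hT : IsSubspace (code (sep N fun U : IPow N (Helper672.Plain.El r) => ∃ v : Helper672.Plain.El tE, ∀ z : Helper672.Plain.El r, z ∈ U ↔
      Helper672.Plain.Mem z.1 v.1 ∧ Helper672.Plain.Mem z.1 p)) p tE := by
    intro u
    rw [show Helper672.Plain.Mem u (code (sep N fun U : IPow N (Helper672.Plain.El r) => ∃ v : Helper672.Plain.El tE, ∀ z : Helper672.Plain.El r,
      z ∈ U ↔ Helper672.Plain.Mem z.1 v.1 ∧ Helper672.Plain.Mem z.1 p)) ↔ _ from mem_cp]
    constructor
    · rintro ⟨U, hU, rfl⟩
      obtain ⟨v, hv⟩ := (mem_sep hTI).1 hU
      refine ⟨v.1, v.2, fun z => ⟨fun hz => ?_, fun hz => ?_⟩⟩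
      · obtain ⟨h1, h2⟩ := mem_cpE.1 hz
        exact (hv _).1 h2
      · exact mem_cpE.2 ⟨hpr _ hz.2, (hv _).2 hz⟩
    · rintro ⟨v, hv, h1⟩
      obtain ⟨U, rfl, hU⟩ := exists_code (a := r) (u := u) fun z hz => hpr _ ((h1 z).1 hz).2
      exact ⟨U, (mem_sep hTI).2 ⟨⟨v, hv⟩, fun z => (hU z).trans (h1 z.1)⟩, rfl⟩
  obtain ⟨t, hT⟩ : ∃ t, IsSubspace t p tE := ⟨_, hT⟩
  refine ⟨tE, p, t, hE, hp', hT, fun hK => ?_⟩
  obtain ⟨E, hEf, h1⟩ := fin_rat hr hψ
  obtain ⟨x, hx, -⟩ := hψ.dense E hEf 0 1 le_rfl le_rfl one_pos
  have hAI : Int N (fun z : Helper672.Plain.El r => ∃ y : δ, ¬ y ∈ E ∧ y ≠ x ∧ ψ y = z) := by (repeat' (first | with_reducible exact IntF.id | with_reducible exact IntF.fst' | with_reducible exact IntF.snd' | with_reducible exact IntF.const _ | with_reducible exact Int.const _ | assumption | with_reducible apply Int.and | with_reducible apply Int.or | with_reducible apply Int.not | with_reducible apply Int.imp | with_reducible apply Int.iff | with_reducible apply Int.ne | with_reducible apply Int.eq | with_reducible apply Int.mem | with_reducible apply Int.subset | with_reducible apply Int.ltN | with_reducible apply Int.leN | with_reducible_and_instances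 apply Int.le | with_reducible_and_instances apply Int.lt | with_reducible apply Int.all | with_reducible apply Int.ex | with_reducible apply IntF.fst | with_reducible apply IntF.snd | with_reducible apply IntF.app | with_reducible apply IntF.inl | with_reducible apply IntF.inr | with_reducible_and_instances apply IntF.mul | with_reducible_and_instances apply IntF.inv | with_reducible_and_instances apply IntF.add | with_reducible_and_instances apply IntF.sub | with_reducible_and_instances apply IntF.neg | with_reducible_and_instances apply IntF.smul | with_reducible apply Int.fin | with_reducible apply IntF.sep | with_reducible apply IntF.lam | with_reducible apply IntF.insert | with_reducible apply IntF.singleton | with_reducible apply IntF.union | with_reducible apply IntF.iimage | with_reducible apply IntF.ite | with_reducible apply IntF.the | with_reducible apply IntF.irec | with_reducible apply IntF.succ | with_reducible apply IntF.val | with_reducible apply IntF.mk | (with_reducible refine Int.comp ?_ ?_; assumption) | (with_reducible refine Int.comp₂ ?_ ?_ ?_; assumption) | (with_reducible refine Int.comp₃ ?_ ?_ ?_ ?_; assumption) |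 (with_reducible refine Int.comp₄ ?_ ?_ ?_ ?_ ?_; assumption) | (with_reducible refine IntF.comp ?_ ?_; assumption) | (with_reducible refine IntF.comp₂ ?_ ?_ ?_; assumption) | (with_reducible refine IntF.comp₃ ?_ ?_ ?_ ?_; assumption) | with_reducible apply IntF.pair))
  obtain ⟨A, hA⟩ := exists_set hAI
  have hxp : Helper672.Plain.Mem (ψ x).1 p := (hp' _).2 ⟨_, rfl, h1 x hx⟩
  have hAx : ¬ Helper672.Plain.Mem (ψ x).1 A := fun h => by
    obtain ⟨_, y, -, h2, h3⟩ := (hA _).1 h
    exact h2 (hψ.inj _ _ h3)
  have hcl := hK A (fun z hz => by
    obtain ⟨h2, y, h3, -, h4⟩ := (hA _).1 hz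
    exact (hp' _).2 ⟨_, congrArg Subtype.val h4, h1 y h3⟩) fun k s hk hs hc c hc' => by
      obtain ⟨F, hF, hF'⟩ := fin_compact hr hψ hE hp' hT hk hs hc
      have hcF : ∀ z : Helper672.Plain.El r, Helper672.Plain.Mem z.1 c → z ∈ iimage ψ F := fun z hz => by
        obtain ⟨h2, h3⟩ := (hc' _).1 hz
        obtain ⟨_, y, -, -, h4⟩ := (hA _).1 h2
        have h5 : ψ y = z := h4
        exact (mem_iimage hψI).2 ⟨y, hF' y (h5 ▸ h3), h5⟩
      have hcI : Int N (fun z : Helper672.Plain.El r => Helper672.Plain.Mem z.1 c) := memI' _ _
      have hcf : IFin (sep N fun z : Helper672.Plain.El r => Helper672.Plain.Mem z.1 c) := (hF.image hψI).subset fun z hz =>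
        hcF z ((mem_sep hcI).1 hz)
      have hkr : ∀ z, Helper672.Plain.Mem z k → Helper672.Plain.Mem z r := fun z hz => hpr z (hk z hz)
      have hnI : Int N (fun z : Helper672.Plain.El r => ¬ Helper672.Plain.Mem z.1 c) := by (repeat' (first | with_reducible apply memPE | with_reducible apply memPE' | with_reducible apply memPE'' | with_reducible apply memCode | with_reducible apply memCodeP | with_reducible apply memCode₂ | with_reducible apply eqPE | with_reducible apply eqPE' | with_reducible exact IntF.id | with_reducible exact IntF.fst' | with_reducible exact IntF.snd' | with_reducible exact IntF.const _ | with_reducible exact Int.const _ | assumption | with_reducible apply Int.and | with_reducible apply Int.or | with_reducible apply Int.not | with_reducible apply Int.imp | with_reducible apply Int.iff | with_reducible apply Int.ne | with_reducible apply Int.eq | with_reducible apply Int.mem | with_reducible apply Int.subset | with_reducible apply Int.ltN | with_reducible apply Int.leN | with_reducible_and_instances apply Int.le | with_reducible_and_instances apply Int.lt | with_reducible apply Int.all | with_reducible apply Int.ex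 | with_reducible apply IntF.fst | with_reducible apply IntF.snd | with_reducible apply IntF.app | with_reducible apply IntF.inl | with_reducible apply IntF.inr | with_reducible_and_instances apply IntF.mul | with_reducible_and_instances apply IntF.inv | with_reducible_and_instances apply IntF.add | with_reducible_and_instances apply IntF.sub | with_reducible_and_instances apply IntF.neg | with_reducible_and_instances apply IntF.smul | with_reducible apply Int.fin | with_reducible apply IntF.sep | with_reducible apply IntF.lam | with_reducible apply IntF.insert | with_reducible apply IntF.singleton | with_reducible apply IntF.union | with_reducible apply IntF.iimage | with_reducible apply IntF.ite | with_reducible apply IntF.the | with_reducible apply IntF.irec | with_reducible apply IntF.succ | with_reducible apply IntF.val | with_reducible apply IntF.mk | (with_reducible refine Int.comp ?_ ?_; assumption) | (with_reducible refine Int.comp₂ ?_ ?_ ?_; assumption) | (with_reducible refine Int.comp₃ ?_ ?_ ?_ ?_; assumption) | (with_reducible refine Int.comp₄ ?_ ?_ ?_ ?_ ?_; assumption) | (with_reducible refine IntF.comp ?_ ?_; assumption) |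 (with_reducible refine IntF.comp₂ ?_ ?_ ?_; assumption) | (with_reducible refine IntF.comp₃ ?_ ?_ ?_ ?_; assumption) | with_reducible apply IntF.pair))
      obtain ⟨V, hV⟩ := exists_set hnI
      have hVo : Helper672.Plain.Mem V tE := (hE _).2 ⟨fun z hz => ((hV _).1 hz).1, fun q hq => by
        obtain ⟨_, h2⟩ := (hV _).1 hq
        obtain ⟨ε, h3, h4⟩ := fin_far hr _ hcf q fun h5 => h2 ((mem_sep hcI).1 h5)
        refine ⟨ε, h3, fun q' hq' => (hV _).2 ⟨q'.2, fun h5 => ?_⟩⟩
        exact absurd hq' (not_lt.2 (h4 q' ((mem_sep hcI).2 h5)))⟩
      obtain ⟨W, hW⟩ := exists_set (N := N) (a := k) (p := fun z => Helper672.Plain.Mem z.1 V) (memI' _ _)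
      refine ⟨fun z hz => ((hc' z).1 hz).2, W, (sub_sub hT hs hk W).2 ⟨V, hVo, fun z => ?_⟩,
        fun z => ?_⟩
      · rw [hW]
        exact ⟨fun ⟨h, h'⟩ => ⟨h', h⟩, fun h => ⟨h.2, h.1⟩⟩
      · rw [hW]
        constructor
        · rintro ⟨h2, h3⟩
          obtain ⟨_, h4⟩ := (hV _).1 h3
          exact ⟨h2, h4⟩
        · rintro ⟨h2, h3⟩
          exact ⟨h2, (hV _).2 ⟨hkr _ h2, h3⟩⟩
  obtain ⟨-, u, hu, hu'⟩ := hcl
  obtain ⟨v, hv, hv'⟩ := (hT u).1 hu
  have h2 : Helper672.Plain.Mem (ψ x).1 v := ((hv' _).1 ((hu' _).2 ⟨hxp, hAx⟩)).1
  obtain ⟨ε, h3, h4⟩ := ((hE v).1 hv).2 (ψ x) h2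
  obtain ⟨y, h5, h6, h7⟩ := hψ.dense E hEf (ψ x) (min 1 (ψ x + ε)) (hψ.pos x).le
    (min_le_left _ _) (lt_min (hψ.lt1 x) (by linarith))
  have h8 : Helper672.Plain.Mem (ψ y).1 v := h4 _ (by
    have h12 := h7.trans_le (min_le_right _ _)
    rw [abs_lt]
    constructor <;> linarith)
  have h9 : Helper672.Plain.Mem (ψ y).1 p := (hp' _).2 ⟨_, rfl, h1 y h5⟩
  refine ((hu' _).1 ((hv' _).2 ⟨h8, h9⟩)).2 ((hA _).2 ⟨(ψ y).2, y, h5, fun h => ?_, rfl⟩)
  rw [h] at h6
  exact lt_irrefl _ h6

end

end Pool.Agent.Q301.SF
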