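import Pool.Agent.Q301.SF.Fz

/-!
# Cohen reals: a zero-dimensional set of real numbers that is not `ℕ`-compact
-/

set_option maxHeartbeats 1000000
set_option linter.all false
set_option synthInstance.maxSize 2000

namespace Pool.Agent.Q301.SF

open FirstOrder FirstOrder.Language
open Pool.Agent.Helper672.ZFA
open Pool.Agent.Helper672.Plain (LSet)
open Pool.Agent.Helper672.ZFA.H635 (toL plainN_ordPair plainN_graph plainN_opGraph
  exists_reals isModel_of_zermelo)
open Pool.Agent.H635Amen (IsReals ZF)
open Pool.Agent.H310Cards (IsOmega IsFinite IsFun App IsInj IsNat)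
open Pool.Agent.H310Top (IsTopology IsClosed IsCompact IsHausdorff)
open Pool.Agent.H310 (FinP finP_iff finP_le finP_lt exists_BN mem_nat nat_iff appN finite_of_finP
  mem_cp extN exists_code instPEl pr int_pr pr_inj)
open Pool.Agent.Q301.TM
open Pool.Agent.Q301.BM (IsUsualTop exists_usual)

universe u u₁

section

attribute [local instance] toL instPEl

variable {N : Type u} [LSet.Structure N] [hM : IsModel N] {δ : Type u₁} [ITy N δ]
variable {r : N} [Field (Helper672.Plain.El r)] [LinearOrder (Helper672.Plain.El r)] [IsStrictOrderedRing (Helper672.Plain.El r)]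

/-- Rational numbers outside a finite set. -/
theorem rat_avoid (hr : IsReals r) (F : IPow N (Helper672.Plain.El r)) (hF : IFin F) : ∀ a b : Helper672.Plain.El r, 0 ≤ a →
    a < b → ∃ x, a < x ∧ x < b ∧ IsRational x ∧ ¬ x ∈ F := by
  obtain ⟨i, hi, hrat, hdense⟩ := exists_rat hr
  have hlt := int_lt hr
  have hle := int_le hr
  have hmul := int_mul hr
  have hsub := int_sub' hr
  simp only [hrat]
  refine IFin.ind (p := fun F : IPow N (Helper672.Plain.El r) => ∀ a b : Helper672.Plain.El r, 0 ≤ a →
    a < b → ∃ x, a < x ∧ x < b ∧ (∃ a b c, i c ≠ 0 ∧ x * i c = i a - i b) ∧ ¬ x ∈ F)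
    (by (repeat' (first | with_reducible exact IntF.id | with_reducible exact IntF.fst' | with_reducible exact IntF.snd' | with_reducible exact IntF.const _ | with_reducible exact Int.const _ | assumption | with_reducible apply Int.and | with_reducible apply Int.or | with_reducible apply Int.not | with_reducible apply Int.imp | with_reducible apply Int.iff | with_reducible apply Int.ne | with_reducible apply Int.eq | with_reducible apply Int.mem | with_reducible apply Int.subset | with_reducible apply Int.ltN | with_reducible apply Int.leN | with_reducible_and_instances apply Int.le | with_reducible_and_instances apply Int.lt | with_reducible apply Int.all | with_reducible apply Int.ex | with_reducible apply IntF.fst | with_reducible apply IntF.snd | with_reducible apply IntF.app | with_reducible apply IntF.inl | with_reducible apply IntF.inr | with_reducible_and_instances apply IntF.mul | with_reducible_and_instances apply IntF.inv | with_reducible_and_instances apply IntF.add | with_reducible_and_instances apply IntF.sub | with_reducible_and_instances apply IntF.neg | with_reducible_and_instances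 apply IntF.smul | with_reducible apply Int.fin | with_reducible apply IntF.sep | with_reducible apply IntF.lam | with_reducible apply IntF.insert | with_reducible apply IntF.singleton | with_reducible apply IntF.union | with_reducible apply IntF.iimage | with_reducible apply IntF.ite | with_reducible apply IntF.the | with_reducible apply IntF.irec | with_reducible apply IntF.succ | with_reducible apply IntF.val | with_reducible apply IntF.mk | (with_reducible refine Int.comp ?_ ?_; assumption) | (with_reducible refine Int.comp₂ ?_ ?_ ?_; assumption) | (with_reducible refine Int.comp₃ ?_ ?_ ?_ ?_; assumption) | (with_reducible refine Int.comp₄ ?_ ?_ ?_ ?_ ?_; assumption) | (with_reducible refine IntF.comp ?_ ?_; assumption) | (with_reducible refine IntF.comp₂ ?_ ?_ ?_; assumption) | (with_reducible refine IntF.comp₃ ?_ ?_ ?_ ?_; assumption) | with_reducible apply IntF.pair))) ?_ ?_ F hF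
  · intro a b ha hab
    obtain ⟨x, h1, h2, h3⟩ := hdense a b ha hab
    exact ⟨x, h1, h2, (hrat x).1 h3, by simp⟩
  · intro s c _ _ ih a b ha hab
    by_cases h : a < c
    · obtain ⟨x, h1, h2, h3, h4⟩ := ih a (min b c) ha (lt_min hab h)
      refine ⟨x, h1, h2.trans_le (min_le_left _ _), h3, fun h5 => ?_⟩
      rcases mem_insert.1 h5 with rfl | h5
      · exact absurd (h2.trans_le (min_le_right _ _)) (lt_irrefl _)
      · exact h4 h5
    · obtain ⟨x, h1, h2, h3, h4⟩ := ih a b ha hab
      refine ⟨x, h1, h2, h3, fun h5 => ?_⟩
      rcases mem_insert.1 h5 with rfl | h5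
      · exact h h1
      · exact h4 h5

variable {ψ : δ → Helper672.Plain.El r} (hr : IsReals r) (hψ : CR ψ)

include hr hψ in
/-- The complement of the set of Cohen reals is dense. -/
theorem co_dense : ∀ a b : Helper672.Plain.El r, 0 ≤ a → a < b → ∃ x, a < x ∧ x < b ∧ ∀ y, ψ y ≠ x := by
  obtain ⟨E, hE, h1⟩ := fin_rat hr hψ
  have hψI := hψ.int
  intro a b ha hab
  obtain ⟨x, h2, h3, h4, h5⟩ := rat_avoid hr (iimage ψ E) (hE.image hψI) a b ha hab
  refine ⟨x, h2, h3, fun y hy => ?_⟩
  by_cases hyE : y ∈ E
  · exact h5 ((mem_iimage hψI).2 ⟨y, hyE, hy⟩)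
  · exact h1 y hyE (hy ▸ h4)

include hr hψ in
theorem not_ncompact : ∃ tE x t : N, IsUsualTop tE r ∧ (∀ z, Helper672.Plain.Mem z x → Helper672.Plain.Mem z r) ∧
    IsSubspace t x tE ∧ IsT1 t x ∧ IsZeroDim t x ∧ ¬ IsNCompact t x := by
  have hψI := hψ.int
  have hlt := int_lt hr
  have hle := int_le hr
  have hcod := co_dense hr hψ
  obtain ⟨tE, hE⟩ := exists_usual (r := r) hr
  have hXI : Int N (fun z : Helper672.Plain.El r => 0 < z ∧ z < 1 ∧ ∀ y, ψ y ≠ z) := by (repeat' (first | with_reducible exact IntF.id | with_reducible exact IntF.fst' | with_reducible exact IntF.snd' | with_reducible exact IntF.const _ | with_reducible exact Int.const _ | assumption | with_reducible apply Int.and | with_reducible apply Int.or | with_reducible apply Int.not | with_reducible apply Int.imp | with_reducible apply Int.iff | with_reducible apply Int.ne | with_reducible apply Int.eq | with_reducible apply Int.mem | with_reducible apply Int.subset | with_reducible apply Int.ltN | with_reducible apply Int.leN | with_reducible_and_instances apply Int.le | with_reducible_and_instances apply Int.lt | with_reducible apply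 Int.all | with_reducible apply Int.ex | with_reducible apply IntF.fst | with_reducible apply IntF.snd | with_reducible apply IntF.app | with_reducible apply IntF.inl | with_reducible apply IntF.inr | with_reducible_and_instances apply IntF.mul | with_reducible_and_instances apply IntF.inv | with_reducible_and_instances apply IntF.add | with_reducible_and_instances apply IntF.sub | with_reducible_and_instances apply IntF.neg | with_reducible_and_instances apply IntF.smul | with_reducible apply Int.fin | with_reducible apply IntF.sep | with_reducible apply IntF.lam | with_reducible apply IntF.insert | with_reducible apply IntF.singleton | with_reducible apply IntF.union | with_reducible apply IntF.iimage | with_reducible apply IntF.ite | with_reducible apply IntF.the | with_reducible apply IntF.irec | with_reducible apply IntF.succ | with_reducible apply IntF.val | with_reducible apply IntF.mk | (with_reducible refine Int.comp ?_ ?_; assumption) | (with_reducible refine Int.comp₂ ?_ ?_ ?_; assumption) | (with_reducible refine Int.comp₃ ?_ ?_ ?_ ?_; assumption) | (with_reducible refine Int.comp₄ ?_ ?_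 ?_ ?_ ?_; assumption) | (with_reducible refine IntF.comp ?_ ?_; assumption) | (with_reducible refine IntF.comp₂ ?_ ?_ ?_; assumption) | (with_reducible refine IntF.comp₃ ?_ ?_ ?_ ?_; assumption) | with_reducible apply IntF.pair))
  obtain ⟨x, hx⟩ := exists_set hXI
  have hxr : ∀ z, Helper672.Plain.Mem z x → Helper672.Plain.Mem z r := fun z hz => ((hx z).1 hz).1
  obtain ⟨ξ, hξI, hξ⟩ : ∃ ξ : Helper672.Plain.El x → Helper672.Plain.El r, IntF N ξ ∧ ∀ p, (ξ p).1 = p.1 := by
    refine ⟨fun p => ⟨p.1, hxr _ p.2⟩, IntF.of_rel (r := fun (p : Helper672.Plain.El x) (z : Helper672.Plain.El r) => p.1 = z.1)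
      (eqI _ _) fun p z => ?_, fun p => rfl⟩
    exact ⟨fun h => Subtype.ext h, fun h => h ▸ rfl⟩
  have hξX : ∀ p : Helper672.Plain.El x, 0 < ξ p ∧ ξ p < 1 ∧ ∀ y, ψ y ≠ ξ p := fun p => by
    obtain ⟨h1, h2⟩ := (hx p.1).1 p.2
    have h3 : (⟨p.1, h1⟩ : Helper672.Plain.El r) = ξ p := Subtype.ext (hξ p).symm
    rwa [← h3]
  have hξs : ∀ z : Helper672.Plain.El r, 0 < z → z < 1 → (∀ y, ψ y ≠ z) → ∃ p : Helper672.Plain.El x, ξ p = z := fun z h1 h2 h3 => by
    refine ⟨⟨z.1, (hx _).2 ⟨z.2, h1, h2, h3⟩⟩, Subtype.ext (hξ _)⟩
  have hξi : ∀ p q, ξ p = ξ q → p = q := fun p q h => Subtype.ext (by rw [← hξ p, ← hξ q, h])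
  -- density of the space
  have hXd : ∀ a b : Helper672.Plain.El r, 0 ≤ a → b ≤ 1 → a < b → ∃ p : Helper672.Plain.El x, a < ξ p ∧ ξ p < b := by
    intro a b ha hb hab
    obtain ⟨z, h1, h2, h3⟩ := hcod a b ha hab
    obtain ⟨p, rfl⟩ := hξs z (ha.trans_lt h1) (h2.trans_le hb) h3
    exact ⟨p, h1, h2⟩
  -- the topology
  have hTI : Int N (fun U : IPow N (Helper672.Plain.El x) => ∃ v : Helper672.Plain.El tE, ∀ z : Helper672.Plain.El x, z ∈ U ↔ Helper672.Plain.Mem z.1 v.1) := by
    (repeat' (first | with_reducible apply memPE | with_reducible apply memPE' | with_reducible apply memPE'' | with_reducible apply memCode | with_reducible apply memCodeP | with_reducible apply memCode₂ | with_reducible apply eqPE | with_reducible apply eqPE' | with_reducible exact IntF.id | with_reducible exact IntF.fst' | with_reducible exact IntF.snd' | with_reducible exact IntF.const _ | with_reducible exact Int.const _ | assumption | with_reducible apply Int.and | with_reducible apply Int.or | with_reducible apply Int.not | with_reducible apply Int.imp | with_reducible apply Int.iff | with_reducible apply Int.ne | with_reducible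 apply Int.eq | with_reducible apply Int.mem | with_reducible apply Int.subset | with_reducible apply Int.ltN | with_reducible apply Int.leN | with_reducible_and_instances apply Int.le | with_reducible_and_instances apply Int.lt | with_reducible apply Int.all | with_reducible apply Int.ex | with_reducible apply IntF.fst | with_reducible apply IntF.snd | with_reducible apply IntF.app | with_reducible apply IntF.inl | with_reducible apply IntF.inr | with_reducible_and_instances apply IntF.mul | with_reducible_and_instances apply IntF.inv | with_reducible_and_instances apply IntF.add | with_reducible_and_instances apply IntF.sub | with_reducible_and_instances apply IntF.neg | with_reducible_and_instances apply IntF.smul | with_reducible apply Int.fin | with_reducible apply IntF.sep | with_reducible apply IntF.lam | with_reducible apply IntF.insert | with_reducible apply IntF.singleton | with_reducible apply IntF.union | with_reducible apply IntF.iimage | with_reducible apply IntF.ite | with_reducible apply IntF.the | with_reducible apply IntF.irec | with_reducible apply IntF.succ | with_reducible apply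 IntF.val | with_reducible apply IntF.mk | (with_reducible refine Int.comp ?_ ?_; assumption) | (with_reducible refine Int.comp₂ ?_ ?_ ?_; assumption) | (with_reducible refine Int.comp₃ ?_ ?_ ?_ ?_; assumption) | (with_reducible refine Int.comp₄ ?_ ?_ ?_ ?_ ?_; assumption) | (with_reducible refine IntF.comp ?_ ?_; assumption) | (with_reducible refine IntF.comp₂ ?_ ?_ ?_; assumption) | (with_reducible refine IntF.comp₃ ?_ ?_ ?_ ?_; assumption) | with_reducible apply IntF.pair))
  obtain ⟨t, hT⟩ : ∃ t, IsSubspace t x tE := by
    refine ⟨code (sep N fun U : IPow N (Helper672.Plain.El x) => ∃ v : Helper672.Plain.El tE, ∀ z : Helper672.Plain.El x, z ∈ U ↔ Helper672.Plain.Mem z.1 v.1),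
      fun u => ?_⟩
    rw [show Helper672.Plain.Mem u (code (sep N fun U : IPow N (Helper672.Plain.El x) => ∃ v : Helper672.Plain.El tE,
      ∀ z : Helper672.Plain.El x, z ∈ U ↔ Helper672.Plain.Mem z.1 v.1)) ↔ _ from mem_cp]
    constructor
    · rintro ⟨U, hU, rfl⟩
      obtain ⟨v, hv⟩ := (mem_sep hTI).1 hU
      refine ⟨v.1, v.2, fun z => ⟨fun hz => ?_, fun hz => ?_⟩⟩
      · obtain ⟨h1, h2⟩ := mem_cpE.1 hz
        exact ⟨(hv _).1 h2, h1⟩
      · exact mem_cpE.2 ⟨hz.2, (hv _).2 hz.1⟩
    · rintro ⟨v, hv, h1⟩
      obtain ⟨U, rfl, hU⟩ := exists_code (a := x) (u := u) fun z hz => ((h1 z).1 hz).2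
      exact ⟨U, (mem_sep hTI).2 ⟨⟨v, hv⟩, fun z => (hU z).trans ⟨fun h => ((h1 _).1 h).1,
        fun h => (h1 _).2 ⟨h, z.2⟩⟩⟩, rfl⟩
  -- open sets
  have hop : ∀ u, (∀ z, Helper672.Plain.Mem z u → Helper672.Plain.Mem z x) → (Helper672.Plain.Mem u t ↔ ∀ p : Helper672.Plain.El x, Helper672.Plain.Mem p.1 u → ∃ ε : Helper672.Plain.El r, 0 < ε ∧
      ∀ q : Helper672.Plain.El x, |ξ q - ξ p| < ε → Helper672.Plain.Mem q.1 u) := by
    intro u hu
    rw [hT u]
    constructor
    · rintro ⟨v, hv, h1⟩ p hp
      obtain ⟨ε, h2, h3⟩ := ((hE v).1 hv).2 (ξ p) (by rw [hξ]; exact ((h1 _).1 hp).1)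
      refine ⟨ε, h2, fun q hq => (h1 _).2 ⟨?_, q.2⟩⟩
      have := h3 (ξ q) hq
      rwa [hξ] at this
    · intro h
      obtain ⟨d, hdI, hd⟩ : ∃ d : Helper672.Plain.El r → Helper672.Plain.El r → Helper672.Plain.El r, IntF N (fun q : Helper672.Plain.El r × Helper672.Plain.El r => d q.1 q.2) ∧
          ∀ a b, d a b = |a - b| := ⟨fun a b => |a - b|, int_dist hr, fun _ _ => rfl⟩
      have hVI : Int N (fun z : Helper672.Plain.El r => ∃ (p : Helper672.Plain.El x) (ε : Helper672.Plain.El r), (∀ q : Helper672.Plain.El x, d (ξ q) (ξ p) < ε →
        Helper672.Plain.Mem q.1 u) ∧ d z (ξ p) < ε) := by (repeat' (first | with_reducible apply memPE | with_reducible apply memPE' | with_reducible apply memPE'' | with_reducible apply memCode | with_reducible apply memCodeP | with_reducible apply memCode₂ | with_reducible apply eqPE | with_reducible apply eqPE' | with_reducible exact IntF.id | with_reducible exact IntF.fst' | with_reducible exact IntF.snd' | with_reducible exact IntF.const _ | with_reducible exact Int.const _ | assumption | with_reducible apply Int.and | with_reducible apply Int.or | with_reducible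 apply Int.not | with_reducible apply Int.imp | with_reducible apply Int.iff | with_reducible apply Int.ne | with_reducible apply Int.eq | with_reducible apply Int.mem | with_reducible apply Int.subset | with_reducible apply Int.ltN | with_reducible apply Int.leN | with_reducible_and_instances apply Int.le | with_reducible_and_instances apply Int.lt | with_reducible apply Int.all | with_reducible apply Int.ex | with_reducible apply IntF.fst | with_reducible apply IntF.snd | with_reducible apply IntF.app | with_reducible apply IntF.inl | with_reducible apply IntF.inr | with_reducible_and_instances apply IntF.mul | with_reducible_and_instances apply IntF.inv | with_reducible_and_instances apply IntF.add | with_reducible_and_instances apply IntF.sub | with_reducible_and_instances apply IntF.neg | with_reducible_and_instances apply IntF.smul | with_reducible apply Int.fin | with_reducible apply IntF.sep | with_reducible apply IntF.lam | with_reducible apply IntF.insert | with_reducible apply IntF.singleton | with_reducible apply IntF.union | with_reducible apply IntF.iimage | with_reducible apply IntF.ite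 | with_reducible apply IntF.the | with_reducible apply IntF.irec | with_reducible apply IntF.succ | with_reducible apply IntF.val | with_reducible apply IntF.mk | (with_reducible refine Int.comp ?_ ?_; assumption) | (with_reducible refine Int.comp₂ ?_ ?_ ?_; assumption) | (with_reducible refine Int.comp₃ ?_ ?_ ?_ ?_; assumption) | (with_reducible refine Int.comp₄ ?_ ?_ ?_ ?_ ?_; assumption) | (with_reducible refine IntF.comp ?_ ?_; assumption) | (with_reducible refine IntF.comp₂ ?_ ?_ ?_; assumption) | (with_reducible refine IntF.comp₃ ?_ ?_ ?_ ?_; assumption) | with_reducible apply IntF.pair))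
      obtain ⟨v, hv⟩ := exists_set hVI
      refine ⟨v, (hE v).2 ⟨fun z hz => ((hv z).1 hz).1, fun z hz => ?_⟩, fun z => ⟨fun hz => ?_,
        fun hz => ?_⟩⟩
      · obtain ⟨_, p, ε, h1, h2⟩ := (hv _).1 hz
        have h2 : d z (ξ p) < ε := h2
        refine ⟨ε - d z (ξ p), sub_pos.2 h2, fun z' hz' => (hv _).2 ⟨z'.2, p, ε, h1, ?_⟩⟩
        have h3 : |z' - ξ p| ≤ |z' - z| + |z - ξ p| := abs_sub_le _ _ _
        change d z' (ξ p) < ε
        rw [hd] at hz' ⊢
        linarith
      · obtain ⟨p, rfl⟩ : ∃ p : Helper672.Plain.El x, p.1 = z := ⟨⟨z, hu z hz⟩, rfl⟩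
        obtain ⟨ε, h1, h2⟩ := h p hz
        refine ⟨(hv _).2 ⟨hxr _ p.2, p, ε, fun q hq => h2 q (by rwa [hd] at hq), ?_⟩, p.2⟩
        have h3 : (⟨p.1, hxr _ p.2⟩ : Helper672.Plain.El r) = ξ p := Subtype.ext (hξ p).symm
        change d ⟨p.1, hxr _ p.2⟩ (ξ p) < ε
        rw [h3, hd, sub_self, abs_zero]
        exact h1
      · obtain ⟨h1, h2⟩ := hz
        obtain ⟨_, p, ε, h3, h4⟩ := (hv _).1 h1
        refine h3 ⟨z, h2⟩ ?_
        have h5 : ξ ⟨z, h2⟩ = ⟨z, hxr _ h2⟩ := Subtype.ext (hξ _)
        rw [h5]
        exact h4
  refine ⟨tE, x, t, hE, hxr, hT, ?_, ?_, ?_⟩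
  · -- `T₁`
    intro p
    obtain ⟨c, hc⟩ := exists_set (N := N) (a := x) (p := fun z => z.1 = p.1) (eqI' _ _)
    have hnI : Int N (fun z : Helper672.Plain.El x => ¬ z.1 = p.1) := by
      have := eqI' (N := N) x p.1
      (repeat' (first | with_reducible apply memPE | with_reducible apply memPE' | with_reducible apply memPE'' | with_reducible apply memCode | with_reducible apply memCodeP | with_reducible apply memCode₂ | with_reducible apply eqPE | with_reducible apply eqPE' | with_reducible exact IntF.id | with_reducible exact IntF.fst' | with_reducible exact IntF.snd' | with_reducible exact IntF.const _ | with_reducible exact Int.const _ | assumption | with_reducible apply Int.and | with_reducible apply Int.or | with_reducible apply Int.not | with_reducible apply Int.imp | with_reducible apply Int.iff | with_reducible apply Int.ne | with_reducible apply Int.eq | with_reducible apply Int.mem | with_reducible apply Int.subset | with_reducible apply Int.ltN | with_reducible apply Int.leN | with_reducible_and_instances apply Int.le | with_reducible_and_instances apply Int.lt | with_reducible apply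 Int.all | with_reducible apply Int.ex | with_reducible apply IntF.fst | with_reducible apply IntF.snd | with_reducible apply IntF.app | with_reducible apply IntF.inl | with_reducible apply IntF.inr | with_reducible_and_instances apply IntF.mul | with_reducible_and_instances apply IntF.inv | with_reducible_and_instances apply IntF.add | with_reducible_and_instances apply IntF.sub | with_reducible_and_instances apply IntF.neg | with_reducible_and_instances apply IntF.smul | with_reducible apply Int.fin | with_reducible apply IntF.sep | with_reducible apply IntF.lam | with_reducible apply IntF.insert | with_reducible apply IntF.singleton | with_reducible apply IntF.union | with_reducible apply IntF.iimage | with_reducible apply IntF.ite | with_reducible apply IntF.the | with_reducible apply IntF.irec | with_reducible apply IntF.succ | with_reducible apply IntF.val | with_reducible apply IntF.mk | (with_reducible refine Int.comp ?_ ?_; assumption) | (with_reducible refine Int.comp₂ ?_ ?_ ?_; assumption) | (with_reducible refine Int.comp₃ ?_ ?_ ?_ ?_; assumption) | (with_reducible refine Int.comp₄ ?_ ?_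 ?_ ?_ ?_; assumption) | (with_reducible refine IntF.comp ?_ ?_; assumption) | (with_reducible refine IntF.comp₂ ?_ ?_ ?_; assumption) | (with_reducible refine IntF.comp₃ ?_ ?_ ?_ ?_; assumption) | with_reducible apply IntF.pair))
    obtain ⟨c', hc'⟩ := exists_set hnI
    refine ⟨c, ⟨fun z hz => ((hc z).1 hz).1, c', ?_, fun z => ?_⟩, fun z => ?_⟩
    · refine (hop c' fun z hz => ((hc' z).1 hz).1).2 fun q hq => ?_
      obtain ⟨_, h1⟩ := (hc' _).1 hq
      have h2 : ξ q ≠ ξ p := fun h => h1 (congrArg Subtype.val (hξi _ _ h))
      refine ⟨|ξ p - ξ q|, abs_pos.2 (sub_ne_zero.2 h2.symm), fun q' hq' => (hc' _).2 ⟨q'.2, fun h3 => ?_⟩⟩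
      have h4 : q' = p := Subtype.ext h3
      rw [h4] at hq'
      exact lt_irrefl _ hq'
    · rw [hc', hc]
      exact ⟨fun ⟨h, h'⟩ => ⟨h, fun ⟨_, h2⟩ => h' h2⟩, fun ⟨h, h'⟩ => ⟨h, fun h2 => h' ⟨h, h2⟩⟩⟩
    · rw [hc]
      exact ⟨fun ⟨_, h⟩ => h, fun h => ⟨h ▸ p.2, h⟩⟩
  · -- zero-dimensional
    intro u hu p hp
    have hux : ∀ z, Helper672.Plain.Mem z u → Helper672.Plain.Mem z x := fun z hz => by
      obtain ⟨v, -, h1⟩ := (hT u).1 hu
      exact ((h1 z).1 hz).2
    obtain ⟨p, rfl⟩ : ∃ q : Helper672.Plain.El x, q.1 = p := ⟨⟨p, hux p hp⟩, rfl⟩
    obtain ⟨ε, hε, h1⟩ := (hop u hux).1 hu p hp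
    obtain ⟨hp0, hp1, -⟩ := hξX p
    obtain ⟨y, -, h2, h3⟩ := hψ.dense ∅ IFin.empty (max 0 (ξ p - ε)) (ξ p) (le_max_left _ _)
      hp1.le (max_lt hp0 (by linarith))
    obtain ⟨y', -, h4, h5⟩ := hψ.dense ∅ IFin.empty (ξ p) (min 1 (ξ p + ε)) hp0.le
      (min_le_left _ _) (lt_min hp1 (by linarith))
    have hvI : Int N (fun z : Helper672.Plain.El x => ψ y < ξ z ∧ ξ z < ψ y') := by (repeat' (first | with_reducible exact IntF.id | with_reducible exact IntF.fst' | with_reducible exact IntF.snd' | with_reducible exact IntF.const _ | with_reducible exact Int.const _ | assumption | with_reducible apply Int.and | with_reducible apply Int.or | with_reducible apply Int.not | with_reducible apply Int.imp | with_reducible apply Int.iff | with_reducible apply Int.ne | with_reducible apply Int.eq | with_reducible apply Int.mem | with_reducible apply Int.subset | with_reducible apply Int.ltN | with_reducible apply Int.leN | with_reducible_and_instances apply Int.le | with_reducible_and_instances apply Int.lt | with_reducible apply Int.all | with_reducible apply Int.ex | with_reducible apply IntF.fst | with_reducible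 apply IntF.snd | with_reducible apply IntF.app | with_reducible apply IntF.inl | with_reducible apply IntF.inr | with_reducible_and_instances apply IntF.mul | with_reducible_and_instances apply IntF.inv | with_reducible_and_instances apply IntF.add | with_reducible_and_instances apply IntF.sub | with_reducible_and_instances apply IntF.neg | with_reducible_and_instances apply IntF.smul | with_reducible apply Int.fin | with_reducible apply IntF.sep | with_reducible apply IntF.lam | with_reducible apply IntF.insert | with_reducible apply IntF.singleton | with_reducible apply IntF.union | with_reducible apply IntF.iimage | with_reducible apply IntF.ite | with_reducible apply IntF.the | with_reducible apply IntF.irec | with_reducible apply IntF.succ | with_reducible apply IntF.val | with_reducible apply IntF.mk | (with_reducible refine Int.comp ?_ ?_; assumption) | (with_reducible refine Int.comp₂ ?_ ?_ ?_; assumption) | (with_reducible refine Int.comp₃ ?_ ?_ ?_ ?_; assumption) | (with_reducible refine Int.comp₄ ?_ ?_ ?_ ?_ ?_; assumption) | (with_reducible refine IntF.comp ?_ ?_; assumption) | (with_reducible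 refine IntF.comp₂ ?_ ?_ ?_; assumption) | (with_reducible refine IntF.comp₃ ?_ ?_ ?_ ?_; assumption) | with_reducible apply IntF.pair))
    have hvI' : Int N (fun z : Helper672.Plain.El x => ¬ (ψ y < ξ z ∧ ξ z < ψ y')) := by (repeat' (first | with_reducible exact IntF.id | with_reducible exact IntF.fst' | with_reducible exact IntF.snd' | with_reducible exact IntF.const _ | with_reducible exact Int.const _ | assumption | with_reducible apply Int.and | with_reducible apply Int.or | with_reducible apply Int.not | with_reducible apply Int.imp | with_reducible apply Int.iff | with_reducible apply Int.ne | with_reducible apply Int.eq | with_reducible apply Int.mem | with_reducible apply Int.subset | with_reducible apply Int.ltN | with_reducible apply Int.leN | with_reducible_and_instances apply Int.le | with_reducible_and_instances apply Int.lt | with_reducible apply Int.all | with_reducible apply Int.ex | with_reducible apply IntF.fst | with_reducible apply IntF.snd | with_reducible apply IntF.app | with_reducible apply IntF.inl | with_reducible apply IntF.inr | with_reducible_and_instances apply IntF.mul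 | with_reducible_and_instances apply IntF.inv | with_reducible_and_instances apply IntF.add | with_reducible_and_instances apply IntF.sub | with_reducible_and_instances apply IntF.neg | with_reducible_and_instances apply IntF.smul | with_reducible apply Int.fin | with_reducible apply IntF.sep | with_reducible apply IntF.lam | with_reducible apply IntF.insert | with_reducible apply IntF.singleton | with_reducible apply IntF.union | with_reducible apply IntF.iimage | with_reducible apply IntF.ite | with_reducible apply IntF.the | with_reducible apply IntF.irec | with_reducible apply IntF.succ | with_reducible apply IntF.val | with_reducible apply IntF.mk | (with_reducible refine Int.comp ?_ ?_; assumption) | (with_reducible refine Int.comp₂ ?_ ?_ ?_; assumption) | (with_reducible refine Int.comp₃ ?_ ?_ ?_ ?_; assumption) | (with_reducible refine Int.comp₄ ?_ ?_ ?_ ?_ ?_; assumption) | (with_reducible refine IntF.comp ?_ ?_; assumption) | (with_reducible refine IntF.comp₂ ?_ ?_ ?_; assumption) | (with_reducible refine IntF.comp₃ ?_ ?_ ?_ ?_; assumption) | with_reducible apply IntF.pair))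
    obtain ⟨v, hv⟩ := exists_set hvI
    obtain ⟨v', hv'⟩ := exists_set hvI'
    have hvx : ∀ z, Helper672.Plain.Mem z v → Helper672.Plain.Mem z x := fun z hz => ((hv z).1 hz).1
    refine ⟨v, ⟨(hop v hvx).2 fun q hq => ?_, hvx, v', (hop v' fun z hz => ((hv' z).1 hz).1).2
      fun q hq => ?_, fun z => ?_⟩, (hv _).2 ⟨p.2, h3, h4⟩, fun z hz => ?_⟩
    · obtain ⟨_, h6, h7⟩ := (hv _).1 hq
      have h6 : ψ y < ξ q := h6
      have h7 : ξ q < ψ y' := h7
      refine ⟨min (ξ q - ψ y) (ψ y' - ξ q), lt_min (sub_pos.2 h6) (sub_pos.2 h7), fun q' hq' =>
        (hv _).2 ⟨q'.2, ?_, ?_⟩⟩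
      · have h8 := (abs_lt.1 (hq'.trans_le (min_le_left _ _))).1
        change ψ y < ξ q'
        linarith
      · have h8 := (abs_lt.1 (hq'.trans_le (min_le_right _ _))).2
        change ξ q' < ψ y'
        linarith
    · obtain ⟨_, h6⟩ := (hv' _).1 hq
      have h6 : ¬ (ψ y < ξ q ∧ ξ q < ψ y') := h6
      obtain ⟨-, -, h7⟩ := hξX q
      by_cases h8 : ψ y < ξ q
      · have h9 : ψ y' < ξ q := lt_of_le_of_ne (not_lt.1 fun h => h6 ⟨h8, h⟩) (h7 y')
        refine ⟨ξ q - ψ y', sub_pos.2 h9, fun q' hq' => (hv' _).2 ⟨q'.2, fun h10 => ?_⟩⟩
        have h11 := (abs_lt.1 hq').1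
        have h12 : ξ q' < ψ y' := h10.2
        linarith
      · have h9 : ξ q < ψ y := lt_of_le_of_ne (not_lt.1 h8) (h7 y).symm
        refine ⟨ψ y - ξ q, sub_pos.2 h9, fun q' hq' => (hv' _).2 ⟨q'.2, fun h10 => ?_⟩⟩
        have h11 := (abs_lt.1 hq').2
        have h12 : ψ y < ξ q' := h10.1
        linarith
    · rw [hv', hv]
      exact ⟨fun ⟨h, h'⟩ => ⟨h, fun ⟨_, h2⟩ => h' h2⟩, fun ⟨h, h'⟩ => ⟨h, fun h2 => h' ⟨h, h2⟩⟩⟩
    · obtain ⟨h6, h7, h8⟩ := (hv z).1 hz
      have h7 : ψ y < ξ ⟨z, h6⟩ := h7
      have h8 : ξ ⟨z, h6⟩ < ψ y' := h8
      refine h1 ⟨z, h6⟩ (abs_lt.2 ⟨?_, ?_⟩)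
      · have h9 := (le_max_right (0 : Helper672.Plain.El r) (ξ p - ε)).trans_lt h2
        linarith
      · have h9 := h5.trans_le (min_le_right _ _)
        linarith
  · -- not `ℕ`-compact
    rintro ⟨w, j, e, hw, -, heM, hinj, htop, hcl⟩
    obtain ⟨ν, hν, hν', -⟩ := omega_equiv hw
    have heI := isMap₂_iff.1 heM
    obtain ⟨f, hf, hfe⟩ : ∃ f : Helper672.Plain.El j → Helper672.Plain.El x → INat N, IntF N (fun q : Helper672.Plain.El j × Helper672.Plain.El x => f q.1 q.2) ∧
        ∀ i p, f i p = ν (e p i) := by
      refine ⟨fun i p => ν (e p i), IntF.comp (g := fun n => ν n) hν (IntF.comp₂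
        (p := fun (p : Helper672.Plain.El x) (i : Helper672.Plain.El j) => e p i) heI IntF.snd' IntF.fst'), fun _ _ => rfl⟩
    obtain ⟨d, hdI, hd⟩ : ∃ d : Helper672.Plain.El r → Helper672.Plain.El r → Helper672.Plain.El r, IntF N (fun q : Helper672.Plain.El r × Helper672.Plain.El r => d q.1 q.2) ∧
        ∀ a b, d a b = |a - b| := ⟨fun a b => |a - b|, int_dist hr, fun _ _ => rfl⟩
    -- local constancy at the points of the space
    have hloc : ∀ i (p : Helper672.Plain.El x), ∃ ε : Helper672.Plain.El r, 0 < ε ∧ ∀ q : Helper672.Plain.El x, |ξ q - ξ p| < ε → f i q = f i p := by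
      intro i p
      have hI : Int N (fun q : Helper672.Plain.El x => e q i = e p i) := by (repeat' (first | with_reducible exact IntF.id | with_reducible exact IntF.fst' | with_reducible exact IntF.snd' | with_reducible exact IntF.const _ | with_reducible exact Int.const _ | assumption | with_reducible apply Int.and | with_reducible apply Int.or | with_reducible apply Int.not | with_reducible apply Int.imp | with_reducible apply Int.iff | with_reducible apply Int.ne | with_reducible apply Int.eq | with_reducible apply Int.mem | with_reducible apply Int.subset | with_reducible apply Int.ltN | with_reducible apply Int.leN | with_reducible_and_instances apply Int.le | with_reducible_and_instances apply Int.lt | with_reducible apply Int.all | with_reducible apply Int.ex | with_reducible apply IntF.fst | with_reducible apply IntF.snd | with_reducible apply IntF.app | with_reducible apply IntF.inl | with_reducible apply IntF.inr | with_reducible_and_instances apply IntF.mul | with_reducible_and_instances apply IntF.inv | with_reducible_and_instances apply IntF.add | with_reducible_and_instances apply IntF.sub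 | with_reducible_and_instances apply IntF.neg | with_reducible_and_instances apply IntF.smul | with_reducible apply Int.fin | with_reducible apply IntF.sep | with_reducible apply IntF.lam | with_reducible apply IntF.insert | with_reducible apply IntF.singleton | with_reducible apply IntF.union | with_reducible apply IntF.iimage | with_reducible apply IntF.ite | with_reducible apply IntF.the | with_reducible apply IntF.irec | with_reducible apply IntF.succ | with_reducible apply IntF.val | with_reducible apply IntF.mk | (with_reducible refine Int.comp ?_ ?_; assumption) | (with_reducible refine Int.comp₂ ?_ ?_ ?_; assumption) | (with_reducible refine Int.comp₃ ?_ ?_ ?_ ?_; assumption) | (with_reducible refine Int.comp₄ ?_ ?_ ?_ ?_ ?_; assumption) | (with_reducible refine IntF.comp ?_ ?_; assumption) | (with_reducible refine IntF.comp₂ ?_ ?_ ?_; assumption) | (with_reducible refine IntF.comp₃ ?_ ?_ ?_ ?_; assumption) | with_reducible apply IntF.pair))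
      obtain ⟨u, hu⟩ := exists_set hI
      have hux : ∀ z, Helper672.Plain.Mem z u → Helper672.Plain.Mem z x := fun z hz => ((hu z).1 hz).1
      have h1 : Helper672.Plain.Mem u t := (htop u hux).2 fun q hq => by
        obtain ⟨_, h2⟩ := (hu _).1 hq
        refine ⟨code ({i} : IPow N (Helper672.Plain.El j)), finite_code (IFin.singleton _), fun q' hq' =>
          (hu _).2 ⟨q'.2, ?_⟩⟩
        exact (hq' i (mem_cpE'.2 (mem_singleton.2 rfl))).trans h2
      obtain ⟨ε, h2, h3⟩ := (hop u hux).1 h1 p ((hu _).2 ⟨p.2, rfl⟩)
      refine ⟨ε, h2, fun q hq => ?_⟩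
      obtain ⟨_, h4⟩ := (hu _).1 (h3 q hq)
      rw [hfe, hfe]
      exact congrArg ν h4
    -- local constancy at almost all Cohen reals
    have hexc : ∀ i, ∃ E : IPow N δ, IFin E ∧ ∀ y, ¬ y ∈ E → ∃ ε : Helper672.Plain.El r, 0 < ε ∧
        ∀ p q : Helper672.Plain.El x, |ξ p - ψ y| < ε → |ξ q - ψ y| < ε → f i p = f i q := by
      intro i
      obtain ⟨E, hEf, h1⟩ := hψ.hom (fun c => ¬ ∃ ε : Helper672.Plain.El r, 0 < ε ∧ ∀ p q : Helper672.Plain.El x,
        d (ξ p) (ψ c.1) < ε → d (ξ q) (ψ c.1) < ε → f i p = f i q) (by (repeat' (first | with_reducible exact IntF.id | with_reducible exact IntF.fst' | with_reducible exact IntF.snd' | with_reducible exact IntF.const _ | with_reducible exact Int.const _ | assumption | with_reducible apply Int.and | with_reducible apply Int.or | with_reducible apply Int.not | with_reducible apply Int.imp | with_reducible apply Int.iff | with_reducible apply Int.ne | with_reducible apply Int.eq | with_reducible apply Int.mem | with_reducible apply Int.subset | with_reducible apply Int.ltN | with_reducible apply Int.leN | with_reducible_and_instances apply Int.le | with_reducible_and_instances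 apply Int.lt | with_reducible apply Int.all | with_reducible apply Int.ex | with_reducible apply IntF.fst | with_reducible apply IntF.snd | with_reducible apply IntF.app | with_reducible apply IntF.inl | with_reducible apply IntF.inr | with_reducible_and_instances apply IntF.mul | with_reducible_and_instances apply IntF.inv | with_reducible_and_instances apply IntF.add | with_reducible_and_instances apply IntF.sub | with_reducible_and_instances apply IntF.neg | with_reducible_and_instances apply IntF.smul | with_reducible apply Int.fin | with_reducible apply IntF.sep | with_reducible apply IntF.lam | with_reducible apply IntF.insert | with_reducible apply IntF.singleton | with_reducible apply IntF.union | with_reducible apply IntF.iimage | with_reducible apply IntF.ite | with_reducible apply IntF.the | with_reducible apply IntF.irec | with_reducible apply IntF.succ | with_reducible apply IntF.val | with_reducible apply IntF.mk | (with_reducible refine Int.comp ?_ ?_; assumption) | (with_reducible refine Int.comp₂ ?_ ?_ ?_; assumption) | (with_reducible refine Int.comp₃ ?_ ?_ ?_ ?_; assumption) | (with_reducible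 refine Int.comp₄ ?_ ?_ ?_ ?_ ?_; assumption) | (with_reducible refine IntF.comp ?_ ?_; assumption) | (with_reducible refine IntF.comp₂ ?_ ?_ ?_; assumption) | (with_reducible refine IntF.comp₃ ?_ ?_ ?_ ?_; assumption) | with_reducible apply IntF.pair)))
      refine ⟨E, hEf, fun y hy => ?_⟩
      by_contra hc
      obtain ⟨ε, E', hε, hE', h2⟩ := h1 y hy (0, 0) (by
        simp only [hd]
        exact hc)
      obtain ⟨p, h3, h4⟩ := hXd (ψ y) (min 1 (ψ y + ε)) (hψ.pos y).le (min_le_left _ _)
        (lt_min (hψ.lt1 y) (by linarith))
      obtain ⟨η, hη, h5⟩ := hloc i p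
      obtain ⟨y', h6, h7, h8⟩ := hψ.dense E' hE' (ξ p) (min (min 1 (ψ y + ε)) (ξ p + η))
        (hξX p).1.le ((min_le_left _ _).trans (min_le_left _ _)) (lt_min h4 (by linarith))
      refine h2 y' h6 (abs_lt.2 ⟨by linarith, ?_⟩) ?_
      · have := h8.trans_le ((min_le_left _ _).trans (min_le_right _ _))
        linarith
      · have h9 := h8.trans_le (min_le_right _ _)
        refine ⟨min (ψ y' - ξ p) (ξ p + η - ψ y'), lt_min (sub_pos.2 h7) (sub_pos.2 h9),
          fun q q' hq hq' => ?_⟩
        have key : ∀ q : Helper672.Plain.El x, d (ξ q) (ψ y') < min (ψ y' - ξ p) (ξ p + η - ψ y') →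
            f i q = f i p := by
          intro q hq
          rw [hd] at hq
          refine h5 q (abs_lt.2 ⟨?_, ?_⟩)
          · have := (abs_lt.1 (hq.trans_le (min_le_left _ _))).1
            linarith
          · have := (abs_lt.1 (hq.trans_le (min_le_right _ _))).2
            linarith
        rw [key q hq, key q' hq']
    -- a Cohen real
    obtain ⟨y₀, -, -, -⟩ := hψ.dense ∅ IFin.empty 0 1 le_rfl le_rfl one_pos
    have hleft : ∀ i, ∃ n, ∃ c : Helper672.Plain.El r, c < ψ y₀ ∧ ∀ p : Helper672.Plain.El x, c < ξ p → ξ p < ψ y₀ → f i p = n := by
      intro i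
      obtain ⟨E, hEf, h1⟩ := hexc i
      have hFI : Int N (fun z : Helper672.Plain.El r => z ∈ iimage ψ E ∧ z ≠ ψ y₀) := by (repeat' (first | with_reducible exact IntF.id | with_reducible exact IntF.fst' | with_reducible exact IntF.snd' | with_reducible exact IntF.const _ | with_reducible exact Int.const _ | assumption | with_reducible apply Int.and | with_reducible apply Int.or | with_reducible apply Int.not | with_reducible apply Int.imp | with_reducible apply Int.iff | with_reducible apply Int.ne | with_reducible apply Int.eq | with_reducible apply Int.mem | with_reducible apply Int.subset | with_reducible apply Int.ltN | with_reducible apply Int.leN | with_reducible_and_instances apply Int.le | with_reducible_and_instances apply Int.lt | with_reducible apply Int.all | with_reducible apply Int.ex | with_reducible apply IntF.fst | with_reducible apply IntF.snd | with_reducible apply IntF.app | with_reducible apply IntF.inl | with_reducible apply IntF.inr | with_reducible_and_instances apply IntF.mul | with_reducible_and_instances apply IntF.inv | with_reducible_and_instances apply IntF.add | with_reducible_and_instances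 apply IntF.sub | with_reducible_and_instances apply IntF.neg | with_reducible_and_instances apply IntF.smul | with_reducible apply Int.fin | with_reducible apply IntF.sep | with_reducible apply IntF.lam | with_reducible apply IntF.insert | with_reducible apply IntF.singleton | with_reducible apply IntF.union | with_reducible apply IntF.iimage | with_reducible apply IntF.ite | with_reducible apply IntF.the | with_reducible apply IntF.irec | with_reducible apply IntF.succ | with_reducible apply IntF.val | with_reducible apply IntF.mk | (with_reducible refine Int.comp ?_ ?_; assumption) | (with_reducible refine Int.comp₂ ?_ ?_ ?_; assumption) | (with_reducible refine Int.comp₃ ?_ ?_ ?_ ?_; assumption) | (with_reducible refine Int.comp₄ ?_ ?_ ?_ ?_ ?_; assumption) | (with_reducible refine IntF.comp ?_ ?_; assumption) | (with_reducible refine IntF.comp₂ ?_ ?_ ?_; assumption) | (with_reducible refine IntF.comp₃ ?_ ?_ ?_ ?_; assumption) | with_reducible apply IntF.pair))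
      have hFf : IFin (sep N fun z : Helper672.Plain.El r => z ∈ iimage ψ E ∧ z ≠ ψ y₀) :=
        (hEf.image hψI).subset fun z hz => ((mem_sep hFI).1 hz).1
      obtain ⟨ε, hε, h2⟩ := fin_far hr _ hFf (ψ y₀) fun h => ((mem_sep hFI).1 h).2 rfl
      -- local constancy on an interval
      have hlc : ∀ z : Helper672.Plain.El r, 0 < z → z < ψ y₀ → ψ y₀ - ε < z → ∃ η : Helper672.Plain.El r, 0 < η ∧
          ∀ p q : Helper672.Plain.El x, |ξ p - z| < η → |ξ q - z| < η → f i p = f i q := by
        intro z h3 h4 h5
        by_cases h6 : ∃ y, ψ y = z
        · obtain ⟨y, rfl⟩ := h6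
          refine h1 y fun hy => ?_
          have h7 := h2 (ψ y) ((mem_sep hFI).2 ⟨(mem_iimage hψI).2 ⟨y, hy, rfl⟩, h4.ne⟩)
          rw [abs_sub_comm, abs_of_pos (sub_pos.2 h4)] at h7
          linarith
        · push Not at h6
          obtain ⟨p, rfl⟩ := hξs z h3 (h4.trans (hψ.lt1 y₀)) h6
          obtain ⟨η, hη, h7⟩ := hloc i p
          exact ⟨η, hη, fun q q' hq hq' => (h7 q hq).trans (h7 q' hq').symm⟩
      obtain ⟨p₀, h3, h4⟩ := hXd (max 0 (ψ y₀ - ε)) (ψ y₀) (le_max_left _ _) (hψ.lt1 y₀).le
        (max_lt (hψ.pos y₀) (by linarith))
      have h3' := (le_max_right _ _).trans_lt h3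
      refine ⟨f i p₀, ξ p₀, h4, fun p hp hp' => ?_⟩
      by_contra hne
      have hSI : Int N (fun z : Helper672.Plain.El r => ξ p₀ ≤ z ∧ z ≤ ξ p ∧ ∀ q : Helper672.Plain.El x, ξ p₀ ≤ ξ q → ξ q ≤ z →
        f i q = f i p₀) := by (repeat' (first | with_reducible exact IntF.id | with_reducible exact IntF.fst' | with_reducible exact IntF.snd' | with_reducible exact IntF.const _ | with_reducible exact Int.const _ | assumption | with_reducible apply Int.and | with_reducible apply Int.or | with_reducible apply Int.not | with_reducible apply Int.imp | with_reducible apply Int.iff | with_reducible apply Int.ne | with_reducible apply Int.eq | with_reducible apply Int.mem | with_reducible apply Int.subset | with_reducible apply Int.ltN | with_reducible apply Int.leN | with_reducible_and_instances apply Int.le | with_reducible_and_instances apply Int.lt | with_reducible apply Int.all | with_reducible apply Int.ex | with_reducible apply IntF.fst | with_reducible apply IntF.snd | with_reducible apply IntF.app | with_reducible apply IntF.inl | with_reducible apply IntF.inr | with_reducible_and_instances apply IntF.mul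 | with_reducible_and_instances apply IntF.inv | with_reducible_and_instances apply IntF.add | with_reducible_and_instances apply IntF.sub | with_reducible_and_instances apply IntF.neg | with_reducible_and_instances apply IntF.smul | with_reducible apply Int.fin | with_reducible apply IntF.sep | with_reducible apply IntF.lam | with_reducible apply IntF.insert | with_reducible apply IntF.singleton | with_reducible apply IntF.union | with_reducible apply IntF.iimage | with_reducible apply IntF.ite | with_reducible apply IntF.the | with_reducible apply IntF.irec | with_reducible apply IntF.succ | with_reducible apply IntF.val | with_reducible apply IntF.mk | (with_reducible refine Int.comp ?_ ?_; assumption) | (with_reducible refine Int.comp₂ ?_ ?_ ?_; assumption) | (with_reducible refine Int.comp₃ ?_ ?_ ?_ ?_; assumption) | (with_reducible refine Int.comp₄ ?_ ?_ ?_ ?_ ?_; assumption) | (with_reducible refine IntF.comp ?_ ?_; assumption) | (with_reducible refine IntF.comp₂ ?_ ?_ ?_; assumption) | (with_reducible refine IntF.comp₃ ?_ ?_ ?_ ?_; assumption) | with_reducible apply IntF.pair))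
      obtain ⟨S, hS⟩ := exists_set hSI
      have h0S : Helper672.Plain.Mem (ξ p₀).1 S := (hS _).2 ⟨(ξ p₀).2, le_rfl, hp.le, fun q hq hq' => by
        rw [hξi q p₀ (le_antisymm hq' hq)]⟩
      obtain ⟨s, hs1, hs2⟩ := hr.complete ⟨S, fun z hz => ((hS z).1 hz).1⟩ ⟨_, h0S⟩
        ⟨ξ p, fun w hw => ((hS w.1).1 hw).2.2.1⟩
      have hs0 : ξ p₀ ≤ s := hs1 h0S
      have hsp : s ≤ ξ p := hs2 fun w hw => ((hS w.1).1 hw).2.2.1
      have hbel : ∀ q : Helper672.Plain.El x, ξ p₀ ≤ ξ q → ξ q < s → f i q = f i p₀ := by
        intro q hq hqs
        by_contra hc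
        have h5 : s ≤ ξ q := hs2 fun w hw => by
          obtain ⟨_, h6, h7, h8⟩ := (hS w.1).1 hw
          by_contra h9
          exact hc (h8 q hq (not_le.1 h9).le)
        exact absurd hqs (not_lt.2 h5)
      obtain ⟨η, hη, h5⟩ := hlc s ((hξX p₀).1.trans_le hs0) (hsp.trans_lt hp') (h3'.trans_le hs0)
      -- the value near `s`
      have hnear : ∀ q : Helper672.Plain.El x, |ξ q - s| < η → f i q = f i p₀ := by
        intro q hq
        rcases hs0.lt_or_eq with h6 | h6
        · obtain ⟨q', h7, h8⟩ := hXd (max (ξ p₀) (s - η)) s ((hξX p₀).1.le.trans (le_max_left _ _))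
            (hsp.trans (hξX p).2.1.le) (max_lt h6 (by linarith))
          rw [h5 q q' hq (abs_lt.2 ⟨by linarith [(le_max_right (ξ p₀) (s - η)).trans_lt h7],
            by linarith⟩)]
          exact hbel q' ((le_max_left _ _).trans h7.le) h8
        · refine h5 q p₀ hq ?_
          rw [h6, sub_self, abs_zero]
          exact hη
      rcases hsp.lt_or_eq with h6 | h6
      · have h7 : Helper672.Plain.Mem (min (ξ p) (s + η / 2)).1 S := (hS _).2 ⟨(min (ξ p) (s + η / 2)).2,
          le_min hp.le (by linarith), min_le_left _ _, fun q hq hq' => by
            by_cases h8 : ξ q < s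
            · exact hbel q hq h8
            · refine hnear q (abs_lt.2 ⟨by linarith [not_lt.1 h8], ?_⟩)
              have h9 : ξ q ≤ min (ξ p) (s + η / 2) := hq'
              have h10 := h9.trans (min_le_right _ _)
              linarith⟩
        have h8 : min (ξ p) (s + η / 2) ≤ s := hs1 h7
        have h9 : s < min (ξ p) (s + η / 2) := lt_min h6 (by linarith)
        exact absurd h9 (not_lt.2 h8)
      · exact hne (hnear p (by
          rw [h6, sub_self, abs_zero]
          exact hη))
    choose Y hY using hleft
    have hYI : IntF N Y := by
      refine IntF.of_unique (p := fun (i : Helper672.Plain.El j) (n : INat N) => ∃ c : Helper672.Plain.El r, c < ψ y₀ ∧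
        ∀ p : Helper672.Plain.El x, c < ξ p → ξ p < ψ y₀ → f i p = n) (by (repeat' (first | with_reducible exact IntF.id | with_reducible exact IntF.fst' | with_reducible exact IntF.snd' | with_reducible exact IntF.const _ | with_reducible exact Int.const _ | assumption | with_reducible apply Int.and | with_reducible apply Int.or | with_reducible apply Int.not | with_reducible apply Int.imp | with_reducible apply Int.iff | with_reducible apply Int.ne | with_reducible apply Int.eq | with_reducible apply Int.mem | with_reducible apply Int.subset | with_reducible apply Int.ltN | with_reducible apply Int.leN | with_reducible_and_instances apply Int.le | with_reducible_and_instances apply Int.lt | with_reducible apply Int.all | with_reducible apply Int.ex | with_reducible apply IntF.fst | with_reducible apply IntF.snd | with_reducible apply IntF.app | with_reducible apply IntF.inl | with_reducible apply IntF.inr | with_reducible_and_instances apply IntF.mul | with_reducible_and_instances apply IntF.inv | with_reducible_and_instances apply IntF.add | with_reducible_and_instances apply IntF.sub | with_reducible_and_instances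 apply IntF.neg | with_reducible_and_instances apply IntF.smul | with_reducible apply Int.fin | with_reducible apply IntF.sep | with_reducible apply IntF.lam | with_reducible apply IntF.insert | with_reducible apply IntF.singleton | with_reducible apply IntF.union | with_reducible apply IntF.iimage | with_reducible apply IntF.ite | with_reducible apply IntF.the | with_reducible apply IntF.irec | with_reducible apply IntF.succ | with_reducible apply IntF.val | with_reducible apply IntF.mk | (with_reducible refine Int.comp ?_ ?_; assumption) | (with_reducible refine Int.comp₂ ?_ ?_ ?_; assumption) | (with_reducible refine Int.comp₃ ?_ ?_ ?_ ?_; assumption) | (with_reducible refine Int.comp₄ ?_ ?_ ?_ ?_ ?_; assumption) | (with_reducible refine IntF.comp ?_ ?_; assumption) | (with_reducible refine IntF.comp₂ ?_ ?_ ?_; assumption) | (with_reducible refine IntF.comp₃ ?_ ?_ ?_ ?_; assumption) | with_reducible apply IntF.pair))) hY ?_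
      rintro i n n' ⟨c, h1, h2⟩ ⟨c', h3, h4⟩
      obtain ⟨p, h5, h6⟩ := hXd (max 0 (max c c')) (ψ y₀) (le_max_left _ _) (hψ.lt1 y₀).le
        (max_lt (hψ.pos y₀) (max_lt h1 h3))
      rw [← h2 p (((le_max_left _ _).trans (le_max_right _ _)).trans_lt h5) h6,
        ← h4 p (((le_max_right _ _).trans (le_max_right _ _)).trans_lt h5) h6]
    have hfin : ∀ F : IPow N (Helper672.Plain.El j), IFin F → ∃ c : Helper672.Plain.El r, c < ψ y₀ ∧ ∀ i, i ∈ F → ∀ p : Helper672.Plain.El x,
        c < ξ p → ξ p < ψ y₀ → f i p = Y i := by
      intro F hF
      refine IFin.ind (p := fun F : IPow N (Helper672.Plain.El j) => ∃ c : Helper672.Plain.El r, c < ψ y₀ ∧ ∀ i, i ∈ F →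
        ∀ p : Helper672.Plain.El x, c < ξ p → ξ p < ψ y₀ → f i p = Y i) (by (repeat' (first | with_reducible exact IntF.id | with_reducible exact IntF.fst' | with_reducible exact IntF.snd' | with_reducible exact IntF.const _ | with_reducible exact Int.const _ | assumption | with_reducible apply Int.and | with_reducible apply Int.or | with_reducible apply Int.not | with_reducible apply Int.imp | with_reducible apply Int.iff | with_reducible apply Int.ne | with_reducible apply Int.eq | with_reducible apply Int.mem | with_reducible apply Int.subset | with_reducible apply Int.ltN | with_reducible apply Int.leN | with_reducible_and_instances apply Int.le | with_reducible_and_instances apply Int.lt | with_reducible apply Int.all | with_reducible apply Int.ex | with_reducible apply IntF.fst | with_reducible apply IntF.snd | with_reducible apply IntF.app | with_reducible apply IntF.inl | with_reducible apply IntF.inr | with_reducible_and_instances apply IntF.mul | with_reducible_and_instances apply IntF.inv | with_reducible_and_instances apply IntF.add | with_reducible_and_instances apply IntF.sub | with_reducible_and_instances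 apply IntF.neg | with_reducible_and_instances apply IntF.smul | with_reducible apply Int.fin | with_reducible apply IntF.sep | with_reducible apply IntF.lam | with_reducible apply IntF.insert | with_reducible apply IntF.singleton | with_reducible apply IntF.union | with_reducible apply IntF.iimage | with_reducible apply IntF.ite | with_reducible apply IntF.the | with_reducible apply IntF.irec | with_reducible apply IntF.succ | with_reducible apply IntF.val | with_reducible apply IntF.mk | (with_reducible refine Int.comp ?_ ?_; assumption) | (with_reducible refine Int.comp₂ ?_ ?_ ?_; assumption) | (with_reducible refine Int.comp₃ ?_ ?_ ?_ ?_; assumption) | (with_reducible refine Int.comp₄ ?_ ?_ ?_ ?_ ?_; assumption) | (with_reducible refine IntF.comp ?_ ?_; assumption) | (with_reducible refine IntF.comp₂ ?_ ?_ ?_; assumption) | (with_reducible refine IntF.comp₃ ?_ ?_ ?_ ?_; assumption) | with_reducible apply IntF.pair))) ?_ ?_ F hF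
      · exact ⟨0, hψ.pos y₀, fun i hi => absurd hi (by simp)⟩
      · rintro s i _ _ ⟨c, h1, h2⟩
        obtain ⟨c', h3, h4⟩ := hY i
        refine ⟨max c c', max_lt h1 h3, fun i' hi' p hp hp' => ?_⟩
        rcases mem_insert.1 hi' with rfl | hi'
        · exact h4 p ((le_max_right _ _).trans_lt hp) hp'
        · exact h2 i' hi' p ((le_max_left _ _).trans_lt hp) hp'
    have hfin' : ∀ (F : N) (c : Helper672.Plain.El r), IsFinite F → c < ψ y₀ → ∃ p : Helper672.Plain.El x, c < ξ p ∧ ξ p < ψ y₀ ∧
        ∀ i : Helper672.Plain.El j, Helper672.Plain.Mem i.1 F → e p i = ν.symm (Y i) := by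
      intro F c hF hc
      obtain ⟨c', h1, h2⟩ := hfin _ (ifin_of_finite hF j)
      obtain ⟨p, h3, h4⟩ := hXd (max 0 (max c c')) (ψ y₀) (le_max_left _ _) (hψ.lt1 y₀).le
        (max_lt (hψ.pos y₀) (max_lt hc h1))
      refine ⟨p, ((le_max_left _ _).trans (le_max_right _ _)).trans_lt h3, h4, fun i hi => ?_⟩
      have h5 := h2 i ((mem_sep (memI' _ _)).2 hi) p
        (((le_max_right _ _).trans (le_max_right _ _)).trans_lt h3) h4
      rw [hfe] at h5
      rw [← h5, Equiv.symm_apply_apply]
    obtain ⟨p₀, hp₀⟩ := hcl (fun i => ν.symm (Y i)) (isMap_iff.2 (IntF.comp (g := fun n => ν.symm n)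
      hν' hYI)) fun F hF => by
        obtain ⟨p, -, -, h1⟩ := hfin' F 0 hF (hψ.pos y₀)
        exact ⟨p, h1⟩
    have hne : ξ p₀ ≠ ψ y₀ := ((hξX p₀).2.2 y₀).symm
    have hpos : 0 < |ξ p₀ - ψ y₀| := abs_pos.2 (sub_ne_zero.2 hne)
    have hUI : Int N (fun q : Helper672.Plain.El x => d (ξ q) (ξ p₀) < |ξ p₀ - ψ y₀| / 2) := by (repeat' (first | with_reducible exact IntF.id | with_reducible exact IntF.fst' | with_reducible exact IntF.snd' | with_reducible exact IntF.const _ | with_reducible exact Int.const _ | assumption | with_reducible apply Int.and | with_reducible apply Int.or | with_reducible apply Int.not | with_reducible apply Int.imp | with_reducible apply Int.iff | with_reducible apply Int.ne | with_reducible apply Int.eq | with_reducible apply Int.mem | with_reducible apply Int.subset | with_reducible apply Int.ltN | with_reducible apply Int.leN | with_reducible_and_instances apply Int.le | with_reducible_and_instances apply Int.lt | with_reducible apply Int.all | with_reducible apply Int.ex | with_reducible apply IntF.fst | with_reducible apply IntF.snd | with_reducible apply IntF.app | with_reducible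 apply IntF.inl | with_reducible apply IntF.inr | with_reducible_and_instances apply IntF.mul | with_reducible_and_instances apply IntF.inv | with_reducible_and_instances apply IntF.add | with_reducible_and_instances apply IntF.sub | with_reducible_and_instances apply IntF.neg | with_reducible_and_instances apply IntF.smul | with_reducible apply Int.fin | with_reducible apply IntF.sep | with_reducible apply IntF.lam | with_reducible apply IntF.insert | with_reducible apply IntF.singleton | with_reducible apply IntF.union | with_reducible apply IntF.iimage | with_reducible apply IntF.ite | with_reducible apply IntF.the | with_reducible apply IntF.irec | with_reducible apply IntF.succ | with_reducible apply IntF.val | with_reducible apply IntF.mk | (with_reducible refine Int.comp ?_ ?_; assumption) | (with_reducible refine Int.comp₂ ?_ ?_ ?_; assumption) | (with_reducible refine Int.comp₃ ?_ ?_ ?_ ?_; assumption) | (with_reducible refine Int.comp₄ ?_ ?_ ?_ ?_ ?_; assumption) | (with_reducible refine IntF.comp ?_ ?_; assumption) | (with_reducible refine IntF.comp₂ ?_ ?_ ?_; assumption) | (with_reducible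 refine IntF.comp₃ ?_ ?_ ?_ ?_; assumption) | with_reducible apply IntF.pair))
    obtain ⟨u, hu⟩ := exists_set hUI
    have hux : ∀ z, Helper672.Plain.Mem z u → Helper672.Plain.Mem z x := fun z hz => ((hu z).1 hz).1
    have hut : Helper672.Plain.Mem u t := (hop u hux).2 fun q hq => by
      obtain ⟨_, h1⟩ := (hu _).1 hq
      have h1 : d (ξ q) (ξ p₀) < |ξ p₀ - ψ y₀| / 2 := h1
      refine ⟨|ξ p₀ - ψ y₀| / 2 - d (ξ q) (ξ p₀), sub_pos.2 h1, fun q' hq' => (hu _).2 ⟨q'.2, ?_⟩⟩
      change d (ξ q') (ξ p₀) < _
      rw [hd] at hq' ⊢
      have := abs_sub_le (ξ q') (ξ q) (ξ p₀)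
      linarith
    obtain ⟨F, hF, h1⟩ := (htop u hux).1 hut p₀ ((hu _).2 ⟨p₀.2, by
      change d (ξ p₀) (ξ p₀) < _
      rw [hd, sub_self, abs_zero]
      exact half_pos hpos⟩)
    obtain ⟨p, h2, h3, h4⟩ := hfin' F (ψ y₀ - |ξ p₀ - ψ y₀| / 2) hF (by linarith)
    obtain ⟨_, h5⟩ := (hu _).1 (h1 p fun i hi => (h4 i hi).trans (hp₀ i).symm)
    have h5 : d (ξ p) (ξ p₀) < |ξ p₀ - ψ y₀| / 2 := h5
    rw [hd] at h5
    have h6 : |ξ p - ψ y₀| < |ξ p₀ - ψ y₀| / 2 := abs_lt.2 ⟨by linarith, by linarith⟩
    have h7 := abs_sub_le (ξ p₀) (ξ p) (ψ y₀)
    rw [abs_sub_comm (ξ p₀) (ξ p)] at h7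
    linarith

end

/-- A zero-dimensional subspace of the real line need not be `ℕ`-compact. -/
theorem p1eff47 (h : ∃ (M : Type u) (_ : LSet.Structure M), ZF M) :
    ∃ (N : Type u) (_ : LSet.Structure N), ZF N ∧
      ∃ (r : N) (_ : Field (Helper672.Plain.El r)) (_ : LinearOrder (Helper672.Plain.El r)) (_ : IsStrictOrderedRing (Helper672.Plain.El r)),
        IsReals r ∧ ∃ tE x t : N, IsUsualTop tE r ∧ (∀ z, Helper672.Plain.Mem z x → Helper672.Plain.Mem z r) ∧
          IsSubspace t x tE ∧ IsT1 t x ∧ IsZeroDim t x ∧ ¬ IsNCompact t x := by
  obtain ⟨N, iN, hN, hZ, D⟩ := exists_c1 h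
  obtain ⟨r, i1, i2, i3, hr⟩ := exists_reals hZ
  refine ⟨N, iN, hN, r, i1, i2, i3, hr, ?_⟩
  letI := toL N
  letI : IsModel N := isModel_of_zermelo hZ
  obtain ⟨z, b, hb⟩ := D
  obtain ⟨ψ, hψ⟩ := exists_cr hr hb
  exact not_ncompact hr hψ

end Pool.Agent.Q301.SF
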