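import Pool.Agent.Q301.SF.CD
import Pool.Agent.Q301.QM.Top

/-!
# Cohen reals as real numbers
-/

set_option maxHeartbeats 1000000
set_option linter.all false
set_option synthInstance.maxSize 2000

namespace Pool.Agent.Q301.SF

open FirstOrder FirstOrder.Language
open Pool.Agent.Helper672.ZFA
open Pool.Agent.Helper672.Plain (LSet)
open Pool.Agent.Helper672.ZFA.H635 (toL plainN_ordPair plainN_graph plainN_opGraph)
open Pool.Agent.H635Amen (IsReals)
open Pool.Agent.H310Cards (IsOmega IsFinite IsFun App IsInj IsNat)
open Pool.Agent.H310Top (IsTopology IsClosed IsCompact IsHausdorff)
open Pool.Agent.H310 (FinP finP_iff finP_le finP_lt exists_BN mem_nat nat_iff appN finite_of_finP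
  mem_cp extN exists_code instPEl)
open Pool.Agent.Q301.TM
open Pool.Agent.Q301.QM (HS exists_hs HS.lt HS.anti)
open Pool.Agent.Q301.BM (TpO tp mem_tp mem_tp' isTopology_tp tpO_of mem_cp' mem_domP)
open Pool.Agent.Helper672.ZFA.Q301SF (CD)

universe u u₁

attribute [local instance] toL instPEl

/-- A set of Cohen reals in the unit interval. -/
structure CR {N : Type u} [LSet.Structure N] [IsModel N] {r : N} [Field (Helper672.Plain.El r)]
    [LinearOrder (Helper672.Plain.El r)] {δ : Type u₁} [ITy N δ] (ψ : δ → Helper672.Plain.El r) : Prop where
  int : IntF N ψ
  inj : ∀ x y, ψ x = ψ y → x = y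
  pos : ∀ x, 0 < ψ x
  lt1 : ∀ x, ψ x < 1
  dense : ∀ E : IPow N δ, IFin E → ∀ a b : Helper672.Plain.El r, 0 ≤ a → b ≤ 1 → a < b →
    ∃ y, ¬ y ∈ E ∧ a < ψ y ∧ ψ y < b
  hom : ∀ J : δ × (INat N × INat N) → Prop, Int N J → ∃ E : IPow N δ, IFin E ∧ ∀ x, ¬ x ∈ E →
    ∀ m, J (x, m) → ∃ (ε : Helper672.Plain.El r) (E' : IPow N δ), 0 < ε ∧ IFin E' ∧ ∀ y, ¬ y ∈ E' →
      |ψ y - ψ x| < ε → J (y, m)

section

variable {N : Type u} [LSet.Structure N] [hM : IsModel N] {δ : Type u₁} [ITy N δ]
variable {r : N} [Field (Helper672.Plain.El r)] [LinearOrder (Helper672.Plain.El r)] [IsStrictOrderedRing (Helper672.Plain.El r)]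
variable {b : INat N × δ → Prop} {q : INat N → Helper672.Plain.El r}

open Classical in
theorem exists_psum (hr : IsReals r) (hb : Int N b) (hq : HS q) :
    ∃ s : INat N → δ → Helper672.Plain.El r, IntF N (fun c : INat N × δ => s c.1 c.2) ∧ (∀ x, s 0 x = 0) ∧
      (∀ n x, b (n, x) → s n.succ x = s n x + q n.succ) ∧
      ∀ n x, ¬ b (n, x) → s n.succ x = s n x := by
  have hadd := int_add hr
  have hqi := hq.int
  have hf : ∀ x : δ, IntF N (fun c : INat N × Helper672.Plain.El r => if b (c.1, x) then c.2 + q c.1.succ else c.2) :=
    fun x => by (repeat' (first | with_reducible exact IntF.id | with_reducible exact IntF.fst' | with_reducible exact IntF.snd' | with_reducible exact IntF.const _ | with_reducible exact Int.const _ | assumption | with_reducible apply Int.and | with_reducible apply Int.or | with_reducible apply Int.not | with_reducible apply Int.imp | with_reducible apply Int.iff | with_reducible apply Int.ne | with_reducible apply Int.eq | with_reducible apply Int.mem | with_reducible apply Int.subset | with_reducible apply Int.ltN | with_reducible apply Int.leN | with_reducible_and_instances apply Int.le | with_reducible_and_instances apply Int.lt |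 with_reducible apply Int.all | with_reducible apply Int.ex | with_reducible apply IntF.fst | with_reducible apply IntF.snd | with_reducible apply IntF.app | with_reducible apply IntF.inl | with_reducible apply IntF.inr | with_reducible_and_instances apply IntF.mul | with_reducible_and_instances apply IntF.inv | with_reducible_and_instances apply IntF.add | with_reducible_and_instances apply IntF.sub | with_reducible_and_instances apply IntF.neg | with_reducible_and_instances apply IntF.smul | with_reducible apply Int.fin | with_reducible apply IntF.sep | with_reducible apply IntF.lam | with_reducible apply IntF.insert | with_reducible apply IntF.singleton | with_reducible apply IntF.union | with_reducible apply IntF.iimage | with_reducible apply IntF.ite | with_reducible apply IntF.the | with_reducible apply IntF.irec | with_reducible apply IntF.succ | with_reducible apply IntF.val | with_reducible apply IntF.mk | (with_reducible refine Int.comp ?_ ?_; assumption) | (with_reducible refine Int.comp₂ ?_ ?_ ?_; assumption) | (with_reducible refine Int.comp₃ ?_ ?_ ?_ ?_; assumption) | (with_reducible refine Int.comp₄ ?_ ?_ ?_ ?_ ?_; assumption) | (with_reducible refine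 IntF.comp ?_ ?_; assumption) | (with_reducible refine IntF.comp₂ ?_ ?_ ?_; assumption) | (with_reducible refine IntF.comp₃ ?_ ?_ ?_ ?_; assumption) | with_reducible apply IntF.pair))
  refine ⟨fun n x => irec (0 : Helper672.Plain.El r) (fun k y => if b (k, x) then y + q k.succ else y) n, by (repeat' (first | with_reducible exact IntF.id | with_reducible exact IntF.fst' | with_reducible exact IntF.snd' | with_reducible exact IntF.const _ | with_reducible exact Int.const _ | assumption | with_reducible apply Int.and | with_reducible apply Int.or | with_reducible apply Int.not | with_reducible apply Int.imp | with_reducible apply Int.iff | with_reducible apply Int.ne | with_reducible apply Int.eq | with_reducible apply Int.mem | with_reducible apply Int.subset | with_reducible apply Int.ltN | with_reducible apply Int.leN | with_reducible_and_instances apply Int.le | with_reducible_and_instances apply Int.lt | with_reducible apply Int.all | with_reducible apply Int.ex | with_reducible apply IntF.fst | with_reducible apply IntF.snd | with_reducible apply IntF.app | with_reducible apply IntF.inl | with_reducible apply IntF.inr | with_reducible_and_instances apply IntF.mul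 | with_reducible_and_instances apply IntF.inv | with_reducible_and_instances apply IntF.add | with_reducible_and_instances apply IntF.sub | with_reducible_and_instances apply IntF.neg | with_reducible_and_instances apply IntF.smul | with_reducible apply Int.fin | with_reducible apply IntF.sep | with_reducible apply IntF.lam | with_reducible apply IntF.insert | with_reducible apply IntF.singleton | with_reducible apply IntF.union | with_reducible apply IntF.iimage | with_reducible apply IntF.ite | with_reducible apply IntF.the | with_reducible apply IntF.irec | with_reducible apply IntF.succ | with_reducible apply IntF.val | with_reducible apply IntF.mk | (with_reducible refine Int.comp ?_ ?_; assumption) | (with_reducible refine Int.comp₂ ?_ ?_ ?_; assumption) | (with_reducible refine Int.comp₃ ?_ ?_ ?_ ?_; assumption) | (with_reducible refine Int.comp₄ ?_ ?_ ?_ ?_ ?_; assumption) | (with_reducible refine IntF.comp ?_ ?_; assumption) | (with_reducible refine IntF.comp₂ ?_ ?_ ?_; assumption) | (with_reducible refine IntF.comp₃ ?_ ?_ ?_ ?_; assumption) | with_reducible apply IntF.pair)),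
    fun x => irec_zero (hf x), fun n x h => ?_, fun n x h => ?_⟩
  · beta_reduce
    rw [irec_succ (hf x), if_pos h]
  · beta_reduce
    rw [irec_succ (hf x), if_neg h]

variable {s : INat N → δ → Helper672.Plain.El r} (hr : IsReals r) (hb : CD N b) (hq : HS q)
  (hs : IntF N (fun c : INat N × δ => s c.1 c.2)) (h0 : ∀ x, s 0 x = 0)
  (h1 : ∀ n x, b (n, x) → s n.succ x = s n x + q n.succ)
  (h2 : ∀ n x, ¬ b (n, x) → s n.succ x = s n x)

include hr hq hs h1 h2 in
theorem s_mono (x : δ) {m n : INat N} (h : m ≤ n) : s m x ≤ s n x := by
  have hle := int_le hr
  revert h
  refine INat.ind (p := fun n => m ≤ n → s m x ≤ s n x) (by (repeat' (first | with_reducible exact IntF.id | with_reducible exact IntF.fst' | with_reducible exact IntF.snd' | with_reducible exact IntF.const _ | with_reducible exact Int.const _ | assumption | with_reducible apply Int.and | with_reducible apply Int.or | with_reducible apply Int.not | with_reducible apply Int.imp | with_reducible apply Int.iff | with_reducible apply Int.ne | with_reducible apply Int.eq | with_reducible apply Int.mem | with_reducible apply Int.subset | with_reducible apply Int.ltN | with_reducible apply Int.leN | with_reducible_and_instances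 apply Int.le | with_reducible_and_instances apply Int.lt | with_reducible apply Int.all | with_reducible apply Int.ex | with_reducible apply IntF.fst | with_reducible apply IntF.snd | with_reducible apply IntF.app | with_reducible apply IntF.inl | with_reducible apply IntF.inr | with_reducible_and_instances apply IntF.mul | with_reducible_and_instances apply IntF.inv | with_reducible_and_instances apply IntF.add | with_reducible_and_instances apply IntF.sub | with_reducible_and_instances apply IntF.neg | with_reducible_and_instances apply IntF.smul | with_reducible apply Int.fin | with_reducible apply IntF.sep | with_reducible apply IntF.lam | with_reducible apply IntF.insert | with_reducible apply IntF.singleton | with_reducible apply IntF.union | with_reducible apply IntF.iimage | with_reducible apply IntF.ite | with_reducible apply IntF.the | with_reducible apply IntF.irec | with_reducible apply IntF.succ | with_reducible apply IntF.val | with_reducible apply IntF.mk | (with_reducible refine Int.comp ?_ ?_; assumption) | (with_reducible refine Int.comp₂ ?_ ?_ ?_; assumption) | (with_reducible refine Int.comp₃ ?_ ?_ ?_ ?_; assumption) | (with_reducible refine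 Int.comp₄ ?_ ?_ ?_ ?_ ?_; assumption) | (with_reducible refine IntF.comp ?_ ?_; assumption) | (with_reducible refine IntF.comp₂ ?_ ?_ ?_; assumption) | (with_reducible refine IntF.comp₃ ?_ ?_ ?_ ?_; assumption) | with_reducible apply IntF.pair))) ?_ ?_ n
  · intro h
    rcases h.lt_or_eq with h | rfl
    · exact absurd h INat.not_lt_zero
    · exact le_rfl
  · intro n ih h
    rcases h.lt_or_eq with h | rfl
    · refine (ih (INat.lt_succ_iff.1 h)).trans ?_
      by_cases hn : b (n, x)
      · rw [h1 n x hn]
        have := hq.pos n.succ
        linarith
      · rw [h2 n x hn]
    · exact le_rfl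

include hr hq hs h1 h2 in
theorem s_anti (x : δ) {m n : INat N} (h : m ≤ n) : s n x + q n ≤ s m x + q m := by
  have hle := int_le hr
  have hadd := int_add hr
  have hqi := hq.int
  revert h
  refine INat.ind (p := fun n => m ≤ n → s n x + q n ≤ s m x + q m) (by (repeat' (first | with_reducible exact IntF.id | with_reducible exact IntF.fst' | with_reducible exact IntF.snd' | with_reducible exact IntF.const _ | with_reducible exact Int.const _ | assumption | with_reducible apply Int.and | with_reducible apply Int.or | with_reducible apply Int.not | with_reducible apply Int.imp | with_reducible apply Int.iff | with_reducible apply Int.ne | with_reducible apply Int.eq | with_reducible apply Int.mem | with_reducible apply Int.subset | with_reducible apply Int.ltN | with_reducible apply Int.leN | with_reducible_and_instances apply Int.le | with_reducible_and_instances apply Int.lt | with_reducible apply Int.all | with_reducible apply Int.ex | with_reducible apply IntF.fst | with_reducible apply IntF.snd | with_reducible apply IntF.app | with_reducible apply IntF.inl | with_reducible apply IntF.inr | with_reducible_and_instances apply IntF.mul | with_reducible_and_instances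 apply IntF.inv | with_reducible_and_instances apply IntF.add | with_reducible_and_instances apply IntF.sub | with_reducible_and_instances apply IntF.neg | with_reducible_and_instances apply IntF.smul | with_reducible apply Int.fin | with_reducible apply IntF.sep | with_reducible apply IntF.lam | with_reducible apply IntF.insert | with_reducible apply IntF.singleton | with_reducible apply IntF.union | with_reducible apply IntF.iimage | with_reducible apply IntF.ite | with_reducible apply IntF.the | with_reducible apply IntF.irec | with_reducible apply IntF.succ | with_reducible apply IntF.val | with_reducible apply IntF.mk | (with_reducible refine Int.comp ?_ ?_; assumption) | (with_reducible refine Int.comp₂ ?_ ?_ ?_; assumption) | (with_reducible refine Int.comp₃ ?_ ?_ ?_ ?_; assumption) | (with_reducible refine Int.comp₄ ?_ ?_ ?_ ?_ ?_; assumption) | (with_reducible refine IntF.comp ?_ ?_; assumption) | (with_reducible refine IntF.comp₂ ?_ ?_ ?_; assumption) | (with_reducible refine IntF.comp₃ ?_ ?_ ?_ ?_; assumption) | with_reducible apply IntF.pair))) ?_ ?_ n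
  · intro h
    rcases h.lt_or_eq with h | rfl
    · exact absurd h INat.not_lt_zero
    · exact le_rfl
  · intro n ih h
    rcases h.lt_or_eq with h | rfl
    · refine le_trans ?_ (ih (INat.lt_succ_iff.1 h))
      have h3 := hq.succ n
      have h4 := hq.pos n.succ
      by_cases hn : b (n, x)
      · rw [h1 n x hn]
        linarith
      · rw [h2 n x hn]
        linarith
    · exact le_rfl

include hr hs h0 h1 h2 in
theorem s_agree {x y : δ} {n : INat N} (h : ∀ k, k < n → (b (k, y) ↔ b (k, x)))
    (hb : Int N b) : s n y = s n x := by
  revert h
  refine INat.ind (p := fun n => (∀ k, k < n → (b (k, y) ↔ b (k, x))) → s n y = s n x)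
    (by (repeat' (first | with_reducible exact IntF.id | with_reducible exact IntF.fst' | with_reducible exact IntF.snd' | with_reducible exact IntF.const _ | with_reducible exact Int.const _ | assumption | with_reducible apply Int.and | with_reducible apply Int.or | with_reducible apply Int.not | with_reducible apply Int.imp | with_reducible apply Int.iff | with_reducible apply Int.ne | with_reducible apply Int.eq | with_reducible apply Int.mem | with_reducible apply Int.subset | with_reducible apply Int.ltN | with_reducible apply Int.leN | with_reducible_and_instances apply Int.le | with_reducible_and_instances apply Int.lt | with_reducible apply Int.all | with_reducible apply Int.ex | with_reducible apply IntF.fst | with_reducible apply IntF.snd | with_reducible apply IntF.app | with_reducible apply IntF.inl | with_reducible apply IntF.inr | with_reducible_and_instances apply IntF.mul | with_reducible_and_instances apply IntF.inv | with_reducible_and_instances apply IntF.add | with_reducible_and_instances apply IntF.sub | with_reducible_and_instances apply IntF.neg | with_reducible_and_instances apply IntF.smul | with_reducible apply Int.fin | with_reducible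 apply IntF.sep | with_reducible apply IntF.lam | with_reducible apply IntF.insert | with_reducible apply IntF.singleton | with_reducible apply IntF.union | with_reducible apply IntF.iimage | with_reducible apply IntF.ite | with_reducible apply IntF.the | with_reducible apply IntF.irec | with_reducible apply IntF.succ | with_reducible apply IntF.val | with_reducible apply IntF.mk | (with_reducible refine Int.comp ?_ ?_; assumption) | (with_reducible refine Int.comp₂ ?_ ?_ ?_; assumption) | (with_reducible refine Int.comp₃ ?_ ?_ ?_ ?_; assumption) | (with_reducible refine Int.comp₄ ?_ ?_ ?_ ?_ ?_; assumption) | (with_reducible refine IntF.comp ?_ ?_; assumption) | (with_reducible refine IntF.comp₂ ?_ ?_ ?_; assumption) | (with_reducible refine IntF.comp₃ ?_ ?_ ?_ ?_; assumption) | with_reducible apply IntF.pair))) ?_ ?_ n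
  · intro _
    rw [h0, h0]
  · intro n ih h
    have h3 := ih fun k hk => h k (hk.trans (INat.lt_succ_self n))
    have h4 := h n (INat.lt_succ_self n)
    by_cases hn : b (n, x)
    · rw [h1 n x hn, h1 n y (h4.2 hn), h3]
    · rw [h2 n x hn, h2 n y (fun h5 => hn (h4.1 h5)), h3]

include hr hb in
theorem exists_cr : ∃ ψ : δ → Helper672.Plain.El r, CR ψ := by
  obtain ⟨q, hq⟩ := exists_hs hr
  have hbI := hb.int
  obtain ⟨s, hs, h0, h1, h2⟩ := exists_psum (δ := δ) hr hbI hq
  have hle := int_le hr
  have hlt := int_lt hr
  have hadd := int_add hr
  have hqi := hq.int
  have hmono : ∀ (x : δ) {m n : INat N}, m ≤ n → s m x ≤ s n x := fun x m n h =>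
    s_mono hr hq hs h1 h2 x h
  have hanti : ∀ (x : δ) {m n : INat N}, m ≤ n → s n x + q n ≤ s m x + q m := fun x m n h =>
    s_anti hr hq hs h1 h2 x h
  have hex : ∀ x : δ, ∃ z : Helper672.Plain.El r, (∀ n, s n x ≤ z) ∧ ∀ z', (∀ n, s n x ≤ z') → z ≤ z' := by
    intro x
    have hS : Int N (fun z : Helper672.Plain.El r => ∃ n, z ≤ s n x) := by (repeat' (first | with_reducible exact IntF.id | with_reducible exact IntF.fst' | with_reducible exact IntF.snd' | with_reducible exact IntF.const _ | with_reducible exact Int.const _ | assumption | with_reducible apply Int.and | with_reducible apply Int.or | with_reducible apply Int.not | with_reducible apply Int.imp | with_reducible apply Int.iff | with_reducible apply Int.ne | with_reducible apply Int.eq | with_reducible apply Int.mem | with_reducible apply Int.subset | with_reducible apply Int.ltN | with_reducible apply Int.leN | with_reducible_and_instances apply Int.le | with_reducible_and_instances apply Int.lt | with_reducible apply Int.all | with_reducible apply Int.ex | with_reducible apply IntF.fst | with_reducible apply IntF.snd | with_reducible apply IntF.app | with_reducible apply IntF.inl | with_reducible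 apply IntF.inr | with_reducible_and_instances apply IntF.mul | with_reducible_and_instances apply IntF.inv | with_reducible_and_instances apply IntF.add | with_reducible_and_instances apply IntF.sub | with_reducible_and_instances apply IntF.neg | with_reducible_and_instances apply IntF.smul | with_reducible apply Int.fin | with_reducible apply IntF.sep | with_reducible apply IntF.lam | with_reducible apply IntF.insert | with_reducible apply IntF.singleton | with_reducible apply IntF.union | with_reducible apply IntF.iimage | with_reducible apply IntF.ite | with_reducible apply IntF.the | with_reducible apply IntF.irec | with_reducible apply IntF.succ | with_reducible apply IntF.val | with_reducible apply IntF.mk | (with_reducible refine Int.comp ?_ ?_; assumption) | (with_reducible refine Int.comp₂ ?_ ?_ ?_; assumption) | (with_reducible refine Int.comp₃ ?_ ?_ ?_ ?_; assumption) | (with_reducible refine Int.comp₄ ?_ ?_ ?_ ?_ ?_; assumption) | (with_reducible refine IntF.comp ?_ ?_; assumption) | (with_reducible refine IntF.comp₂ ?_ ?_ ?_; assumption) | (with_reducible refine IntF.comp₃ ?_ ?_ ?_ ?_; assumption) | with_reducible apply IntF.pair))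
    obtain ⟨S, hS1⟩ := exists_set hS
    obtain ⟨z, h3, h4⟩ := hr.complete ⟨S, fun z hz => ((hS1 z).1 hz).1⟩
      ⟨(0 : Helper672.Plain.El r).1, (hS1 _).2 ⟨(0 : Helper672.Plain.El r).2, 0, (h0 x).ge⟩⟩
      ⟨1, fun w hw => by
        obtain ⟨_, n, hn⟩ := (hS1 w.1).1 hw
        refine (show w ≤ s n x from hn).trans ?_
        have h3 := hanti x (show (0 : INat N) ≤ n from not_lt.1 INat.not_lt_zero)
        rw [h0, hq.zero] at h3
        have h4 := hq.pos n
        linarith⟩
    refine ⟨z, fun n => h3 ((hS1 _).2 ⟨(s n x).2, n, le_rfl⟩), fun z' hz' => h4 fun w hw => ?_⟩
    obtain ⟨_, n, hn⟩ := (hS1 w.1).1 hw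
    exact (show w ≤ s n x from hn).trans (hz' n)
  choose ψ hψ using hex
  have hψI : IntF N ψ := IntF.of_unique (p := fun (x : δ) (z : Helper672.Plain.El r) => (∀ n, s n x ≤ z) ∧
      ∀ z', (∀ n, s n x ≤ z') → z ≤ z') (by (repeat' (first | with_reducible exact IntF.id | with_reducible exact IntF.fst' | with_reducible exact IntF.snd' | with_reducible exact IntF.const _ | with_reducible exact Int.const _ | assumption | with_reducible apply Int.and | with_reducible apply Int.or | with_reducible apply Int.not | with_reducible apply Int.imp | with_reducible apply Int.iff | with_reducible apply Int.ne | with_reducible apply Int.eq | with_reducible apply Int.mem | with_reducible apply Int.subset | with_reducible apply Int.ltN | with_reducible apply Int.leN | with_reducible_and_instances apply Int.le | with_reducible_and_instances apply Int.lt | with_reducible apply Int.all | with_reducible apply Int.ex | with_reducible apply IntF.fst | with_reducible apply IntF.snd | with_reducible apply IntF.app | with_reducible apply IntF.inl | with_reducible apply IntF.inr | with_reducible_and_instances apply IntF.mul | with_reducible_and_instances apply IntF.inv | with_reducible_and_instances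 apply IntF.add | with_reducible_and_instances apply IntF.sub | with_reducible_and_instances apply IntF.neg | with_reducible_and_instances apply IntF.smul | with_reducible apply Int.fin | with_reducible apply IntF.sep | with_reducible apply IntF.lam | with_reducible apply IntF.insert | with_reducible apply IntF.singleton | with_reducible apply IntF.union | with_reducible apply IntF.iimage | with_reducible apply IntF.ite | with_reducible apply IntF.the | with_reducible apply IntF.irec | with_reducible apply IntF.succ | with_reducible apply IntF.val | with_reducible apply IntF.mk | (with_reducible refine Int.comp ?_ ?_; assumption) | (with_reducible refine Int.comp₂ ?_ ?_ ?_; assumption) | (with_reducible refine Int.comp₃ ?_ ?_ ?_ ?_; assumption) | (with_reducible refine Int.comp₄ ?_ ?_ ?_ ?_ ?_; assumption) | (with_reducible refine IntF.comp ?_ ?_; assumption) | (with_reducible refine IntF.comp₂ ?_ ?_ ?_; assumption) | (with_reducible refine IntF.comp₃ ?_ ?_ ?_ ?_; assumption) | with_reducible apply IntF.pair))) hψ fun x z z' h h' =>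
    le_antisymm (h.2 z' h'.1) (h'.2 z h.1)
  have lo : ∀ n x, s n x ≤ ψ x := fun n x => (hψ x).1 n
  have hi : ∀ n x, ψ x ≤ s n x + q n := fun n x => (hψ x).2 _ fun m => by
    rcases le_total m n with h | h
    · have h3 := hmono x h
      have h4 := hq.pos n
      linarith
    · have h3 := hanti x h
      have h4 := hq.pos m
      linarith
  have lo' : ∀ n x, s n x < ψ x := fun n x => by
    obtain ⟨k, hk, h3⟩ := hb.inf1 x n
    have h4 := hmono x hk
    have h5 := lo k.succ x
    rw [h1 k x h3] at h5
    have h6 := hq.pos k.succ
    linarith
  have hi' : ∀ n x, ψ x < s n x + q n := fun n x => by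
    obtain ⟨k, hk, h3⟩ := hb.inf0 x n
    have h4 := hanti x hk
    have h5 := hi k.succ x
    rw [h2 k x h3] at h5
    have h6 := hq.lt k
    linarith
  have agree : ∀ {x y : δ} {n : INat N}, (∀ k, k < n → (b (k, y) ↔ b (k, x))) → s n y = s n x :=
    fun h => s_agree hr hs h0 h1 h2 h hbI
  have sep : ∀ (x y : δ) (n : INat N), ¬ (∀ k, k < n → (b (k, y) ↔ b (k, x))) →
      ψ x - s n x ≤ |ψ y - ψ x| ∨ s n x + q n - ψ x ≤ |ψ y - ψ x| := by
    intro x y n h
    obtain ⟨k, ⟨hk, hkb⟩, hmin⟩ := INat.exists_least (p := fun k => k < n ∧ ¬ (b (k, y) ↔ b (k, x)))
      (by (repeat' (first | with_reducible exact IntF.id | with_reducible exact IntF.fst' | with_reducible exact IntF.snd' | with_reducible exact IntF.const _ | with_reducible exact Int.const _ | assumption | with_reducible apply Int.and | with_reducible apply Int.or | with_reducible apply Int.not | with_reducible apply Int.imp | with_reducible apply Int.iff | with_reducible apply Int.ne | with_reducible apply Int.eq | with_reducible apply Int.mem | with_reducible apply Int.subset | with_reducible apply Int.ltN | with_reducible apply Int.leN | with_reducible_and_instances apply Int.le | with_reducible_and_instances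 apply Int.lt | with_reducible apply Int.all | with_reducible apply Int.ex | with_reducible apply IntF.fst | with_reducible apply IntF.snd | with_reducible apply IntF.app | with_reducible apply IntF.inl | with_reducible apply IntF.inr | with_reducible_and_instances apply IntF.mul | with_reducible_and_instances apply IntF.inv | with_reducible_and_instances apply IntF.add | with_reducible_and_instances apply IntF.sub | with_reducible_and_instances apply IntF.neg | with_reducible_and_instances apply IntF.smul | with_reducible apply Int.fin | with_reducible apply IntF.sep | with_reducible apply IntF.lam | with_reducible apply IntF.insert | with_reducible apply IntF.singleton | with_reducible apply IntF.union | with_reducible apply IntF.iimage | with_reducible apply IntF.ite | with_reducible apply IntF.the | with_reducible apply IntF.irec | with_reducible apply IntF.succ | with_reducible apply IntF.val | with_reducible apply IntF.mk | (with_reducible refine Int.comp ?_ ?_; assumption) | (with_reducible refine Int.comp₂ ?_ ?_ ?_; assumption) | (with_reducible refine Int.comp₃ ?_ ?_ ?_ ?_; assumption) | (with_reducible refine Int.comp₄ ?_ ?_ ?_ ?_ ?_; assumption) | (with_reducible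 refine IntF.comp ?_ ?_; assumption) | (with_reducible refine IntF.comp₂ ?_ ?_ ?_; assumption) | (with_reducible refine IntF.comp₃ ?_ ?_ ?_ ?_; assumption) | with_reducible apply IntF.pair))) (by
        push Not at h
        obtain ⟨k, hk, h3⟩ := h
        refine ⟨k, hk, fun h4 => ?_⟩
        rcases h3 with ⟨h5, h6⟩ | ⟨h5, h6⟩
        · exact h6 (h4.1 h5)
        · exact h5 (h4.2 h6))
    have h3 : s k y = s k x := agree fun j hj => by
      by_contra h4
      exact absurd (hmin j ⟨hj.trans hk, h4⟩) (not_le.2 hj)
    have hkn : k.succ ≤ n := INat.succ_le_iff.2 hk
    by_cases hx : b (k, x)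
    · have hy : ¬ b (k, y) := fun hy => hkb (iff_of_true hy hx)
      left
      have e1 := hi k.succ y
      rw [h2 k y hy, h3] at e1
      have e2 := hmono x hkn
      rw [h1 k x hx] at e2
      have e3 := neg_abs_le (ψ y - ψ x)
      linarith
    · have hy : b (k, y) := by
        by_contra hy
        exact hkb (iff_of_false hy hx)
      right
      have e1 := lo k.succ y
      rw [h1 k y hy, h3] at e1
      have e2 := hanti x hkn
      rw [h2 k x hx] at e2
      have e3 := le_abs_self (ψ y - ψ x)
      linarith
  have near : ∀ (x : δ) (n : INat N), ∃ ε : Helper672.Plain.El r, 0 < ε ∧ ∀ y, |ψ y - ψ x| < ε →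
      ∀ k, k < n → (b (k, y) ↔ b (k, x)) := by
    intro x n
    refine ⟨min (ψ x - s n x) (s n x + q n - ψ x), lt_min (sub_pos.2 (lo' n x))
      (sub_pos.2 (hi' n x)), fun y hy => ?_⟩
    by_contra h
    rcases sep x y n h with h3 | h3
    · exact absurd (hy.trans_le (min_le_left _ _)) (not_lt.2 h3)
    · exact absurd (hy.trans_le (min_le_right _ _)) (not_lt.2 h3)
  refine ⟨ψ, hψI, ?_, ?_, ?_, ?_, ?_⟩
  · intro x y hxy
    refine hb.ext _ _ fun k => ?_
    obtain ⟨ε, h3, h4⟩ := near y k.succ
    exact h4 x (by rwa [hxy, sub_self, abs_zero]) k (INat.lt_succ_self k)
  · intro x
    have := lo' 0 x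
    rwa [h0] at this
  · intro x
    have := hi' 0 x
    rwa [h0, hq.zero, zero_add] at this
  · intro E hE a c ha hc hac
    have key : ∀ (t : Helper672.Plain.El r), 0 ≤ t → t ≤ 1 → ∀ n : INat N, ∃ x, s n x ≤ t ∧ t ≤ s n x + q n := by
      intro t ht0 ht1 n
      refine INat.ind (p := fun n => ∃ x, s n x ≤ t ∧ t ≤ s n x + q n) (by (repeat' (first | with_reducible exact IntF.id | with_reducible exact IntF.fst' | with_reducible exact IntF.snd' | with_reducible exact IntF.const _ | with_reducible exact Int.const _ | assumption | with_reducible apply Int.and | with_reducible apply Int.or | with_reducible apply Int.not | with_reducible apply Int.imp | with_reducible apply Int.iff | with_reducible apply Int.ne | with_reducible apply Int.eq | with_reducible apply Int.mem | with_reducible apply Int.subset | with_reducible apply Int.ltN | with_reducible apply Int.leN | with_reducible_and_instances apply Int.le | with_reducible_and_instances apply Int.lt | with_reducible apply Int.all | with_reducible apply Int.ex | with_reducible apply IntF.fst | with_reducible apply IntF.snd | with_reducible apply IntF.app | with_reducible apply IntF.inl | with_reducible apply IntF.inr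 | with_reducible_and_instances apply IntF.mul | with_reducible_and_instances apply IntF.inv | with_reducible_and_instances apply IntF.add | with_reducible_and_instances apply IntF.sub | with_reducible_and_instances apply IntF.neg | with_reducible_and_instances apply IntF.smul | with_reducible apply Int.fin | with_reducible apply IntF.sep | with_reducible apply IntF.lam | with_reducible apply IntF.insert | with_reducible apply IntF.singleton | with_reducible apply IntF.union | with_reducible apply IntF.iimage | with_reducible apply IntF.ite | with_reducible apply IntF.the | with_reducible apply IntF.irec | with_reducible apply IntF.succ | with_reducible apply IntF.val | with_reducible apply IntF.mk | (with_reducible refine Int.comp ?_ ?_; assumption) | (with_reducible refine Int.comp₂ ?_ ?_ ?_; assumption) | (with_reducible refine Int.comp₃ ?_ ?_ ?_ ?_; assumption) | (with_reducible refine Int.comp₄ ?_ ?_ ?_ ?_ ?_; assumption) | (with_reducible refine IntF.comp ?_ ?_; assumption) | (with_reducible refine IntF.comp₂ ?_ ?_ ?_; assumption) | (with_reducible refine IntF.comp₃ ?_ ?_ ?_ ?_; assumption) | with_reducible apply IntF.pair))) ?_ ?_ n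
      · obtain ⟨x⟩ := hb.ne
        refine ⟨x, ?_, ?_⟩
        · rwa [h0]
        · rwa [h0, hq.zero, zero_add]
      · rintro n ⟨x, h3, h4⟩
        have h5 := hq.succ n
        by_cases h6 : s n x + q n.succ ≤ t
        · obtain ⟨y, -, h7, h8⟩ := hb.cp1 ∅ IFin.empty x n
          refine ⟨y, ?_, ?_⟩
          · rw [h1 n y h8, agree h7]
            exact h6
          · rw [h1 n y h8, agree h7]
            linarith
        · obtain ⟨y, -, h7, h8⟩ := hb.cp0 ∅ IFin.empty x n
          refine ⟨y, ?_, ?_⟩
          · rw [h2 n y h8, agree h7]
            exact h3
          · rw [h2 n y h8, agree h7]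
            exact (not_le.1 h6).le
    obtain ⟨n, hn⟩ := hq.lim ((c - a) / 2) (half_pos (sub_pos.2 hac))
    obtain ⟨x, h3, h4⟩ := key ((a + c) / 2) (by linarith) (by linarith) n
    obtain ⟨y, h5, h6, -⟩ := hb.cp1 E hE x n
    have h7 := lo n y
    have h8 := hi n y
    rw [agree h6] at h7 h8
    exact ⟨y, h5, by linarith, by linarith⟩
  · intro J hJ
    obtain ⟨E, hE, h3⟩ := hb.hom J hJ
    refine ⟨E, hE, fun x hx m hm => ?_⟩
    obtain ⟨n, E', hE', h4⟩ := h3 x hx m hm
    obtain ⟨ε, h5, h6⟩ := near x n
    exact ⟨ε, E', h5, hE', fun y hy hyx => h4 y hy (h6 y hyx)⟩

end

end Pool.Agent.Q301.SF
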